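import Mathlib

/-!
The truncated binomial series of the root.
-/

set_option autoImplicit false

namespace Pool.Agent.H21bl.CC

open Polynomial

variable {k : Type} [Field k] [CharZero k]

/-- truncated roots of `1 + X` -/
theorem exists_root (e : ℕ) (he : 0 < e) (M : ℕ) (hM : 1 ≤ M) :
    ∃ g : k[X], g.natDegree < M ∧ g.coeff 0 = 1 ∧ X ^ M ∣ g ^ e - (1 + X) := by
  induction M, hM using Nat.le_induction with
  | base =>
    refine ⟨1, by simp, by simp, ⟨-1, ?_⟩⟩
    rw [one_pow]
    ring
  | succ M hM ih =>
    obtain ⟨g, h1, h2, q, h3⟩ := ih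
    have he0 : (e : k) ≠ 0 := by exact_mod_cast he.ne'
    let a : k := q.coeff 0 / e
    refine ⟨g - C a * X ^ M, ?_, ?_, ?_⟩
    · refine lt_of_le_of_lt (natDegree_sub_le _ _) ?_
      refine max_lt (by omega) ?_
      refine lt_of_le_of_lt (natDegree_C_mul_X_pow_le _ _) (by omega)
    · rw [coeff_sub, h2, coeff_C_mul, coeff_X_pow, if_neg (by omega), mul_zero, sub_zero]
    · -- expansion
      have hexp : ∃ t : k[X], (g - C a * X ^ M) ^ e =
          g ^ e - C a * X ^ M * (C (e : k) * g ^ (e - 1)) + (C a * X ^ M) ^ 2 * t := by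
        obtain ⟨t, ht⟩ : ∃ t : k[X], (g + (-(C a * X ^ M))) ^ e = g ^ e + (-(C a * X ^ M)) *
            ((e : k[X]) * g ^ (e - 1)) + (-(C a * X ^ M)) ^ 2 * t := by
          have h5 := (Polynomial.binomExpansion (X ^ e : k[X][X]) g (-(C a * X ^ M)))
          obtain ⟨t, ht⟩ := h5
          refine ⟨t, ?_⟩
          rw [eval_pow, eval_X, eval_pow, eval_X, derivative_X_pow] at ht
          rw [ht]
          simp only [eval_mul, eval_pow, eval_X, map_natCast, eval_natCast]
          ring
        refine ⟨t, ?_⟩
        rw [sub_eq_add_neg, ht]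
        simp only [map_natCast]
        ring
      obtain ⟨t, ht⟩ := hexp
      rw [ht]
      have h4 : g ^ e = 1 + X + X ^ M * q := by
        rw [← h3]
        ring
      -- the coefficient of `X ^ M`
      have h5 : X ∣ q - C a * (C (e : k) * g ^ (e - 1)) := by
        rw [X_dvd_iff, coeff_sub, coeff_C_mul, coeff_C_mul, coeff_zero_eq_eval_zero (g ^ (e - 1)),
          eval_pow, ← coeff_zero_eq_eval_zero, h2, one_pow, mul_one]
        simp only [a]
        rw [div_mul_cancel₀ _ he0, sub_self]
      obtain ⟨u, hu⟩ := h5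
      have h6 : g ^ e - C a * X ^ M * (C (e : k) * g ^ (e - 1)) + (C a * X ^ M) ^ 2 * t - (1 + X) =
          X ^ M * (q - C a * (C (e : k) * g ^ (e - 1))) + (C a * X ^ M) ^ 2 * t := by
        rw [h4]
        ring
      rw [h6, hu]
      refine dvd_add ⟨u, by ring⟩ ?_
      refine ⟨C a ^ 2 * X ^ (M - 1) * t, ?_⟩
      have h7 : (X : k[X]) ^ M * X ^ M = X ^ (M + 1) * X ^ (M - 1) := by
        rw [← pow_add, ← pow_add]
        congr 1
        omega
      calc (C a * X ^ M) ^ 2 * t = C a ^ 2 * (X ^ M * X ^ M) * t := by ring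
        _ = _ := by rw [h7]; ring

/-- the homogeneous form -/
theorem exists_hom (e : ℕ) (he : 0 < e) (M : ℕ) (hM : 1 ≤ M) :
    ∃ (g z : ℕ → k), ∀ (R : Type) [CommRing R] [Algebra k R] (x y : R),
      x ^ (e * (M - 1)) * (x + y) -
        x * (∑ j ∈ Finset.range M, algebraMap k R (g j) * y ^ j * x ^ (M - 1 - j)) ^ e =
      ∑ i ∈ Finset.range (e * (M - 1) + 2 - M),
        algebraMap k R (z i) * y ^ (M + i) * x ^ (e * (M - 1) + 1 - (M + i)) := by
  classical
  obtain ⟨g, h1, h2, q, h3⟩ := exists_root (k := k) e he M hM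
  -- the degree of `q`
  have hq : q ≠ 0 → M + q.natDegree ≤ max (e * (M - 1)) 1 := by
    intro hq0
    have h4 : (X ^ M * q).natDegree = M + q.natDegree := by
      rw [natDegree_mul (pow_ne_zero _ X_ne_zero) hq0, natDegree_X_pow]
    rw [← h4, ← h3]
    refine (natDegree_sub_le _ _).trans (max_le_max ?_ ?_)
    · refine natDegree_pow_le.trans ?_
      exact Nat.mul_le_mul_left _ (by omega)
    · refine (natDegree_add_le _ _).trans ?_
      simp
  refine ⟨fun j => g.coeff j, fun i => -q.coeff i, ?_⟩
  -- the identity in a field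
  have hfield : ∀ (F : Type) [Field F] [Algebra k F] (x y : F), x ≠ 0 →
      x ^ (e * (M - 1)) * (x + y) -
        x * (∑ j ∈ Finset.range M, algebraMap k F (g.coeff j) * y ^ j * x ^ (M - 1 - j)) ^ e =
      ∑ i ∈ Finset.range (e * (M - 1) + 2 - M),
        algebraMap k F (-q.coeff i) * y ^ (M + i) * x ^ (e * (M - 1) + 1 - (M + i)) := by
    intro F _ _ x y hx
    have e1 : ∑ j ∈ Finset.range M, algebraMap k F (g.coeff j) * y ^ j * x ^ (M - 1 - j) =
        x ^ (M - 1) * aeval (y / x) g := by
      rw [aeval_eq_sum_range' (by omega : g.natDegree < M), Finset.mul_sum]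
      refine Finset.sum_congr rfl fun j hj => ?_
      have hj' := Finset.mem_range.1 hj
      rw [Algebra.smul_def, div_pow]
      have h5 : x ^ (M - 1) = x ^ (M - 1 - j) * x ^ j := by
        rw [← pow_add]
        congr 1
        omega
      rw [h5]
      have := pow_ne_zero j hx
      field_simp
    have e2 : ∑ i ∈ Finset.range (e * (M - 1) + 2 - M),
        algebraMap k F (-q.coeff i) * y ^ (M + i) * x ^ (e * (M - 1) + 1 - (M + i)) =
        -(x ^ (e * (M - 1) + 1) * ((y / x) ^ M * aeval (y / x) q)) := by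
      by_cases hq0 : q = 0
      · rw [hq0]
        simp
      have hdeg : q.natDegree < e * (M - 1) + 2 - M := by
        have h6 := hq hq0
        rcases Nat.eq_zero_or_pos (M - 1) with h7 | h7
        · have : M = 1 := by omega
          subst this
          simp at h6 ⊢
          omega
        · have h8 : 1 ≤ e * (M - 1) := Nat.mul_pos he h7
          rw [max_eq_left h8] at h6
          omega
      rw [aeval_eq_sum_range' hdeg, Finset.mul_sum, Finset.mul_sum, ← Finset.sum_neg_distrib]
      refine Finset.sum_congr rfl fun i hi => ?_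
      have hi' := Finset.mem_range.1 hi
      rw [Algebra.smul_def, map_neg, div_pow, div_pow]
      have h5 : x ^ (e * (M - 1) + 1) = x ^ (e * (M - 1) + 1 - (M + i)) * (x ^ M * x ^ i) := by
        rw [← pow_add, ← pow_add]
        congr 1
        omega
      rw [h5, pow_add y M i]
      have h6 := pow_ne_zero M hx
      have h7 := pow_ne_zero i hx
      field_simp
    rw [e1, e2, mul_pow, ← pow_mul, mul_comm (M - 1) e]
    have h4 : aeval (y / x) g ^ e - (1 + y / x) = (y / x) ^ M * aeval (y / x) q := by
      have h5 := congrArg (aeval (y / x)) h3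
      rw [map_sub, map_pow, map_add, map_one, aeval_X, map_mul, map_pow, aeval_X] at h5
      exact h5
    rw [← h4, pow_succ]
    have h5 : x * (y / x) = y := mul_div_cancel₀ y hx
    linear_combination (-x ^ (e * (M - 1))) * h5
  intro R _ _ x y
  -- the identity for independent variables
  let P := MvPolynomial (Fin 2) k
  have hP := hfield (FractionRing P) (algebraMap P _ (MvPolynomial.X 0))
    (algebraMap P _ (MvPolynomial.X 1)) (by
      rw [Ne, FaithfulSMul.algebraMap_eq_zero_iff]
      exact MvPolynomial.X_ne_zero 0)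
  have hP' : (MvPolynomial.X 0 : P) ^ (e * (M - 1)) * (MvPolynomial.X 0 + MvPolynomial.X 1) -
        MvPolynomial.X 0 * (∑ j ∈ Finset.range M, algebraMap k P (g.coeff j) *
          MvPolynomial.X 1 ^ j * MvPolynomial.X 0 ^ (M - 1 - j)) ^ e =
      ∑ i ∈ Finset.range (e * (M - 1) + 2 - M),
        algebraMap k P (-q.coeff i) * MvPolynomial.X 1 ^ (M + i) *
          MvPolynomial.X 0 ^ (e * (M - 1) + 1 - (M + i)) := by
    apply FaithfulSMul.algebraMap_injective P (FractionRing P)
    simp only [map_sub, map_mul, map_pow, map_add, map_sum]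
    have h5 : ∀ c : k, algebraMap P (FractionRing P) (algebraMap k P c) =
        algebraMap k (FractionRing P) c := fun c =>
      (IsScalarTower.algebraMap_apply k P (FractionRing P) c).symm
    simp only [h5]
    exact hP
  have h6 := congrArg (MvPolynomial.aeval ![x, y] : P →ₐ[k] R) hP'
  have hc : ∀ c : k, (MvPolynomial.aeval ![x, y] : P →ₐ[k] R) (algebraMap k P c) =
      algebraMap k R c := fun c => AlgHom.commutes _ c
  simp only [map_sub, map_mul, map_pow, map_add, map_sum, MvPolynomial.aeval_X,
    hc, Matrix.cons_val_zero, Matrix.cons_val_one] at h6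
  exact h6

end Pool.Agent.H21bl.CC
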