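import Mathlib
import Pool.Agent.H21bl.TC.Def
import Pool.Agent.N754.LT.Dc

/-!
Laurent polynomials evaluated at units, sizes, leading terms.
-/

set_option autoImplicit false

open Finset Filter

namespace Pool.Agent.H21bl.CC

open Pool.Agent.N754.LT

section basic

variable {k R : Type} [Field k] [CommRing R] [Algebra k R] {r : ℕ}

theorem ev_single (s : Fin r → Rˣ) (b : Fin r → ℤ) (c : k) :
    ev s (AddMonoidAlgebra.single b c) = c • (mo s b : R) := by
  unfold ev
  rw [AddMonoidAlgebra.lift_single]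
  rfl

theorem sum_single (p : La k r) :
    p = ∑ b ∈ p.coeff.support, AddMonoidAlgebra.single b (p.coeff b) := by
  conv_lhs => rw [← AddMonoidAlgebra.sum_coeff_single p]
  rfl

theorem ev_apply (s : Fin r → Rˣ) (p : La k r) :
    ev s p = ∑ b ∈ p.coeff.support, p.coeff b • (mo s b : R) := by
  conv_lhs => rw [sum_single p]
  rw [map_sum]
  exact Finset.sum_congr rfl fun b _ => ev_single s b _

theorem dt_zero (L : Fin r → ℝ) : dt 0 L = 0 := by simp [dt]

theorem dt_add (b c : Fin r → ℤ) (L : Fin r → ℝ) : dt (b + c) L = dt b L + dt c L := by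
  unfold dt
  rw [← Finset.sum_add_distrib]
  refine Finset.sum_congr rfl fun j _ => ?_
  rw [Pi.add_apply]
  push_cast
  ring

theorem dt_neg (b : Fin r → ℤ) (L : Fin r → ℝ) : dt (-b) L = -dt b L := by
  have h := dt_add b (-b) L
  rw [add_neg_cancel, dt_zero] at h
  linarith

theorem dt_sub (b c : Fin r → ℤ) (L : Fin r → ℝ) : dt (b - c) L = dt b L - dt c L := by
  rw [sub_eq_add_neg, dt_add, dt_neg]
  ring

theorem dt_nsmul (m : ℕ) (b : Fin r → ℤ) (L : Fin r → ℝ) : dt (m • b) L = m * dt b L := by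
  unfold dt
  rw [Finset.mul_sum]
  refine Finset.sum_congr rfl fun j _ => ?_
  rw [Pi.smul_apply]
  push_cast [nsmul_eq_mul]
  ring

theorem dt_smul (b : Fin r → ℤ) (c : ℝ) (L : Fin r → ℝ) : dt b (c • L) = c * dt b L := by
  unfold dt
  rw [Finset.mul_sum]
  refine Finset.sum_congr rfl fun j _ => ?_
  rw [Pi.smul_apply, smul_eq_mul]
  ring

theorem dt_sum {ι : Type} (s : Finset ι) (b : ι → Fin r → ℤ) (L : Fin r → ℝ) :
    dt (∑ i ∈ s, b i) L = ∑ i ∈ s, dt (b i) L := by
  classical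
  induction s using Finset.induction_on with
  | empty => simp [dt_zero]
  | insert i s hi ih => rw [Finset.sum_insert hi, Finset.sum_insert hi, dt_add, ih]

theorem dt_cont (b : Fin r → ℤ) : Continuous (dt b) := by
  unfold dt
  fun_prop

theorem abs_dt_le (b : Fin r → ℤ) (L : Fin r → ℝ) : |dt b L| ≤ (∑ j, |(b j : ℝ)|) * ‖L‖ := by
  unfold dt
  refine (Finset.abs_sum_le_sum_abs _ _).trans ?_
  rw [Finset.sum_mul]
  refine Finset.sum_le_sum fun j _ => ?_
  rw [abs_mul]
  exact mul_le_mul_of_nonneg_left (norm_le_pi_norm L j) (abs_nonneg _)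

/-- a strict order of the exponents -/
def Lt (L : Fin r → ℝ) (b c : Fin r → ℤ) : Prop :=
  dt b L < dt c L ∨ (dt b L = dt c L ∧ toLex b < toLex c)

theorem Lt_irrefl (L : Fin r → ℝ) (b : Fin r → ℤ) : ¬ Lt L b b := by
  rintro (h | ⟨-, h⟩)
  · exact lt_irrefl _ h
  · exact lt_irrefl _ h

theorem Lt_trans {L : Fin r → ℝ} {b c d : Fin r → ℤ} (h1 : Lt L b c) (h2 : Lt L c d) :
    Lt L b d := by
  rcases h1 with h1 | ⟨h1, h1'⟩ <;> rcases h2 with h2 | ⟨h2, h2'⟩
  · exact Or.inl (h1.trans h2)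
  · exact Or.inl (h2 ▸ h1)
  · exact Or.inl (h1 ▸ h2)
  · exact Or.inr ⟨h1.trans h2, h1'.trans h2'⟩

theorem Lt_total (L : Fin r → ℝ) (b c : Fin r → ℤ) : Lt L b c ∨ b = c ∨ Lt L c b := by
  rcases lt_trichotomy (dt b L) (dt c L) with h | h | h
  · exact Or.inl (Or.inl h)
  · rcases lt_trichotomy (toLex b) (toLex c) with h' | h' | h'
    · exact Or.inl (Or.inr ⟨h, h'⟩)
    · exact Or.inr (Or.inl (toLex.injective h'))
    · exact Or.inr (Or.inr (Or.inr ⟨h.symm, h'⟩))
  · exact Or.inr (Or.inr (Or.inl h))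

theorem Lt_add {L : Fin r → ℝ} {b c : Fin r → ℤ} (h : Lt L b c) (d : Fin r → ℤ) :
    Lt L (b + d) (c + d) := by
  rcases h with h | ⟨h, h'⟩
  · left
    rw [dt_add, dt_add]
    linarith
  · right
    refine ⟨by rw [dt_add, dt_add, h], ?_⟩
    have h1 : toLex (b + d) = toLex b + toLex d := rfl
    have h2 : toLex (c + d) = toLex c + toLex d := rfl
    rw [h1, h2]
    exact add_lt_add_left h' _

theorem Lt.le {L : Fin r → ℝ} {b c : Fin r → ℤ} (h : Lt L b c) : dt b L ≤ dt c L := by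
  rcases h with h | ⟨h, -⟩
  · exact h.le
  · exact h.le

/-- a largest element of a finite set -/
theorem exists_top (L : Fin r → ℝ) (S : Finset (Fin r → ℤ)) (hS : S.Nonempty) :
    ∃ b ∈ S, ∀ c ∈ S, c ≠ b → Lt L c b := by
  classical
  induction hS using Finset.Nonempty.cons_induction with
  | singleton a => exact ⟨a, by simp, fun c hc h => absurd (Finset.mem_singleton.1 hc) h⟩
  | cons a s ha hs ih =>
    obtain ⟨b, hb, hb2⟩ := ih
    rcases Lt_total L a b with h | h | h
    · refine ⟨b, Finset.mem_cons_of_mem hb, fun c hc hcb => ?_⟩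
      rcases Finset.mem_cons.1 hc with rfl | hc
      · exact h
      · exact hb2 c hc hcb
    · exact absurd (h ▸ hb) ha
    · refine ⟨a, Finset.mem_cons_self _ _, fun c hc hca => ?_⟩
      rcases Finset.mem_cons.1 hc with rfl | hc
      · exact absurd rfl hca
      · by_cases hcb : c = b
        · rw [hcb]
          exact h
        · exact Lt_trans (hb2 c hc hcb) h

/-- `v` is the leading exponent of `f` -/
def Lead (L : Fin r → ℝ) (f : La k r) (v : Fin r → ℤ) : Prop :=
  f.coeff v ≠ 0 ∧ ∀ c ∈ f.coeff.support, c ≠ v → Lt L c v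

theorem Lead.mul {L : Fin r → ℝ} {f g : La k r} {v w : Fin r → ℤ} (hf : Lead L f v)
    (hg : Lead L g w) : Lead L (f * g) (v + w) := by
  classical
  have key : ∀ a ∈ f.coeff.support, ∀ b ∈ g.coeff.support, ¬ (a = v ∧ b = w) →
      Lt L (a + b) (v + w) := by
    intro a ha b hb hab
    by_cases h1 : a = v
    · have h2 : b ≠ w := fun h => hab ⟨h1, h⟩
      rw [h1, add_comm v b, add_comm v w]
      exact Lt_add (hg.2 b hb h2) v
    · have h3 := Lt_add (hf.2 a ha h1) b
      by_cases h2 : b = w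
      · rw [h2] at h3 ⊢
        exact h3
      · refine Lt_trans h3 ?_
        rw [add_comm v b, add_comm v w]
        exact Lt_add (hg.2 b hb h2) v
  refine ⟨?_, fun c hc hcv => ?_⟩
  · rw [AddMonoidAlgebra.coeff_mul_add_of_uniqueAdd]
    · exact mul_ne_zero hf.1 hg.1
    · intro a b ha hb hab
      by_contra hcon
      have h1 := key a ha b hb hcon
      rw [hab] at h1
      exact Lt_irrefl _ _ h1
  · have h1 := AddMonoidAlgebra.support_coeff_mul_subset f g hc
    obtain ⟨a, ha, b, hb, rfl⟩ := Finset.mem_add.1 h1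
    refine key a ha b hb fun h2 => hcv ?_
    rw [h2.1, h2.2]

theorem Lead.one (L : Fin r → ℝ) : Lead L (1 : La k r) 0 := by
  classical
  constructor
  · rw [AddMonoidAlgebra.one_def, AddMonoidAlgebra.coeff_single, Finsupp.single_eq_same]
    exact one_ne_zero
  · intro c hc hc0
    exfalso
    rw [AddMonoidAlgebra.one_def, AddMonoidAlgebra.coeff_single] at hc
    have h1 := Finsupp.support_single_subset hc
    exact hc0 (Finset.mem_singleton.1 h1)

theorem Lead.pow {L : Fin r → ℝ} {f : La k r} {v : Fin r → ℤ} (hf : Lead L f v) (m : ℕ) :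
    Lead L (f ^ m) (m • v) := by
  induction m with
  | zero =>
    rw [pow_zero, zero_smul]
    exact Lead.one L
  | succ m ih =>
    rw [pow_succ, succ_nsmul]
    exact ih.mul hf

theorem Lead.le {L : Fin r → ℝ} {f : La k r} {v : Fin r → ℤ} (hf : Lead L f v) :
    ∀ c ∈ f.coeff.support, dt c L ≤ dt v L := by
  intro c hc
  by_cases h : c = v
  · rw [h]
  · exact (hf.2 c hc h).le

theorem exists_lead (L : Fin r → ℝ) (f : La k r) (hf : f ≠ 0) : ∃ v, Lead L f v := by
  obtain ⟨b, hb, hb2⟩ := exists_top L f.coeff.support (by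
    rw [Finsupp.support_nonempty_iff]
    exact fun h => hf (AddMonoidAlgebra.coeff_eq_zero.1 h))
  exact ⟨b, Finsupp.mem_support_iff.1 hb, hb2⟩

end basic

section sizes

variable {k R : Type} [Field k] [CommRing R] [IsDomain R] [Algebra k R] (D : Dc k R) {r : ℕ}
  (s : Fin r → Rˣ)

/-- the logarithms of the units -/
noncomputable def LV (ω : D.Ω) : Fin r → ℝ := fun j => D.lg (s j : R) ω

theorem lg_mo (b : Fin r → ℤ) : ∀ᶠ ω in D.ev, D.lg (mo s b : R) ω = dt b (LV D s ω) := by
  have h1 : ∀ᶠ ω in D.ev, ∀ j ∈ (Finset.univ : Finset (Fin r)),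
      D.lg ((s j ^ b j : Rˣ) : R) ω = b j * D.lg (s j) ω :=
    (Filter.eventually_all_finset _).2 fun j _ => D.lg_zpow (s j) (b j)
  have h2 := D.lg_prod Finset.univ (fun j => ((s j ^ b j : Rˣ) : R)) fun j _ => Units.ne_zero _
  filter_upwards [h1, h2] with ω h3 h4
  unfold mo
  rw [Units.coe_prod, h4]
  unfold dt LV
  exact Finset.sum_congr rfl fun j hj => h3 j hj

theorem A_mo (b : Fin r → ℤ) : ∀ᶠ ω in D.ev, D.A (mo s b : R) ω = Real.exp (dt b (LV D s ω)) := by
  filter_upwards [lg_mo D s b, D.A_pos (mo s b : R) (Units.ne_zero _)] with ω h1 h2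
  rw [← h1]
  unfold Dc.lg
  rw [Real.exp_log h2]

theorem A_ev (p : La k r) : ∃ C : ℝ, 0 < C ∧ ∀ᶠ ω in D.ev, ∀ w : ℝ,
    (∀ b ∈ p.coeff.support, dt b (LV D s ω) ≤ w) → D.A (ev s p) ω ≤ C * Real.exp w := by
  classical
  choose C hC using fun b => D.A_const (p.coeff b)
  refine ⟨∑ b ∈ p.coeff.support, |C b| + 1, by positivity, ?_⟩
  have h1 : ∀ᶠ ω in D.ev, ∀ b ∈ p.coeff.support,
      D.A (p.coeff b • (mo s b : R)) ω ≤ |C b| * D.A (mo s b : R) ω := by
    refine (Filter.eventually_all_finset _).2 fun b _ => ?_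
    filter_upwards [hC b, D.A_mul (algebraMap k R (p.coeff b)) (mo s b : R),
      D.A_nonneg (mo s b : R)] with ω h1 h2 h3
    rw [Algebra.smul_def, h2]
    exact mul_le_mul_of_nonneg_right (h1.trans (le_abs_self _)) h3
  have h2 : ∀ᶠ ω in D.ev, ∀ b ∈ p.coeff.support,
      D.A (mo s b : R) ω = Real.exp (dt b (LV D s ω)) :=
    (Filter.eventually_all_finset _).2 fun b _ => A_mo D s b
  filter_upwards [h1, h2, D.A_sum p.coeff.support (fun b => p.coeff b • (mo s b : R))]
    with ω g1 g2 g3 w hw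
  rw [ev_apply]
  refine g3.trans ?_
  have h4 : ∑ b ∈ p.coeff.support, D.A (p.coeff b • (mo s b : R)) ω ≤
      ∑ b ∈ p.coeff.support, |C b| * Real.exp w := by
    refine Finset.sum_le_sum fun b hb => (g1 b hb).trans ?_
    rw [g2 b hb]
    exact mul_le_mul_of_nonneg_left (Real.exp_le_exp.2 (hw b hb)) (abs_nonneg _)
  refine h4.trans ?_
  rw [← Finset.sum_mul]
  have := Real.exp_pos w
  nlinarith

theorem neg_dt (b : Fin r → ℤ) : D.Neg fun ω => dt b (LV D s ω) := by
  refine D.neg_mono _ _ ?_ (D.unit_neg' (mo s b))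
  filter_upwards [lg_mo D s b] with ω h
  rw [h]

end sizes

end Pool.Agent.H21bl.CC
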