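import Mathlib
import Pool.Agent.H21bl.CC.Lau

/-!
Directions and faces: a compactness argument.
-/

set_option autoImplicit false

open Finset Filter Topology

namespace Pool.Agent.H21bl.CC

variable {r : ℕ}

/-- the exponents where the weight `θ` is maximal -/
noncomputable def face (T : Finset (Fin r → ℤ)) (θ : Fin r → ℝ) : Finset (Fin r → ℤ) := by
  classical
  exact T.filter fun b => ∀ c ∈ T, dt c θ ≤ dt b θ

theorem mem_face {T : Finset (Fin r → ℤ)} {θ : Fin r → ℝ} {b : Fin r → ℤ} :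
    b ∈ face T θ ↔ b ∈ T ∧ ∀ c ∈ T, dt c θ ≤ dt b θ := by
  classical
  unfold face
  rw [Finset.mem_filter]

theorem face_sub (T : Finset (Fin r → ℤ)) (θ : Fin r → ℝ) : face T θ ⊆ T :=
  fun _ h => (mem_face.1 h).1

theorem face_nonempty {T : Finset (Fin r → ℤ)} (hT : T.Nonempty) (θ : Fin r → ℝ) :
    (face T θ).Nonempty := by
  obtain ⟨b, hb, h⟩ := T.exists_max_image (fun b => dt b θ) hT
  exact ⟨b, mem_face.2 ⟨hb, h⟩⟩

theorem dir_lemma (T : Finset (Fin r → ℤ)) (hT : T.Nonempty) (μ : Fin r → ℝ) :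
    ∃ δ : ℝ, 0 < δ ∧ ∀ L : Fin r → ℝ, (∃ θ : Fin r → ℝ, θ ≠ 0 ∧ ∑ j, μ j * θ j ≤ 0 ∧
      ∃ b ∈ face T θ,
      (∀ c ∈ face T θ, c ≠ b → Lt L c b) ∧ (∀ c ∈ T, dt c L ≤ dt b L) ∧
      ∀ c ∈ T, c ∉ face T θ → dt c L + δ * ‖L‖ ≤ dt b L) ∨ δ * ‖L‖ ≤ ∑ j, μ j * L j := by
  classical
  have hμc : Continuous fun L : Fin r → ℝ => ∑ j, μ j * L j := by fun_prop
  have hsph : ∃ δ : ℝ, 0 < δ ∧ ∀ L ∈ Metric.sphere (0 : Fin r → ℝ) 1,
      (∃ θ : Fin r → ℝ, θ ≠ 0 ∧ ∑ j, μ j * θ j ≤ 0 ∧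
      ∃ b ∈ face T θ, ∀ c ∈ T, c ∉ face T θ → dt c L + δ ≤ dt b L) ∨ δ ≤ ∑ j, μ j * L j := by
    refine (isCompact_sphere (0 : Fin r → ℝ) 1).induction_on
      (p := fun s => ∃ δ : ℝ, 0 < δ ∧ ∀ L ∈ s, (∃ θ : Fin r → ℝ, θ ≠ 0 ∧ ∑ j, μ j * θ j ≤ 0 ∧
        ∃ b ∈ face T θ, ∀ c ∈ T, c ∉ face T θ → dt c L + δ ≤ dt b L) ∨
        δ ≤ ∑ j, μ j * L j) ?_ ?_ ?_ ?_
    · exact ⟨1, one_pos, fun L hL => absurd hL (Set.notMem_empty L)⟩
    · rintro s t hst ⟨δ, hδ, h⟩
      exact ⟨δ, hδ, fun L hL => h L (hst hL)⟩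
    · rintro s t ⟨δ1, hδ1, h1⟩ ⟨δ2, hδ2, h2⟩
      refine ⟨min δ1 δ2, lt_min hδ1 hδ2, fun L hL => ?_⟩
      have hm1 := min_le_left δ1 δ2
      have hm2 := min_le_right δ1 δ2
      rcases hL with hL | hL
      · rcases h1 L hL with ⟨θ, hθ, hμ, b, hb, h⟩ | h
        · refine Or.inl ⟨θ, hθ, hμ, b, hb, fun c hc hc' => ?_⟩
          have := h c hc hc'
          linarith
        · exact Or.inr (hm1.trans h)
      · rcases h2 L hL with ⟨θ, hθ, hμ, b, hb, h⟩ | h
        · refine Or.inl ⟨θ, hθ, hμ, b, hb, fun c hc hc' => ?_⟩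
          have := h c hc hc'
          linarith
        · exact Or.inr (hm2.trans h)
    · intro x hx
      have hx0 : x ≠ 0 := by
        rintro rfl
        rw [mem_sphere_zero_iff_norm, norm_zero] at hx
        exact zero_ne_one hx
      by_cases hμx : ∑ j, μ j * x j ≤ 0
      · obtain ⟨b, hb⟩ := face_nonempty hT x
        have hb' := mem_face.1 hb
        have h1 : ∀ c ∈ T, c ∉ face T x → dt c x < dt b x := by
          intro c hc hcf
          by_contra hcon
          push Not at hcon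
          exact hcf (mem_face.2 ⟨hc, fun d hd => (hb'.2 d hd).trans hcon⟩)
        have h2 : ∀ᶠ δ : ℝ in 𝓝[>] 0, ∀ c ∈ T, c ∉ face T x → dt c x + δ < dt b x := by
          refine (Filter.eventually_all_finset _).2 fun c hc => ?_
          by_cases hcf : c ∈ face T x
          · exact Eventually.of_forall fun δ h => absurd hcf h
          · have h3 : 0 < dt b x - dt c x := sub_pos.2 (h1 c hc hcf)
            filter_upwards [nhdsWithin_le_nhds (gt_mem_nhds h3)] with δ hδ _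
            linarith
        obtain ⟨δ, hδ, hδ0⟩ := (h2.and self_mem_nhdsWithin).exists
        refine ⟨{L | ∀ c ∈ T, c ∉ face T x → dt c L + δ ≤ dt b L}, ?_, δ, hδ0,
          fun L hL => Or.inl ⟨x, hx0, hμx, b, hb, hL⟩⟩
        refine nhdsWithin_le_nhds ?_
        have h4 : ∀ᶠ L in 𝓝 x, ∀ c ∈ T, c ∉ face T x → dt c L + δ ≤ dt b L := by
          refine (Filter.eventually_all_finset _).2 fun c hc => ?_
          by_cases hcf : c ∈ face T x
          · exact Eventually.of_forall fun δ h => absurd hcf h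
          · have h5 : Continuous fun L => dt c L + δ := (dt_cont c).add continuous_const
            have h6 := (h5.tendsto x).eventually_lt ((dt_cont b).tendsto x) (hδ c hc hcf)
            filter_upwards [h6] with L hL _
            exact hL.le
        exact h4
      · push Not at hμx
        refine ⟨{L | (∑ j, μ j * x j) / 2 ≤ ∑ j, μ j * L j}, nhdsWithin_le_nhds ?_,
          (∑ j, μ j * x j) / 2, by positivity, fun L hL => Or.inr hL⟩
        have h1 : (∑ j, μ j * x j) / 2 < ∑ j, μ j * x j := by linarith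
        filter_upwards [(hμc.tendsto x).eventually (lt_mem_nhds h1)] with L hL
        exact hL.le
  obtain ⟨δ, hδ, h⟩ := hsph
  -- homogeneity
  have hall : ∀ L : Fin r → ℝ, (∃ θ : Fin r → ℝ, θ ≠ 0 ∧ ∑ j, μ j * θ j ≤ 0 ∧ ∃ b ∈ face T θ,
      ∀ c ∈ T, c ∉ face T θ → dt c L + δ * ‖L‖ ≤ dt b L) ∨ δ * ‖L‖ ≤ ∑ j, μ j * L j := by
    intro L
    by_cases hL : L = 0
    · subst hL
      right
      simp
    · have hn : 0 < ‖L‖ := norm_pos_iff.2 hL
      rcases h (‖L‖⁻¹ • L) (by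
        rw [mem_sphere_zero_iff_norm, norm_smul, norm_inv, norm_norm, inv_mul_cancel₀ hn.ne']) with
        ⟨θ, hθ, hμ, b, hb, h1⟩ | h1
      · left
        refine ⟨θ, hθ, hμ, b, hb, fun c hc hcf => ?_⟩
        have h2 := h1 c hc hcf
        rw [dt_smul, dt_smul] at h2
        have h3 := mul_le_mul_of_nonneg_left h2 hn.le
        have h4 : ‖L‖ * (‖L‖⁻¹ * dt c L + δ) = dt c L + δ * ‖L‖ := by
          field_simp
        have h5 : ‖L‖ * (‖L‖⁻¹ * dt b L) = dt b L := by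
          field_simp
        rw [h4, h5] at h3
        exact h3
      · right
        have h2 : ∑ j, μ j * (‖L‖⁻¹ • L) j = ‖L‖⁻¹ * ∑ j, μ j * L j := by
          rw [Finset.mul_sum]
          refine Finset.sum_congr rfl fun j _ => ?_
          rw [Pi.smul_apply, smul_eq_mul]
          ring
        rw [h2] at h1
        have h3 := mul_le_mul_of_nonneg_left h1 hn.le
        rw [← mul_assoc, mul_inv_cancel₀ hn.ne', one_mul] at h3
        linarith
  refine ⟨δ, hδ, fun L => ?_⟩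
  rcases hall L with ⟨θ, hθ, hμ, b1, hb1, h1⟩ | h1
  · left
    obtain ⟨b, hb, hb2⟩ := exists_top L (face T θ) ⟨b1, hb1⟩
    have h2 : dt b1 L ≤ dt b L := by
      by_cases h3 : b1 = b
      · rw [h3]
      · exact (hb2 b1 hb1 h3).le
    refine ⟨θ, hθ, hμ, b, hb, hb2, fun c hc => ?_, fun c hc hcf => (h1 c hc hcf).trans h2⟩
    by_cases hcf : c ∈ face T θ
    · by_cases h3 : c = b
      · rw [h3]
      · exact (hb2 c hcf h3).le
    · have h3 := h1 c hc hcf
      have h4 : 0 ≤ δ * ‖L‖ := by positivity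
      linarith
  · exact Or.inr h1

end Pool.Agent.H21bl.CC
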