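import Mathlib
import Pool.Agent.H21bl.CC.Dir
import Pool.Agent.H21bl.CC.Bin

/-!
Size estimates and boxes of exponents.
-/

set_option autoImplicit false

open Finset Filter Topology

namespace Pool.Agent.H21bl.CC

open Pool.Agent.N754.LT

section boxes

variable {r : ℕ}

/-- boxes of exponents -/
noncomputable def box (a b : ℤ) : Finset (Fin r → ℤ) := Fintype.piFinset fun _ => Finset.Ico a b

theorem mem_box {a b : ℤ} {c : Fin r → ℤ} : c ∈ box a b ↔ ∀ j, a ≤ c j ∧ c j < b := by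
  unfold box
  rw [Fintype.mem_piFinset]
  simp only [Finset.mem_Ico]

theorem card_box (a b : ℤ) : (box a b : Finset (Fin r → ℤ)).card = (b - a).toNat ^ r := by
  unfold box
  rw [Fintype.card_piFinset]
  simp

/-- a bound for the exponents of finitely many Laurent polynomials -/
theorem exists_bound (s : Finset (Fin r → ℤ)) :
    ∃ K : ℕ, ∀ c ∈ s, ∀ j, |c j| ≤ (K : ℤ) := by
  refine ⟨∑ c ∈ s, ∑ j, (c j).natAbs, fun c hc j => ?_⟩
  have h1 : (c j).natAbs ≤ ∑ j, (c j).natAbs :=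
    Finset.single_le_sum (f := fun j => (c j).natAbs) (fun _ _ => Nat.zero_le _) (Finset.mem_univ j)
  have h2 : ∑ j, (c j).natAbs ≤ ∑ c ∈ s, ∑ j, (c j).natAbs :=
    Finset.single_le_sum (f := fun c : Fin r → ℤ => ∑ j, (c j).natAbs)
      (fun _ _ => Nat.zero_le _) hc
  have h3 : ((c j).natAbs : ℤ) ≤ ((∑ c ∈ s, ∑ j, (c j).natAbs : ℕ) : ℤ) := by
    exact_mod_cast h1.trans h2
  rwa [Int.natCast_natAbs] at h3

/-- large boxes are almost filled by slightly smaller ones -/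
theorem exists_size (K : ℕ) (r : ℕ) (C : ℝ) (hC : 0 < C) :
    ∃ n : ℕ, 1 ≤ n ∧ (((n + 2 * K : ℕ) : ℝ) ^ r - (n : ℝ) ^ r) * C ≤ (n : ℝ) ^ r := by
  have h1 : Tendsto (fun n : ℕ => ((1 : ℝ) + (2 * K : ℕ) / (n : ℝ)) ^ r) atTop
      (𝓝 ((1 + 0) ^ r)) :=
    (tendsto_const_nhds.add (tendsto_const_div_atTop_nhds_zero_nat _)).pow r
  rw [add_zero, one_pow] at h1
  have h2 : (1 : ℝ) < 1 + 1 / C := by
    have : 0 < 1 / C := by positivity
    linarith
  obtain ⟨n, h3, h4⟩ := ((h1.eventually (gt_mem_nhds h2)).and (eventually_ge_atTop 1)).exists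
  refine ⟨n, h4, ?_⟩
  have hn : (0 : ℝ) < n := by exact_mod_cast h4
  have h5 : (((n + 2 * K : ℕ) : ℝ)) ^ r = (n : ℝ) ^ r * ((1 : ℝ) + (2 * K : ℕ) / (n : ℝ)) ^ r := by
    rw [← mul_pow]
    congr 1
    push_cast
    field_simp
  rw [h5]
  have h6 : (0 : ℝ) < (n : ℝ) ^ r := by positivity
  have h7 : (n : ℝ) ^ r * ((1 : ℝ) + (2 * K : ℕ) / (n : ℝ)) ^ r ≤ (n : ℝ) ^ r * (1 + 1 / C) :=
    mul_le_mul_of_nonneg_left h3.le h6.le
  have h8 : (n : ℝ) ^ r * (1 + 1 / C) * C = (n : ℝ) ^ r * C + (n : ℝ) ^ r := by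
    field_simp
  nlinarith

/-- translated boxes -/
theorem card_filter_box {B B' : Finset (Fin r → ℤ)} (v : Fin r → ℤ)
    (h : ∀ β ∈ B', v + β ∈ B) [DecidablePred fun γ : Fin r → ℤ => γ - v ∈ B'] :
    (B.filter fun γ => γ - v ∈ B').card = B'.card := by
  classical
  refine Finset.card_bij (fun γ _ => γ - v) (fun γ hγ => (Finset.mem_filter.1 hγ).2)
    (fun γ _ γ' _ h' => ?_) (fun β hβ => ⟨v + β, ?_, by rw [add_sub_cancel_left]⟩)
  · exact sub_left_injective h'
  · rw [Finset.mem_filter]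
    exact ⟨h β hβ, by rw [add_sub_cancel_left]; exact hβ⟩

end boxes

section est

variable {k R : Type} [Field k] [CommRing R] [IsDomain R] [Algebra k R] (D : Dc k R) {r : ℕ}
  (s : Fin r → Rˣ)

/-- the size of a homogeneous expression in two Laurent polynomials, one of which is small -/
theorem bdZ (x w : La k r) (z : ℕ → k) (M d n : ℕ) (hn : ∀ i, i < n → M + i ≤ d) :
    ∃ C : ℝ, 0 < C ∧ ∀ᶠ ω in D.ev, ∀ m t : ℝ, 0 ≤ t →
      (∀ b ∈ x.coeff.support, dt b (LV D s ω) ≤ m) →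
      (∀ b ∈ w.coeff.support, dt b (LV D s ω) ≤ m - t) →
      D.A (ev s (∑ i ∈ Finset.range n, algebraMap k (La k r) (z i) * w ^ (M + i) *
        x ^ (d - (M + i)))) ω ≤ C * Real.exp (d * m - M * t) := by
  classical
  obtain ⟨Cx, hCx, hx⟩ := A_ev D s x
  obtain ⟨Cw, hCw, hw⟩ := A_ev D s w
  choose Cz hCz using fun i => D.A_const (z i)
  refine ⟨∑ i ∈ Finset.range n, |Cz i| * Cw ^ (M + i) * Cx ^ (d - (M + i)) + 1, by positivity, ?_⟩
  have h1 : ∀ᶠ ω in D.ev, ∀ i ∈ Finset.range n,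
      D.A (ev s (algebraMap k (La k r) (z i) * w ^ (M + i) * x ^ (d - (M + i)))) ω ≤
        |Cz i| * D.A (ev s w) ω ^ (M + i) * D.A (ev s x) ω ^ (d - (M + i)) := by
    refine (Filter.eventually_all_finset _).2 fun i _ => ?_
    filter_upwards [hCz i, D.A_mul (algebraMap k R (z i) * ev s w ^ (M + i)) (ev s x ^ (d - (M + i))),
      D.A_mul (algebraMap k R (z i)) (ev s w ^ (M + i)), D.A_pow (ev s w) (M + i),
      D.A_pow (ev s x) (d - (M + i)), D.A_nonneg (ev s w), D.A_nonneg (ev s x)]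
      with ω g1 g2 g3 g4 g5 g6 g7
    rw [map_mul, map_mul, map_pow, map_pow, AlgHom.commutes, g2, g3, g4, g5]
    have h2 : D.A (algebraMap k R (z i)) ω ≤ |Cz i| := g1.trans (le_abs_self _)
    refine mul_le_mul_of_nonneg_right ?_ (pow_nonneg g7 _)
    exact mul_le_mul_of_nonneg_right h2 (pow_nonneg g6 _)
  filter_upwards [h1, hx, hw, D.A_sum (Finset.range n) (fun i =>
    ev s (algebraMap k (La k r) (z i) * w ^ (M + i) * x ^ (d - (M + i)))),
    D.A_nonneg (ev s w), D.A_nonneg (ev s x)] with ω g1 g2 g3 g4 g5 g6 m t ht hm hmt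
  rw [map_sum]
  refine g4.trans ?_
  have h2 := g2 m hm
  have h3 := g3 (m - t) hmt
  have h4 : ∑ i ∈ Finset.range n, D.A (ev s (algebraMap k (La k r) (z i) * w ^ (M + i) *
      x ^ (d - (M + i)))) ω ≤
      ∑ i ∈ Finset.range n, |Cz i| * Cw ^ (M + i) * Cx ^ (d - (M + i)) *
        Real.exp (d * m - M * t) := by
    refine Finset.sum_le_sum fun i hi => (g1 i hi).trans ?_
    have hi' := hn i (Finset.mem_range.1 hi)
    have h5 : D.A (ev s w) ω ^ (M + i) ≤ (Cw * Real.exp (m - t)) ^ (M + i) :=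
      pow_le_pow_left₀ g5 h3 _
    have h6 : D.A (ev s x) ω ^ (d - (M + i)) ≤ (Cx * Real.exp m) ^ (d - (M + i)) :=
      pow_le_pow_left₀ g6 h2 _
    have h7 : |Cz i| * D.A (ev s w) ω ^ (M + i) * D.A (ev s x) ω ^ (d - (M + i)) ≤
        |Cz i| * (Cw * Real.exp (m - t)) ^ (M + i) * (Cx * Real.exp m) ^ (d - (M + i)) := by
      refine mul_le_mul ?_ h6 (pow_nonneg g6 _) (by positivity)
      exact mul_le_mul_of_nonneg_left h5 (abs_nonneg _)
    refine h7.trans ?_
    rw [mul_pow, mul_pow, ← Real.exp_nat_mul, ← Real.exp_nat_mul]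
    have h8 : |Cz i| * (Cw ^ (M + i) * Real.exp (((M + i : ℕ) : ℝ) * (m - t))) *
        (Cx ^ (d - (M + i)) * Real.exp (((d - (M + i) : ℕ) : ℝ) * m)) =
        |Cz i| * Cw ^ (M + i) * Cx ^ (d - (M + i)) *
          Real.exp (((M + i : ℕ) : ℝ) * (m - t) + ((d - (M + i) : ℕ) : ℝ) * m) := by
      rw [Real.exp_add]
      ring
    rw [h8]
    refine mul_le_mul_of_nonneg_left (Real.exp_le_exp.2 ?_) (by positivity)
    rw [Nat.cast_sub hi']
    push_cast
    have h9 : 0 ≤ (i : ℝ) * t := by positivity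
    nlinarith
  refine h4.trans ?_
  rw [← Finset.sum_mul]
  have := Real.exp_pos (d * m - M * t)
  nlinarith

end est

/-- the product formula for differences of powers, with roots of unity in the constants -/
theorem prod_roots {k R : Type} [Field k] [CommRing R] [IsDomain R] [Algebra k R] {e : ℕ}
    (he : 0 < e) {ξ : k} (hξ : IsPrimitiveRoot ξ e) (x y : R) :
    ∏ ζ ∈ Polynomial.nthRootsFinset e (1 : k), (x - algebraMap k R ζ * y) = x ^ e - y ^ e := by
  classical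
  have hinj : Function.Injective (algebraMap k R) := FaithfulSMul.algebraMap_injective k R
  have hξ' : IsPrimitiveRoot (algebraMap k R ξ) e := hξ.map_of_injective hinj
  rw [hξ'.pow_sub_pow_eq_prod_sub_mul x y he]
  have h1 : Polynomial.nthRootsFinset e (1 : R) =
      (Polynomial.nthRootsFinset e (1 : k)).image (algebraMap k R) := by
    symm
    refine Finset.eq_of_subset_of_card_le ?_ ?_
    · intro a ha
      obtain ⟨b, hb, rfl⟩ := Finset.mem_image.1 ha
      rw [Polynomial.mem_nthRootsFinset he] at hb ⊢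
      rw [← map_pow, hb, map_one]
    · rw [Finset.card_image_of_injective _ hinj, hξ.card_nthRootsFinset, hξ'.card_nthRootsFinset]
  rw [h1, Finset.prod_image fun a _ b _ h => hinj h]

end Pool.Agent.H21bl.CC
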