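import Mathlib
import Pool.Agent.H21bl.CC.Est

/-!
The bases for the subspace theorem.
-/

set_option autoImplicit false

open Finset Filter Topology Module

namespace Pool.Agent.H21bl.CC

open Pool.Agent.N754.LT

section alg

variable {k R : Type} [Field k] [CommRing R] [IsDomain R] [Algebra k R] {r : ℕ}
  (s : Fin r → Rˣ)

/-- the standard family -/
noncomputable def bas0 (y : R) (A B : Finset (Fin r → ℤ)) : A ⊕ B → R :=
  Sum.elim (fun α => (mo s α.1 : R)) (fun γ => y * (mo s γ.1 : R))

open Classical in
/-- the family adapted to an approximation -/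
noncomputable def bas (y : R) (A B B' : Finset (Fin r → ℤ)) (f h : La k r) (v : Fin r → ℤ) :
    A ⊕ B → R :=
  Sum.elim (fun α => (mo s α.1 : R))
    (fun γ => if γ.1 - v ∈ B' then (ev s f * y - ev s h) * (mo s (γ.1 - v) : R)
      else y * (mo s γ.1 : R))

theorem ev_inj {y : R} (hind : ∀ p q : La k r, ev s q * y = ev s p → q = 0) (p : La k r)
    (hp : ev s p = 0) : p = 0 := by
  refine hind 0 p ?_
  rw [hp, map_zero, zero_mul]

theorem indep0 {y : R} (hind : ∀ p q : La k r, ev s q * y = ev s p → q = 0)
    (A B : Finset (Fin r → ℤ)) : LinearIndependent k (bas0 s y A B) := by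
  classical
  rw [Fintype.linearIndependent_iff]
  intro g hg
  rw [Fintype.sum_sum_type] at hg
  simp only [bas0, Sum.elim_inl, Sum.elim_inr] at hg
  let p : La k r := ∑ α : A, AddMonoidAlgebra.single α.1 (g (Sum.inl α))
  let q : La k r := ∑ γ : B, AddMonoidAlgebra.single γ.1 (g (Sum.inr γ))
  have hp : ev s p = ∑ α : A, g (Sum.inl α) • (mo s α.1 : R) := by
    simp only [p, map_sum, ev_single]
  have hq : ev s q * y = ∑ γ : B, g (Sum.inr γ) • (y * (mo s γ.1 : R)) := by
    simp only [q, map_sum, ev_single, Finset.sum_mul]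
    refine Finset.sum_congr rfl fun γ _ => ?_
    rw [smul_mul_assoc, mul_comm y]
  have hq0 : q = 0 := by
    refine hind (-p) q ?_
    rw [map_neg, hq, hp]
    exact eq_neg_of_add_eq_zero_right hg
  have hp0 : p = 0 := by
    refine ev_inj s hind p ?_
    rw [hp]
    rw [← hq, hq0, map_zero, zero_mul, add_zero] at hg
    exact hg
  have hcoeff : ∀ (S : Finset (Fin r → ℤ)) (g : S → k) (i : S),
      (∑ α : S, AddMonoidAlgebra.single α.1 (g α) : La k r).coeff i.1 = g i := by
    intro S g i
    rw [AddMonoidAlgebra.coeff_sum, Finsupp.finset_sum_apply, Finset.sum_eq_single i]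
    · rw [AddMonoidAlgebra.coeff_single, Finsupp.single_eq_same]
    · intro b _ hb
      rw [AddMonoidAlgebra.coeff_single, Finsupp.single_apply, if_neg]
      exact fun h => hb (Subtype.ext h)
    · intro h
      exact absurd (Finset.mem_univ i) h
  rintro (i | i)
  · rw [← hcoeff A (fun α => g (Sum.inl α)) i]
    show p.coeff i.1 = 0
    rw [hp0]
    rfl
  · rw [← hcoeff B (fun α => g (Sum.inr α)) i]
    show q.coeff i.1 = 0
    rw [hq0]
    rfl

theorem ev_mo_mem (S : Finset (Fin r → ℤ)) (W : Submodule k R) (p : La k r) (y : R)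
    (β : Fin r → ℤ) (hS : ∀ c ∈ p.coeff.support, y * (mo s (c + β) : R) ∈ W) :
    ev s p * y * (mo s β : R) ∈ W := by
  rw [ev_apply, Finset.sum_mul, Finset.sum_mul]
  refine Submodule.sum_mem _ fun c hc => ?_
  have h1 : p.coeff c • (mo s c : R) * y * (mo s β : R) =
      p.coeff c • (y * (mo s (c + β) : R)) := by
    rw [mo_add, Units.val_mul, smul_mul_assoc, smul_mul_assoc]
    congr 1
    ring
  rw [h1]
  exact Submodule.smul_mem _ _ (hS c hc)

theorem span_le {y : R} {A B B' : Finset (Fin r → ℤ)} {f h : La k r} {v : Fin r → ℤ}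
    {L : Fin r → ℝ} (hlead : Lead L f v) (hf : ∀ β ∈ B', ∀ c ∈ f.coeff.support, c + β ∈ B)
    (hh : ∀ β ∈ B', ∀ c ∈ h.coeff.support, c + β ∈ A) :
    Submodule.span k (Set.range (bas0 s y A B)) ≤
      Submodule.span k (Set.range (bas s y A B B' f h v)) := by
  classical
  set W := Submodule.span k (Set.range (bas s y A B B' f h v)) with hW
  have hinl : ∀ α : A, (mo s α.1 : R) ∈ W := fun α =>
    Submodule.subset_span ⟨Sum.inl α, rfl⟩
  have hinr : ∀ γ : B, y * (mo s γ.1 : R) ∈ W := by
    have hwf : WellFounded (fun a b : B => Lt L a.1 b.1) := by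
      haveI : IsTrans B (fun a b : B => Lt L a.1 b.1) := ⟨fun _ _ _ h1 h2 => Lt_trans h1 h2⟩
      haveI : Std.Irrefl (fun a b : B => Lt L a.1 b.1) := ⟨fun a => Lt_irrefl L a.1⟩
      exact Finite.wellFounded_of_trans_of_irrefl _
    intro γ
    induction γ using hwf.induction with
    | _ γ ih =>
      have hmem : bas s y A B B' f h v (Sum.inr γ) ∈ W := Submodule.subset_span ⟨Sum.inr γ, rfl⟩
      by_cases hγ : γ.1 - v ∈ B'
      · have h0 : bas s y A B B' f h v (Sum.inr γ) =
            (ev s f * y - ev s h) * (mo s (γ.1 - v) : R) := by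
          simp only [bas, Sum.elim_inr, if_pos hγ]
        rw [h0] at hmem
        have h1 : ev s h * (mo s (γ.1 - v) : R) ∈ W := by
          have h2 := ev_mo_mem s A W h 1 (γ.1 - v) (fun c hc => by
            rw [one_mul]
            exact hinl ⟨c + (γ.1 - v), hh _ hγ c hc⟩)
          rwa [mul_one] at h2
        -- split off the leading term
        have h3 : ev s f * y * (mo s (γ.1 - v) : R) = f.coeff v • (y * (mo s γ.1 : R)) +
            ∑ c ∈ f.coeff.support.erase v,
              f.coeff c • (y * (mo s (c + (γ.1 - v)) : R)) := by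
          rw [ev_apply, Finset.sum_mul, Finset.sum_mul,
            ← Finset.add_sum_erase _ _ (Finsupp.mem_support_iff.2 hlead.1)]
          congr 1
          · have h4 : mo s γ.1 = mo s v * mo s (γ.1 - v) := by
              rw [← mo_add]
              congr 1
              abel
            rw [h4, Units.val_mul, smul_mul_assoc, smul_mul_assoc]
            congr 1
            ring
          · refine Finset.sum_congr rfl fun c _ => ?_
            rw [mo_add, Units.val_mul, smul_mul_assoc, smul_mul_assoc]
            congr 1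
            ring
        have h5 : ∑ c ∈ f.coeff.support.erase v,
              f.coeff c • (y * (mo s (c + (γ.1 - v)) : R)) ∈ W := by
          refine Submodule.sum_mem _ fun c hc => Submodule.smul_mem _ _ ?_
          have hc' := Finset.mem_erase.1 hc
          refine ih ⟨c + (γ.1 - v), hf _ hγ c hc'.2⟩ ?_
          have h6 := Lt_add (hlead.2 c hc'.2 hc'.1) (γ.1 - v)
          rw [add_sub_cancel] at h6
          exact h6
        have h6 : f.coeff v • (y * (mo s γ.1 : R)) ∈ W := by
          have h7 : f.coeff v • (y * (mo s γ.1 : R)) =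
              (ev s f * y - ev s h) * (mo s (γ.1 - v) : R) + ev s h * (mo s (γ.1 - v) : R) -
              ∑ c ∈ f.coeff.support.erase v,
              f.coeff c • (y * (mo s (c + (γ.1 - v)) : R)) := by
            rw [sub_mul, sub_add_cancel, h3, add_sub_cancel_right]
          rw [h7]
          exact Submodule.sub_mem _ (Submodule.add_mem _ hmem h1) h5
        have h8 := Submodule.smul_mem W (f.coeff v)⁻¹ h6
        rwa [smul_smul, inv_mul_cancel₀ hlead.1, one_smul] at h8
      · have h0 : bas s y A B B' f h v (Sum.inr γ) = y * (mo s γ.1 : R) := by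
          simp only [bas, Sum.elim_inr, if_neg hγ]
        rwa [h0] at hmem
  rw [Submodule.span_le]
  rintro _ ⟨i | i, rfl⟩
  · exact hinl i
  · exact hinr i

theorem span_eq {y : R} (hind : ∀ p q : La k r, ev s q * y = ev s p → q = 0)
    {A B B' : Finset (Fin r → ℤ)} {f h : La k r} {v : Fin r → ℤ}
    {L : Fin r → ℝ} (hlead : Lead L f v) (hf : ∀ β ∈ B', ∀ c ∈ f.coeff.support, c + β ∈ B)
    (hh : ∀ β ∈ B', ∀ c ∈ h.coeff.support, c + β ∈ A) :
    Submodule.span k (Set.range (bas0 s y A B)) =
      Submodule.span k (Set.range (bas s y A B B' f h v)) ∧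
      LinearIndependent k (bas s y A B B' f h v) := by
  classical
  have h1 := span_le s (y := y) hlead hf hh
  have h2 := indep0 s hind A B
  have h3 := linearIndependent_iff_card_eq_finrank_span.1 h2
  have h4 : (Set.range (bas s y A B B' f h v)).finrank k ≤ Fintype.card (A ⊕ B) :=
    finrank_range_le_card _
  haveI : Module.Finite k (Submodule.span k (Set.range (bas s y A B B' f h v))) :=
    FiniteDimensional.span_of_finite k (Set.finite_range _)
  have h5 : Submodule.span k (Set.range (bas0 s y A B)) =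
      Submodule.span k (Set.range (bas s y A B B' f h v)) := by
    refine Submodule.eq_of_le_of_finrank_le h1 ?_
    unfold Set.finrank at h3 h4
    omega
  refine ⟨h5, ?_⟩
  rw [linearIndependent_iff_card_eq_finrank_span, h3]
  unfold Set.finrank
  rw [h5]

end alg

section smt

variable {k R : Type} [Field k] [CommRing R] [IsDomain R] [Algebra k R] (D : Dc k R) {r : ℕ}
  (s : Fin r → Rˣ)

theorem smt_bas {y : R} (hind : ∀ p q : La k r, ev s q * y = ev s p → q = 0)
    {κ : Type} [Finite κ] (A B B' : Finset (Fin r → ℤ)) (f h : κ → La k r)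
    (v : κ → Fin r → ℤ) (hlead : ∀ c, ∃ L : Fin r → ℝ, Lead L (f c) (v c))
    (hf : ∀ c, ∀ β ∈ B', ∀ b ∈ (f c).coeff.support, b + β ∈ B)
    (hh : ∀ c, ∀ β ∈ B', ∀ b ∈ (h c).coeff.support, b + β ∈ A) (sel : D.Ω → κ) :
    D.Neg fun ω => -∑ i, D.lg (bas s y A B B' (f (sel ω)) (h (sel ω)) (v (sel ω)) i) ω := by
  classical
  let E := Fintype.equivFin (A ⊕ B)
  have h1 := D.smt (Fintype.card (A ⊕ B)) κ
    (fun c i => bas s y A B B' (f c) (h c) (v c) (E.symm i)) (fun c => by
      obtain ⟨L, hL⟩ := hlead c
      exact (span_eq s hind hL (hf c) (hh c)).2.comp _ E.symm.injective) (fun c c' => by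
      obtain ⟨L, hL⟩ := hlead c
      obtain ⟨L', hL'⟩ := hlead c'
      have e1 : ∀ c, Set.range (fun i => bas s y A B B' (f c) (h c) (v c) (E.symm i)) =
          Set.range (bas s y A B B' (f c) (h c) (v c)) := fun c =>
        E.symm.surjective.range_comp (bas s y A B B' (f c) (h c) (v c))
      rw [e1, e1, ← (span_eq s hind hL (hf c) (hh c)).1, ← (span_eq s hind hL' (hf c') (hh c')).1])
    sel
  refine D.neg_mono _ _ (Eventually.of_forall fun ω => ?_) h1
  rw [neg_le_neg_iff]
  refine le_of_eq ?_
  exact (E.symm.sum_comp fun i => D.lg (bas s y A B B' (f (sel ω)) (h (sel ω)) (v (sel ω)) i) ω)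

end smt

end Pool.Agent.H21bl.CC
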