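import Mathlib
import Pool.Agent.H21bl.CC.Bas

/-!
The key estimate: a root of a Laurent polynomial in units, all of whose faces are powers.
-/

set_option autoImplicit false

open Finset Filter Topology Module

namespace Pool.Agent.H21bl.CC

open Pool.Agent.N754.LT

section restr

variable {k : Type} [Field k] {r : ℕ}

/-- the part of a Laurent polynomial supported in a set -/
noncomputable def restr (F : La k r) (S : Finset (Fin r → ℤ)) : La k r :=
  ∑ b ∈ S, AddMonoidAlgebra.single b (F.coeff b)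

open Classical in
theorem coeff_restr (F : La k r) (S : Finset (Fin r → ℤ)) (b : Fin r → ℤ) :
    (restr F S).coeff b = if b ∈ S then F.coeff b else 0 := by
  unfold restr
  rw [AddMonoidAlgebra.coeff_sum, Finsupp.finsetSum_apply]
  simp only [AddMonoidAlgebra.coeff_single, Finsupp.single_apply]
  rw [Finset.sum_ite_eq']

theorem supp_restr (F : La k r) (S : Finset (Fin r → ℤ)) {b : Fin r → ℤ}
    (hb : b ∈ (restr F S).coeff.support) : b ∈ S ∧ F.coeff b ≠ 0 := by
  classical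
  rw [Finsupp.mem_support_iff, coeff_restr] at hb
  by_cases h : b ∈ S
  · rw [if_pos h] at hb
    exact ⟨h, hb⟩
  · rw [if_neg h] at hb
    exact absurd rfl hb

theorem supp_sub_restr (F : La k r) (S : Finset (Fin r → ℤ)) {b : Fin r → ℤ}
    (hb : b ∈ (F - restr F S).coeff.support) : b ∉ S ∧ F.coeff b ≠ 0 := by
  classical
  rw [Finsupp.mem_support_iff, AddMonoidAlgebra.coeff_sub, Finsupp.sub_apply, coeff_restr] at hb
  by_cases h : b ∈ S
  · rw [if_pos h, sub_self] at hb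
    exact absurd rfl hb
  · rw [if_neg h, sub_zero] at hb
    exact ⟨h, hb⟩

end restr

section key

variable {k R : Type} [Field k] [CharZero k] [CommRing R] [IsDomain R] [Algebra k R]
  (D : Dc k R) {r : ℕ} (s : Fin r → Rˣ)

omit [CharZero k] in
theorem neg_lin (μ : Fin r → ℝ) : D.Neg fun ω => ∑ j, μ j * LV D s ω j := by
  refine D.neg_sum Finset.univ (fun j ω => μ j * LV D s ω j) fun j _ => ?_
  rcases le_total 0 (μ j) with h | h
  · exact D.neg_smul _ _ h (D.unit_neg' (s j))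
  · refine D.neg_mono _ _ (Eventually.of_forall fun ω => ?_)
      (D.neg_smul _ (-μ j) (by linarith) (D.unit_neg_inv (s j)))
    show μ j * D.lg (s j : R) ω ≤ -μ j * -D.lg (s j : R) ω
    linarith

theorem key (F : La k r) (y : R) (e : ℕ) (he : 0 < e) (hy : y ^ e = ev s F)
    {ξ : k} (hξ : IsPrimitiveRoot ξ e) (μ : Fin r → ℝ)
    (hface : ∀ θ : Fin r → ℝ, θ ≠ 0 → ∑ j, μ j * θ j ≤ 0 →
      ∃ P : La k r, P ^ e = restr F (face F.coeff.support θ))
    (hind : ∀ p q : La k r, ev s q * y = ev s p → q = 0) :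
    D.Neg fun ω => ‖LV D s ω‖ := by
  classical
  have hy0 : y ≠ 0 := by
    intro h
    have h1 := hind 0 1 (by rw [h, mul_zero, map_zero])
    exact one_ne_zero h1
  have hF0 : F ≠ 0 := by
    rintro rfl
    rw [map_zero] at hy
    exact pow_ne_zero e hy0 hy
  set T := F.coeff.support with hT
  have hTne : T.Nonempty := by
    rw [hT, Finsupp.support_nonempty_iff]
    exact fun h => hF0 (AddMonoidAlgebra.coeff_eq_zero.1 h)
  obtain ⟨δ, hδ, hdir⟩ := dir_lemma T hTne μ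
  -- the constants
  let C0 : ℝ := ∑ b ∈ T, ∑ j, |(b j : ℝ)| + 1
  have hC0 : 0 < C0 := by positivity
  have hC0' : ∀ b ∈ T, ∀ L : Fin r → ℝ, dt b L ≤ C0 * ‖L‖ := by
    intro b hb L
    refine (le_abs_self _).trans ((abs_dt_le b L).trans ?_)
    refine mul_le_mul_of_nonneg_right ?_ (norm_nonneg _)
    have h1 : ∑ j, |(b j : ℝ)| ≤ ∑ b ∈ T, ∑ j, |(b j : ℝ)| :=
      Finset.single_le_sum (f := fun b : Fin r → ℤ => ∑ j, |(b j : ℝ)|)
        (fun b _ => Finset.sum_nonneg fun j _ => abs_nonneg _) hb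
    linarith
  let Cm : ℝ := ∑ j, |μ j|
  have hCm : 0 ≤ Cm := Finset.sum_nonneg fun _ _ => abs_nonneg _
  have hCm' : ∀ L : Fin r → ℝ, -(Cm * ‖L‖) ≤ ∑ j, μ j * L j := by
    intro L
    have h1 : |∑ j, μ j * L j| ≤ Cm * ‖L‖ := by
      refine (Finset.abs_sum_le_sum_abs _ _).trans ?_
      rw [Finset.sum_mul]
      refine Finset.sum_le_sum fun j _ => ?_
      rw [abs_mul]
      exact mul_le_mul_of_nonneg_left (norm_le_pi_norm L j) (abs_nonneg _)
    exact (abs_le.1 h1).1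
  let lam : ℝ := (C0 + 1) / δ
  have hlam : 0 ≤ lam := by positivity
  have hlam' : lam * δ = C0 + 1 := div_mul_cancel₀ _ hδ.ne'
  obtain ⟨M, hM⟩ : ∃ M : ℕ, 1 ≤ M ∧ C0 + 1 + lam * Cm ≤ M * δ := by
    obtain ⟨M, hM⟩ := exists_nat_ge ((C0 + 1 + lam * Cm) / δ)
    refine ⟨M + 1, by omega, ?_⟩
    rw [div_le_iff₀ hδ] at hM
    push_cast
    nlinarith
  obtain ⟨g, z, hgz⟩ := exists_hom (k := k) e he M hM.1
  -- the roots of the faces
  have hP : ∀ S : Finset (Fin r → ℤ), ∃ P : La k r,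
      (∃ θ : Fin r → ℝ, θ ≠ 0 ∧ ∑ j, μ j * θ j ≤ 0 ∧ S = face T θ) → P ^ e = restr F S := by
    intro S
    by_cases h : ∃ θ : Fin r → ℝ, θ ≠ 0 ∧ ∑ j, μ j * θ j ≤ 0 ∧ S = face T θ
    · obtain ⟨θ, hθ, hμ, rfl⟩ := h
      obtain ⟨P, hP⟩ := hface θ hθ hμ
      exact ⟨P, fun _ => hP⟩
    · exact ⟨0, fun h' => absurd h' h⟩
  choose P hP using hP
  let G : Finset (Fin r → ℤ) → La k r := fun S =>
    ∑ j ∈ Finset.range M, algebraMap k (La k r) (g j) * (F - restr F S) ^ j *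
      (restr F S) ^ (M - 1 - j)
  let Z : Finset (Fin r → ℤ) → La k r := fun S =>
    ∑ i ∈ Finset.range (e * (M - 1) + 2 - M), algebraMap k (La k r) (z i) *
      (F - restr F S) ^ (M + i) * (restr F S) ^ (e * (M - 1) + 1 - (M + i))
  let gg : Finset (Fin r → ℤ) → k → R := fun S ζ =>
    ev s ((restr F S) ^ (M - 1)) * y - ev s (algebraMap k (La k r) ζ * (P S * G S))
  -- the product formula
  have hprod : ∀ S : Finset (Fin r → ℤ),
      (∃ θ : Fin r → ℝ, θ ≠ 0 ∧ ∑ j, μ j * θ j ≤ 0 ∧ S = face T θ) →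
      ∏ ζ ∈ Polynomial.nthRootsFinset e (1 : k), gg S ζ = ev s (Z S) := by
    intro S hS
    have h1 : ∀ ζ, gg S ζ = ev s ((restr F S) ^ (M - 1)) * y -
        algebraMap k R ζ * ev s (P S * G S) := by
      intro ζ
      simp only [gg]
      rw [map_mul (ev s) (algebraMap k (La k r) ζ), AlgHom.commutes]
    simp only [h1]
    rw [prod_roots he hξ, mul_pow, ← map_pow, ← map_pow, hy, ← map_mul, ← map_sub]
    congr 1
    have h2 := hgz (La k r) (restr F S) (F - restr F S)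
    simp only [Z]
    rw [← h2, ← pow_mul, mul_comm (M - 1) e, mul_pow, hP S hS, add_sub_cancel]
  -- the index set
  let κs : Finset (Finset (Fin r → ℤ) × k × (Fin r → ℤ)) :=
    (T.powerset ×ˢ (Polynomial.nthRootsFinset e (1 : k) ×ˢ T)).filter fun c =>
      (∃ θ : Fin r → ℝ, θ ≠ 0 ∧ ∑ j, μ j * θ j ≤ 0 ∧ c.1 = face T θ) ∧
      ∃ L : Fin r → ℝ, c.2.2 ∈ c.1 ∧ ∀ b ∈ c.1, b ≠ c.2.2 → Lt L b c.2.2
  let f : Option κs → La k r := fun o => o.elim 1 fun c => (restr F c.1.1) ^ (M - 1)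
  let h : Option κs → La k r := fun o =>
    o.elim 0 fun c => algebraMap k (La k r) c.1.2.1 * (P c.1.1 * G c.1.1)
  let v : Option κs → Fin r → ℤ := fun o => o.elim 0 fun c => (M - 1) • c.1.2.2
  let g' : Option κs → R := fun o => o.elim y fun c => gg c.1.1 c.1.2.1
  have hg' : ∀ o, ev s (f o) * y - ev s (h o) = g' o := by
    rintro (_ | c)
    · show ev s (1 : La k r) * y - ev s 0 = y
      rw [map_one, one_mul, map_zero, sub_zero]
    · rfl
  have hκ : ∀ c : κs, (c.1.1 ⊆ T ∧ c.1.2.1 ∈ Polynomial.nthRootsFinset e (1 : k) ∧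
      c.1.2.2 ∈ T) ∧ (∃ θ : Fin r → ℝ, θ ≠ 0 ∧ ∑ j, μ j * θ j ≤ 0 ∧ c.1.1 = face T θ) ∧
      ∃ L : Fin r → ℝ, c.1.2.2 ∈ c.1.1 ∧ ∀ b ∈ c.1.1, b ≠ c.1.2.2 → Lt L b c.1.2.2 := by
    intro c
    have h1 := Finset.mem_filter.1 c.2
    have h2 := Finset.mem_product.1 h1.1
    have h3 := Finset.mem_product.1 h2.2
    exact ⟨⟨Finset.mem_powerset.1 h2.1, h3.1, h3.2⟩, h1.2⟩
  have hlead : ∀ c : Option κs, ∃ L : Fin r → ℝ, Lead L (f c) (v c) := by
    rintro (_ | c)
    · exact ⟨0, Lead.one 0⟩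
    · obtain ⟨⟨h1, -, h2⟩, -, L, h3, h4⟩ := hκ c
      refine ⟨L, Lead.pow (v := c.1.2.2) ⟨?_, ?_⟩ (M - 1)⟩
      · rw [coeff_restr, if_pos h3]
        exact Finsupp.mem_support_iff.1 h2
      · intro b hb hbc
        exact h4 b (supp_restr F _ hb).1 hbc
  -- the boxes
  obtain ⟨K, hK⟩ := exists_bound (Finset.univ.biUnion fun c : Option κs => (f c).coeff.support)
  obtain ⟨K2, hK2⟩ := exists_bound (Finset.univ.biUnion fun c : Option κs => (h c).coeff.support)
  obtain ⟨n, hn1, hn⟩ := exists_size K r (2 * C0) (by positivity)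
  let B' : Finset (Fin r → ℤ) := box K (n + K)
  let B : Finset (Fin r → ℤ) := box 0 (n + 2 * K)
  let A : Finset (Fin r → ℤ) := box (K - K2) (n + K + K2)
  have hf : ∀ c, ∀ β ∈ B', ∀ b ∈ (f c).coeff.support, b + β ∈ B := by
    intro c β hβ b hb
    have h1 := hK b (Finset.mem_biUnion.2 ⟨c, Finset.mem_univ _, hb⟩)
    rw [mem_box] at hβ ⊢
    intro j
    have h2 := hβ j
    have h3 := abs_le.1 (h1 j)
    rw [Pi.add_apply]
    omega
  have hh : ∀ c, ∀ β ∈ B', ∀ b ∈ (h c).coeff.support, b + β ∈ A := by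
    intro c β hβ b hb
    have h1 := hK2 b (Finset.mem_biUnion.2 ⟨c, Finset.mem_univ _, hb⟩)
    rw [mem_box] at hβ ⊢
    intro j
    have h2 := hβ j
    have h3 := abs_le.1 (h1 j)
    rw [Pi.add_apply]
    omega
  have hvB : ∀ c, ∀ β ∈ B', v c + β ∈ B := by
    intro c β hβ
    obtain ⟨L, hL⟩ := hlead c
    exact hf c β hβ (v c) (Finsupp.mem_support_iff.2 hL.1)
  -- the selection
  have hsel : ∀ ω : D.Ω, ∃ o : Option κs, (∃ c : κs, o = some c ∧
      (∀ b ∈ T, dt b (LV D s ω) ≤ dt c.1.2.2 (LV D s ω)) ∧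
      (∀ b ∈ T, b ∉ c.1.1 → dt b (LV D s ω) + δ * ‖LV D s ω‖ ≤ dt c.1.2.2 (LV D s ω)) ∧
      ∀ ζ ∈ Polynomial.nthRootsFinset e (1 : k),
        D.A (gg c.1.1 c.1.2.1) ω ≤ D.A (gg c.1.1 ζ) ω) ∨
      (o = none ∧ δ * ‖LV D s ω‖ ≤ ∑ j, μ j * LV D s ω j) := by
    intro ω
    rcases hdir (LV D s ω) with ⟨θ, hθ, hμ, b, hb, h1, h2, h3⟩ | h1
    · obtain ⟨ζ, hζ, h4⟩ := (Polynomial.nthRootsFinset e (1 : k)).exists_min_image
        (fun ζ => D.A (gg (face T θ) ζ) ω)
        ⟨1, (Polynomial.mem_nthRootsFinset he _).2 (one_pow e)⟩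
      refine ⟨some ⟨(face T θ, ζ, b), ?_⟩, Or.inl ⟨_, rfl, h2, h3, h4⟩⟩
      refine Finset.mem_filter.2 ⟨Finset.mem_product.2 ⟨Finset.mem_powerset.2 (face_sub T θ),
        Finset.mem_product.2 ⟨hζ, face_sub T θ hb⟩⟩, ⟨θ, hθ, hμ, rfl⟩, LV D s ω, hb, h1⟩
    · exact ⟨none, Or.inr ⟨rfl, h1⟩⟩
  choose sel hsel using hsel
  have hsmt := smt_bas D s hind A B B' f h v hlead hf hh sel
  -- nonvanishing
  have hg0 : ∀ c : Option κs, g' c ≠ 0 := by
    intro c h0
    rw [← hg'] at h0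
    have h1 := hind _ _ (sub_eq_zero.1 h0)
    obtain ⟨L, hL⟩ := hlead c
    refine hL.1 ?_
    rw [h1]
    rfl
  -- the estimate for the approximations
  have hn' : ∀ i, i < e * (M - 1) + 2 - M → M + i ≤ e * (M - 1) + 1 := by
    intro i hi
    omega
  choose CZ hCZ0 hCZ using fun S => bdZ D s (restr F S) (F - restr F S) z M (e * (M - 1) + 1)
    (e * (M - 1) + 2 - M) hn'
  let CC : ℝ := ∑ S ∈ T.powerset, CZ S
  have hCC : ∀ S ∈ T.powerset, CZ S ≤ CC := fun S hS =>
    Finset.single_le_sum (f := CZ) (fun S _ => (hCZ0 S).le) hS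
  have hCC0 : 0 < CC := lt_of_lt_of_le (hCZ0 ∅) (hCC ∅ (Finset.empty_mem_powerset T))
  obtain ⟨CF, hCF0, hCF⟩ := A_ev D s F
  have ev1 : ∀ᶠ ω in D.ev, ∀ c ∈ (Finset.univ : Finset κs),
      (∏ ζ ∈ Polynomial.nthRootsFinset e (1 : k), D.A (gg c.1.1 ζ) ω = D.A (ev s (Z c.1.1)) ω ∧
      (∀ ζ ∈ Polynomial.nthRootsFinset e (1 : k), 0 ≤ D.A (gg c.1.1 ζ) ω) ∧
      0 < D.A (gg c.1.1 c.1.2.1) ω ∧
      ∀ m t : ℝ, 0 ≤ t →
      (∀ b ∈ (restr F c.1.1).coeff.support, dt b (LV D s ω) ≤ m) →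
      (∀ b ∈ (F - restr F c.1.1).coeff.support, dt b (LV D s ω) ≤ m - t) →
      D.A (ev s (Z c.1.1)) ω ≤ CZ c.1.1 * Real.exp ((e * (M - 1) + 1 : ℕ) * m - M * t)) := by
    refine (Filter.eventually_all_finset _).2 fun c _ => ?_
    filter_upwards [hCZ c.1.1, D.A_prod (Polynomial.nthRootsFinset e (1 : k)) (gg c.1.1),
      (Filter.eventually_all_finset (Polynomial.nthRootsFinset e (1 : k))).2
        (fun ζ _ => D.A_nonneg (gg c.1.1 ζ)), D.A_pos _ (hg0 (some c))] with ω h1 h2 h3 h4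
    refine ⟨?_, h3, h4, h1⟩
    rw [← h2, hprod c.1.1 (hκ c).2.1]
  have ev2 : ∀ᶠ ω in D.ev, ∀ c ∈ (Finset.univ : Finset (Option κs)),
      ∀ i ∈ (Finset.univ : Finset (A ⊕ B)),
      D.lg (bas s y A B B' (f c) (h c) (v c) i) ω =
        Sum.elim (fun α => dt α.1 (LV D s ω))
          (fun γ => dt γ.1 (LV D s ω) + if γ.1 - v c ∈ B' then
            D.lg (g' c) ω - dt (v c) (LV D s ω) else D.lg y ω) i := by
    refine (Filter.eventually_all_finset _).2 fun c _ => ?_
    refine (Filter.eventually_all_finset _).2 fun i _ => ?_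
    rcases i with α | γ
    · simp only [bas, Sum.elim_inl]
      exact lg_mo D s α.1
    · simp only [bas, Sum.elim_inr]
      by_cases hγ : γ.1 - v c ∈ B'
      · simp only [if_pos hγ]
        filter_upwards [D.lg_mul (g' c) (mo s (γ.1 - v c) : R) (hg0 c)
          (Units.ne_zero _), lg_mo D s (γ.1 - v c)] with ω h1 h2
        rw [hg', h1, h2, dt_sub]
        ring
      · simp only [if_neg hγ]
        filter_upwards [D.lg_mul y (mo s γ.1 : R) hy0 (Units.ne_zero _), lg_mo D s γ.1]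
          with ω h1 h2
        rw [h1, h2]
        ring
  -- cardinalities
  have hcB' : (B'.card : ℝ) = (n : ℝ) ^ r := by
    simp only [B']
    rw [card_box]
    have : ((n : ℤ) + K - K).toNat = n := by omega
    rw [this]
    push_cast
    rfl
  have hcB : (B.card : ℝ) = ((n + 2 * K : ℕ) : ℝ) ^ r := by
    simp only [B]
    rw [card_box]
    have : ((n : ℤ) + 2 * K - 0).toNat = n + 2 * K := by omega
    rw [this]
    push_cast
    rfl
  have hcard : ∀ c : Option κs, (B.filter fun γ => γ - v c ∈ B').card = B'.card := fun c =>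
    card_filter_box (v c) (hvB c)
  have hsum : ∀ (c : Option κs) (a b : ℝ), ∑ γ : B, (if γ.1 - v c ∈ B' then a else b) =
      B'.card * a + ((B.card : ℝ) - B'.card) * b := by
    intro c a b
    rw [Finset.sum_coe_sort B (fun γ => if γ - v c ∈ B' then a else b), Finset.sum_ite,
      Finset.sum_const, Finset.sum_const, hcard c, nsmul_eq_mul, nsmul_eq_mul]
    congr 2
    have h1 := Finset.card_filter_add_card_filter_not (s := B) (fun γ => γ - v c ∈ B')
    rw [hcard c] at h1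
    rw [← h1]
    push_cast
    ring
  have hBB' : 0 ≤ (B.card : ℝ) - B'.card := by
    rw [sub_nonneg, hcB, hcB']
    refine pow_le_pow_left₀ (by positivity) ?_ r
    push_cast
    have : (0 : ℝ) ≤ K := by positivity
    linarith
  have hBB'' : ((B.card : ℝ) - B'.card) * (2 * C0) ≤ B'.card := by
    rw [hcB, hcB']
    exact hn
  have hB1 : (1 : ℝ) ≤ B'.card := by
    rw [hcB']
    exact one_le_pow₀ (by exact_mod_cast hn1)
  have he' : (0 : ℝ) < e := by exact_mod_cast he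
  have hcardr : (Polynomial.nthRootsFinset e (1 : k)).card = e := hξ.card_nthRootsFinset
  -- the final estimate
  let cst : ℝ := B'.card * (|Real.log CC| + |Real.log CF|) +
    ((B.card : ℝ) - B'.card) * |Real.log CF|
  have hfin : ∀ᶠ ω in D.ev, ‖LV D s ω‖ ≤ (2 * e) *
      ((-∑ i, D.lg (bas s y A B B' (f (sel ω)) (h (sel ω)) (v (sel ω)) i) ω) +
      (dt (∑ α ∈ A, α) (LV D s ω) + dt (∑ γ ∈ B, γ) (LV D s ω))) +
      (2 * B'.card * lam * (∑ j, μ j * LV D s ω j) + 2 * cst) := by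
    filter_upwards [ev1, ev2, hCF, D.lg_pow y e, D.A_pos y hy0,
      D.A_pos (ev s F) (hy ▸ pow_ne_zero e hy0)] with ω h1 h2 h3 h4 h5 h6
    have hselω := hsel ω
    set L := LV D s ω with hL
    set o := sel ω with ho
    have hLn : 0 ≤ ‖L‖ := norm_nonneg _
    -- the sum
    have e1 : ∑ i, D.lg (bas s y A B B' (f o) (h o) (v o) i) ω =
        dt (∑ α ∈ A, α) L + dt (∑ γ ∈ B, γ) L +
        (B'.card * (D.lg (g' o) ω - dt (v o) L) +
          ((B.card : ℝ) - B'.card) * D.lg y ω) := by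
      rw [Finset.sum_congr rfl fun i hi => h2 o (Finset.mem_univ _) i hi, Fintype.sum_sum_type]
      simp only [Sum.elim_inl, Sum.elim_inr]
      rw [Finset.sum_add_distrib, hsum, dt_sum, dt_sum, Finset.sum_coe_sort A (fun α => dt α L),
        Finset.sum_coe_sort B (fun α => dt α L)]
      ring
    have e3 : (e : ℝ) * D.lg y ω ≤ |Real.log CF| + C0 * ‖L‖ := by
      have m1 := h3 (C0 * ‖L‖) (fun b hb => hC0' b hb L)
      rw [← h4, hy]
      have m2 := Real.log_le_log h6 m1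
      rw [Real.log_mul hCF0.ne' (Real.exp_pos _).ne', Real.log_exp] at m2
      have m3 := le_abs_self (Real.log CF)
      unfold Dc.lg
      linarith
    -- the approximation
    have e2 : (e : ℝ) * (D.lg (g' o) ω - dt (v o) L) ≤
        (|Real.log CC| + |Real.log CF|) + lam * (∑ j, μ j * L j) - ‖L‖ := by
      have hlC := abs_nonneg (Real.log CC)
      have hlF := abs_nonneg (Real.log CF)
      rcases hselω with ⟨c, hoc, k1, k2, k3⟩ | ⟨hoc, k1⟩
      · rw [hoc]
        obtain ⟨g1, g2, g3, g4⟩ := h1 c (Finset.mem_univ _)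
        have m1 := g4 (dt c.1.2.2 L) (δ * ‖L‖) (by positivity)
          (fun b hb => k1 b (by
            rw [hT, Finsupp.mem_support_iff]
            exact (supp_restr F _ hb).2))
          (fun b hb => by
            have m2 := supp_sub_restr F _ hb
            have m3 := k2 b (Finsupp.mem_support_iff.2 m2.2) m2.1
            linarith)
        have m2 : D.A (gg c.1.1 c.1.2.1) ω ^ e ≤
            ∏ ζ ∈ Polynomial.nthRootsFinset e (1 : k), D.A (gg c.1.1 ζ) ω := by
          have m3 : D.A (gg c.1.1 c.1.2.1) ω ^ e =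
              ∏ ζ ∈ Polynomial.nthRootsFinset e (1 : k), D.A (gg c.1.1 c.1.2.1) ω := by
            rw [Finset.prod_const, hcardr]
          rw [m3]
          exact Finset.prod_le_prod (fun ζ _ => g3.le) k3
        have m3 : D.A (gg c.1.1 c.1.2.1) ω ^ e ≤
            CC * Real.exp ((e * (M - 1) + 1 : ℕ) * dt c.1.2.2 L - M * (δ * ‖L‖)) := by
          refine (m2.trans (g1.le.trans m1)).trans ?_
          refine mul_le_mul_of_nonneg_right (hCC _ ?_) (Real.exp_pos _).le
          exact Finset.mem_powerset.2 (hκ c).1.1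
        have m4 := Real.log_le_log (pow_pos g3 e) m3
        rw [Real.log_pow, Real.log_mul hCC0.ne' (Real.exp_pos _).ne', Real.log_exp] at m4
        have m5 : dt (v (some c)) L = ((M - 1 : ℕ) : ℝ) * dt c.1.2.2 L := dt_nsmul _ _ _
        have m6 := hC0' c.1.2.2 (hκ c).1.2.2 L
        have m7 : (C0 + 1 + lam * Cm) * ‖L‖ ≤ M * (δ * ‖L‖) := by
          rw [← mul_assoc]
          exact mul_le_mul_of_nonneg_right hM.2 hLn
        have m8 := le_abs_self (Real.log CC)
        have m9 := mul_le_mul_of_nonneg_left (hCm' L) hlam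
        have m10 : D.lg (g' (some c)) ω = Real.log (D.A (gg c.1.1 c.1.2.1) ω) := rfl
        rw [m5, m10]
        push_cast at m4 ⊢
        nlinarith
      · rw [hoc]
        have m1 : dt (v none) L = 0 := dt_zero L
        have m2 : D.lg (g' none) ω = D.lg y ω := rfl
        rw [m1, m2, sub_zero]
        have m3 := mul_le_mul_of_nonneg_left k1 hlam
        rw [← mul_assoc, hlam'] at m3
        nlinarith
    rw [e1]
    have e4 : (B'.card : ℝ) * ((e : ℝ) * (D.lg (g' o) ω - dt (v o) L)) ≤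
        B'.card * ((|Real.log CC| + |Real.log CF|) + lam * (∑ j, μ j * L j) - ‖L‖) :=
      mul_le_mul_of_nonneg_left e2 (by linarith)
    have e5 : ((B.card : ℝ) - B'.card) * ((e : ℝ) * D.lg y ω) ≤
        ((B.card : ℝ) - B'.card) * (|Real.log CF| + C0 * ‖L‖) :=
      mul_le_mul_of_nonneg_left e3 hBB'
    have e6 : ((B.card : ℝ) - B'.card) * (2 * C0) * ‖L‖ ≤ B'.card * ‖L‖ :=
      mul_le_mul_of_nonneg_right hBB'' hLn
    have e7 : 1 * ‖L‖ ≤ B'.card * ‖L‖ := mul_le_mul_of_nonneg_right hB1 hLn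
    simp only [cst]
    nlinarith
  refine D.neg_mono _ _ hfin ?_
  refine D.neg_add _ _ ?_ (D.neg_add _ _ ?_ (D.neg_const _))
  · refine D.neg_smul _ _ (by positivity) ?_
    refine D.neg_add _ _ hsmt ?_
    exact D.neg_add _ _ (neg_dt D s _) (neg_dt D s _)
  · exact D.neg_smul _ _ (by positivity) (neg_lin D s μ)

end key

end Pool.Agent.H21bl.CC
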