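import Mathlib
import Pool.Agent.H21bl.CC.Key

/-!
Initial forms of polynomials in two variables.
-/

set_option autoImplicit false
set_option linter.unusedSectionVars false

open Finset Filter

namespace Pool.Agent.H21bl.CC

open Classical in
/-- The initial form of a polynomial for the weight `θ`: the sum of the terms whose exponents `b`
have the largest value of `θ 0 * b 0 + θ 1 * b 1`. -/
noncomputable def initialForm {R : Type} [CommRing R] (θ : Fin 2 → ℝ) (H : MvPolynomial (Fin 2) R) :
    MvPolynomial (Fin 2) R :=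
  ∑ b ∈ H.support.filter (fun b => ∀ c ∈ H.support, ∑ j, θ j * c j ≤ ∑ j, θ j * b j),
    MvPolynomial.monomial b (H.coeff b)

/-- the set of the exponents of the initial form -/
def IsTop {R : Type} [CommRing R] (θ : Fin 2 → ℝ) (H : MvPolynomial (Fin 2) R) (b : Fin 2 →₀ ℕ) :
    Prop := b ∈ H.support ∧ ∀ c ∈ H.support, ∑ j, θ j * c j ≤ ∑ j, θ j * b j

open Classical in
theorem coeff_initialForm {R : Type} [CommRing R] (θ : Fin 2 → ℝ) (H : MvPolynomial (Fin 2) R)
    (b : Fin 2 →₀ ℕ) : (initialForm θ H).coeff b = if IsTop θ H b then H.coeff b else 0 := by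
  unfold initialForm
  rw [MvPolynomial.coeff_sum]
  simp only [MvPolynomial.coeff_monomial]
  rw [Finset.sum_ite_eq']
  by_cases h : IsTop θ H b
  · rw [if_pos h, if_pos (Finset.mem_filter.2 ⟨h.1, h.2⟩)]
  · rw [if_neg h, if_neg]
    intro h'
    obtain ⟨h1, h2⟩ := Finset.mem_filter.1 h'
    exact h ⟨h1, h2⟩

theorem initialForm_map {R R' : Type} [CommRing R] [CommRing R'] (φ : R →+* R')
    (hφ : Function.Injective φ) (θ : Fin 2 → ℝ) (H : MvPolynomial (Fin 2) R) :
    initialForm θ (MvPolynomial.map φ H) = MvPolynomial.map φ (initialForm θ H) := by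
  classical
  ext b
  rw [coeff_initialForm, MvPolynomial.coeff_map, MvPolynomial.coeff_map, coeff_initialForm]
  have h1 : (MvPolynomial.map φ H).support = H.support :=
    MvPolynomial.support_map_of_injective H hφ
  unfold IsTop
  rw [h1]
  split_ifs
  · rfl
  · exact (map_zero φ).symm

section le

variable {k : Type} [Field k]

/-- substitution of powers -/
noncomputable def le (e : ℕ) : MvPolynomial (Fin 2) k →ₐ[k] La k 2 :=
  MvPolynomial.aeval fun j => AddMonoidAlgebra.single (Pi.single j (e : ℤ)) (1 : k)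

/-- the exponents -/
def ex (e : ℕ) (b : Fin 2 →₀ ℕ) : Fin 2 → ℤ := fun j => (e : ℤ) * b j

theorem ex_inj {e : ℕ} (he : 0 < e) {b b' : Fin 2 →₀ ℕ} (h : ex e b = ex e b') : b = b' := by
  ext j
  have h1 : (e : ℤ) * b j = (e : ℤ) * b' j := congrFun h j
  have h2 : (e : ℤ) ≠ 0 := by exact_mod_cast he.ne'
  exact_mod_cast mul_left_cancel₀ h2 h1

theorem le_monomial (e : ℕ) (b : Fin 2 →₀ ℕ) (c : k) :
    le e (MvPolynomial.monomial b c) = AddMonoidAlgebra.single (ex e b) c := by
  classical
  unfold le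
  rw [MvPolynomial.aeval_monomial, Finsupp.prod_fintype _ _ (fun i => pow_zero _)]
  simp only [AddMonoidAlgebra.single_pow, one_pow]
  rw [Fin.prod_univ_two, AddMonoidAlgebra.single_mul_single, ← Algebra.smul_def,
    AddMonoidAlgebra.smul_single, smul_eq_mul, mul_one, mul_one]
  congr 1
  funext j
  rw [Pi.add_apply, Pi.smul_apply, Pi.smul_apply]
  fin_cases j
  · simp [ex, mul_comm]
  · simp [ex, mul_comm]

theorem le_eq (e : ℕ) (H : MvPolynomial (Fin 2) k) :
    le e H = ∑ b ∈ H.support, AddMonoidAlgebra.single (ex e b) (H.coeff b) := by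
  conv_lhs => rw [H.as_sum, map_sum]
  exact Finset.sum_congr rfl fun b _ => le_monomial e b _

theorem coeff_le {e : ℕ} (he : 0 < e) (H : MvPolynomial (Fin 2) k) (b : Fin 2 →₀ ℕ) :
    (le e H).coeff (ex e b) = H.coeff b := by
  classical
  rw [le_eq, AddMonoidAlgebra.coeff_sum, Finsupp.finsetSum_apply]
  simp only [AddMonoidAlgebra.coeff_single, Finsupp.single_apply]
  by_cases hb : b ∈ H.support
  · rw [Finset.sum_eq_single b]
    · rw [if_pos rfl]
    · intro b' _ hb'
      rw [if_neg fun h => hb' (ex_inj he h)]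
    · intro h
      exact absurd hb h
  · rw [Finset.sum_eq_zero, MvPolynomial.notMem_support_iff.1 hb]
    intro b' hb'
    rw [if_neg]
    intro h
    rw [ex_inj he h] at hb'
    exact hb hb'

theorem supp_le {e : ℕ} (he : 0 < e) (H : MvPolynomial (Fin 2) k) {a : Fin 2 → ℤ} :
    a ∈ (le e H).coeff.support ↔ ∃ b ∈ H.support, a = ex e b := by
  classical
  constructor
  · intro ha
    by_contra hcon
    push Not at hcon
    rw [Finsupp.mem_support_iff] at ha
    apply ha
    rw [le_eq, AddMonoidAlgebra.coeff_sum, Finsupp.finsetSum_apply]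
    simp only [AddMonoidAlgebra.coeff_single, Finsupp.single_apply]
    refine Finset.sum_eq_zero fun b hb => ?_
    rw [if_neg fun h => hcon b hb h.symm]
  · rintro ⟨b, hb, rfl⟩
    rw [Finsupp.mem_support_iff, coeff_le he]
    exact MvPolynomial.mem_support_iff.1 hb

theorem dt_ex (e : ℕ) (b : Fin 2 →₀ ℕ) (θ : Fin 2 → ℝ) :
    dt (ex e b) θ = e * ∑ j, θ j * b j := by
  unfold dt ex
  rw [Finset.mul_sum]
  refine Finset.sum_congr rfl fun j _ => ?_
  push_cast
  ring

theorem face_le {e : ℕ} (he : 0 < e) (H : MvPolynomial (Fin 2) k) (θ : Fin 2 → ℝ) :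
    restr (le e H) (face (le e H).coeff.support θ) = le e (initialForm θ H) := by
  classical
  have he' : (0 : ℝ) < e := by exact_mod_cast he
  have hmem : ∀ b, ex e b ∈ face (le e H).coeff.support θ ↔ IsTop θ H b := by
    intro b
    rw [mem_face]
    unfold IsTop
    constructor
    · rintro ⟨h1, h2⟩
      obtain ⟨b', hb', h3⟩ := (supp_le he H).1 h1
      rw [ex_inj he h3]
      refine ⟨hb', fun c hc => ?_⟩
      have h4 := h2 (ex e c) ((supp_le he H).2 ⟨c, hc, rfl⟩)
      rw [h3, dt_ex, dt_ex] at h4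
      exact le_of_mul_le_mul_left h4 he'
    · rintro ⟨h1, h2⟩
      refine ⟨(supp_le he H).2 ⟨b, h1, rfl⟩, fun a ha => ?_⟩
      obtain ⟨c, hc, rfl⟩ := (supp_le he H).1 ha
      rw [dt_ex, dt_ex]
      exact mul_le_mul_of_nonneg_left (h2 c hc) he'.le
  refine AddMonoidAlgebra.ext (Finsupp.ext fun a => ?_)
  rw [coeff_restr]
  by_cases h : ∃ b : Fin 2 →₀ ℕ, a = ex e b
  · obtain ⟨b, rfl⟩ := h
    rw [coeff_le he, coeff_le he, coeff_initialForm]
    by_cases hb : IsTop θ H b
    · rw [if_pos hb, if_pos ((hmem b).2 hb)]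
    · rw [if_neg hb, if_neg fun h => hb ((hmem b).1 h)]
  · have h1 : ∀ H' : MvPolynomial (Fin 2) k, (le e H').coeff a = 0 := by
      intro H'
      by_contra hcon
      obtain ⟨b, -, hb⟩ := (supp_le he H').1 (Finsupp.mem_support_iff.2 hcon)
      exact h ⟨b, hb⟩
    rw [h1, h1, ite_self]

end le

end Pool.Agent.H21bl.CC
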