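import Mathlib
import Pool.Agent.H21bl.LT.ArM

/-!
Germs of sequences of algebraic numbers which are integral outside finitely many primes.
-/

set_option autoImplicit false
set_option linter.unusedSectionVars false

open Finset Filter

namespace Pool.Agent.H21bl.CC

open NumberField IsDedekindDomain
open Pool.Agent.N754.LT Pool.Agent.Y742.SF Pool.Agent.Y742.AR
open scoped NumberField

/-- the field of algebraic numbers -/
abbrev Qb : Type := algebraicClosure ℚ ℂ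

instance : IsAlgClosed Qb := (algebraicClosure.isAlgClosure ℚ ℂ).isAlgClosed

/-- the field of germs -/
def GB (𝒰 : Ultrafilter ℕ) : Type := GC ℕ 𝒰

noncomputable instance (𝒰 : Ultrafilter ℕ) : Field (GB 𝒰) := inferInstanceAs (Field (GC ℕ 𝒰))

/-- the germ of a sequence -/
noncomputable def gb (𝒰 : Ultrafilter ℕ) : (ℕ → ℂ) →+* GB 𝒰 := gc 𝒰

variable {𝒰 : Ultrafilter ℕ}

theorem gb_eq (f g : ℕ → ℂ) : gb 𝒰 f = gb 𝒰 g ↔ ∀ᶠ t in (𝒰 : Filter ℕ), f t = g t :=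
  gc_eq 𝒰 f g

theorem gb_surj (x : GB 𝒰) : ∃ f : ℕ → ℂ, gb 𝒰 f = x := gc_surj 𝒰 x

noncomputable instance : Algebra Qb (GB 𝒰) :=
  ((gb 𝒰).comp ((Pi.constRingHom ℕ ℂ).comp (algebraMap Qb ℂ))).toAlgebra

theorem algGB (c : Qb) : algebraMap Qb (GB 𝒰) c = gb 𝒰 fun _ => (c : ℂ) := rfl

instance : CharZero (GB 𝒰) := charZero_of_injective_algebraMap (algebraMap Qb (GB 𝒰)).injective

/-- germs of sequences of algebraic numbers which are integral outside finitely many primes -/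
def ArI (𝒰 : Ultrafilter ℕ) (x : GB 𝒰) : Prop :=
  ∃ (M : Type) (_ : Field M) (_ : NumberField M) (τ : M →+* ℂ)
    (S : Set (HeightOneSpectrum (𝓞 M))), S.Finite ∧ ∃ f : ℕ → M, (∀ t, f t ∈ S.integer M) ∧
      x = gb 𝒰 fun t => τ (f t)

section field

variable {M : Type} [Field M] [NumberField M] [IsGalois ℚ M] (D : PD M) (τ : M →+* ℂ)

/-- complex values of germs -/
noncomputable def thB (𝒰 : Ultrafilter ℕ) (τ : M →+* ℂ) : BA M 𝒰 →+* GB 𝒰 := thA 𝒰 τ

theorem thB_apply (x : BA M 𝒰) :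
    thB 𝒰 τ x = gb 𝒰 fun t => τ (rep (K := M) (𝒰 := 𝒰) x t) := rfl

theorem thB_inj : Function.Injective (thB 𝒰 τ) := (thB 𝒰 τ).injective

theorem thB_gA (f : ℕ → M) : thB 𝒰 τ (gA 𝒰 f) = gb 𝒰 fun t => τ (f t) := thA_gA 𝒰 τ f

theorem thB_const (c : M) : thB 𝒰 τ (algebraMap M (BA M 𝒰) c) = gb 𝒰 fun _ => τ c :=
  thA_const 𝒰 τ c

theorem arI_thB (x : BA M 𝒰) (hx : x ∈ TIR D 𝒰) : ArI 𝒰 (thB 𝒰 τ x) := by
  classical
  rw [mem_TIR] at hx
  obtain ⟨c, hc, h⟩ := hx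
  have hcM : (c : M) ≠ 0 := RingOfIntegers.coe_ne_zero_iff.2 hc
  let S : Set (HeightOneSpectrum (𝓞 M)) := Set.range D.P ∪
    HeightOneSpectrum.Support (𝓞 M) ((c : M)⁻¹)
  have hS : S.Finite := (Set.finite_range _).union (HeightOneSpectrum.Support.finite _ _)
  let f : ℕ → M := fun t => if D.TInt ((c : M) * rep (K := M) (𝒰 := 𝒰) x t) then
    rep (K := M) (𝒰 := 𝒰) x t else 0
  refine ⟨M, inferInstance, inferInstance, τ, S, hS, f, fun t => ?_, ?_⟩
  · simp only [f]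
    by_cases ht : D.TInt ((c : M) * rep (K := M) (𝒰 := 𝒰) x t)
    · rw [if_pos ht, mem_integer_iff]
      intro w hw
      have h1 : w ∉ Set.range D.P := fun h => hw (Or.inl h)
      have h2 : w ∉ HeightOneSpectrum.Support (𝓞 M) ((c : M)⁻¹) := fun h => hw (Or.inr h)
      have h3 := ht w (fun v hv => h1 ⟨v, hv.symm⟩)
      have h5 : 1 ≤ fv w (c : M) := by
        have h6 : ¬ (1 < w.valuation M ((c : M)⁻¹)) := h2
        have h7 := (fv_le_one_iff w _).2 (not_lt.1 h6)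
        have h8 : fv w ((c : M)⁻¹) * fv w (c : M) = 1 := by
          rw [← fv_mul, inv_mul_cancel₀ hcM, fv_one]
        have h9 := fv_pos w _ hcM
        nlinarith
      rw [fv_mul] at h3
      have h7 := fv_nonneg w (rep (K := M) (𝒰 := 𝒰) x t)
      nlinarith
    · rw [if_neg ht]
      exact zero_mem _
  · rw [thB_apply, gb_eq]
    filter_upwards [h] with t ht
    simp only [f]
    rw [if_pos ht]

end field

theorem common {ι : Type} [Finite ι] (x : ι → GB 𝒰) (hx : ∀ i, ArI 𝒰 (x i)) (Cs : Finset ℂ)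
    (hC : ∀ a ∈ Cs, IsAlgebraic ℚ a) :
    ∃ (M : Type) (_ : Field M) (_ : NumberField M) (_ : IsGalois ℚ M) (τ : M →+* ℂ) (D : PD M)
      (x' : ι → BA M 𝒰), (∀ i, x' i ∈ TIR D 𝒰) ∧ (∀ i, thB 𝒰 τ (x' i) = x i) ∧
      ∀ a ∈ Cs, ∃ c : M, τ c = a := by
  classical
  have := Fintype.ofFinite ι
  choose M iF iN τ S hS f hf hx using hx
  let b := fun i => @Module.finBasis ℚ (M i) _ _ _ _ _ _
  let T : Finset ℂ := insert Complex.I (Cs ∪ Finset.univ.biUnion fun i : ι =>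
    Finset.univ.image fun j => τ i (b i j))
  obtain ⟨L', hfd, hgal, hmem⟩ := galois_sub T (by
    intro a ha
    rcases Finset.mem_insert.1 ha with rfl | ha
    · refine ⟨Polynomial.X ^ 2 + 1, ?_, by simp⟩
      intro h
      have h1 : (Polynomial.X ^ 2 + 1 : Polynomial ℚ).Monic := by monicity!
      exact h1.ne_zero h
    rcases Finset.mem_union.1 ha with ha | ha
    · exact hC a ha
    · obtain ⟨i, -, ha⟩ := Finset.mem_biUnion.1 ha
      obtain ⟨j, -, rfl⟩ := Finset.mem_image.1 ha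
      have h1 : IsIntegral ℚ (b i j) := Algebra.IsIntegral.isIntegral _
      exact (h1.map ((τ i).toRatAlgHom : M i →ₐ[ℚ] ℂ)).isAlgebraic)
  have hφmem : ∀ i (y : M i), τ i y ∈ L' := by
    intro i y
    rw [← (b i).sum_repr y, map_sum]
    refine sum_mem fun j _ => ?_
    rw [map_rat_smul (τ i)]
    refine L'.smul_mem (hmem _ ?_)
    refine Finset.mem_insert_of_mem (Finset.mem_union_right _ (Finset.mem_biUnion.2
      ⟨i, Finset.mem_univ _, Finset.mem_image.2 ⟨j, Finset.mem_univ _, rfl⟩⟩))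
  have hnf : NumberField L' := NumberField.mk
  let ψ : ∀ i, M i →+* L' := fun i =>
    { toFun := fun x => ⟨τ i x, hφmem i x⟩
      map_one' := Subtype.ext (map_one (τ i))
      map_mul' := fun a b => Subtype.ext (map_mul (τ i) a b)
      map_zero' := Subtype.ext (map_zero (τ i))
      map_add' := fun a b => Subtype.ext (map_add (τ i) a b) }
  have hext : ∀ i, ∃ S' : Set (HeightOneSpectrum (𝓞 L')), S'.Finite ∧
      ∀ x ∈ (S i).integer (M i), ψ i x ∈ S'.integer L' := by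
    intro i
    let : Algebra (M i) L' := (ψ i).toAlgebra
    exact ext_int (M i) L' (S i) (hS i)
  choose S' hS' hSS' using hext
  obtain ⟨D, hD⟩ := exists_PD (K := L') ⟨⟨Complex.I, hmem _ (Finset.mem_insert_self _ _)⟩, by
    apply Subtype.ext
    simp⟩ (⋃ i, S' i) (Set.finite_iUnion hS')
  refine ⟨L', inferInstance, hnf, by convert hgal, algebraMap L' ℂ, D,
    fun i => gA 𝒰 fun t => ψ i (f i t), fun i => ?_, fun i => ?_, fun a ha => ?_⟩
  · rw [mem_TIR]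
    refine ⟨1, one_ne_zero, ?_⟩
    filter_upwards [rep_gA 𝒰 fun t => ψ i (f i t)] with t ht
    have h1 : ((1 : 𝓞 L') : L') = 1 := rfl
    rw [h1, one_mul, ht]
    intro w hw
    have h1 : ψ i (f i t) ∈ (S' i).integer L' := hSS' i _ (hf i t)
    rw [mem_integer_iff] at h1
    refine h1 w fun hwS => ?_
    obtain ⟨v, hv⟩ := hD w (Set.mem_iUnion.2 ⟨i, hwS⟩)
    exact hw v hv
  · rw [thB_gA, hx i]
    rfl
  · exact ⟨⟨a, hmem a (Finset.mem_insert_of_mem (Finset.mem_union_left _ ha))⟩, rfl⟩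

theorem ArI.add {x y : GB 𝒰} (hx : ArI 𝒰 x) (hy : ArI 𝒰 y) : ArI 𝒰 (x + y) := by
  obtain ⟨M, _, _, _, τ, D, z, h1, h2, -⟩ := common (ι := Fin 2) ![x, y] (by
    intro i
    fin_cases i
    · exact hx
    · exact hy) ∅ (by simp)
  have h3 := arI_thB D τ _ (add_mem (h1 0) (h1 1))
  rw [map_add, h2, h2] at h3
  exact h3

theorem ArI.mul {x y : GB 𝒰} (hx : ArI 𝒰 x) (hy : ArI 𝒰 y) : ArI 𝒰 (x * y) := by
  obtain ⟨M, _, _, _, τ, D, z, h1, h2, -⟩ := common (ι := Fin 2) ![x, y] (by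
    intro i
    fin_cases i
    · exact hx
    · exact hy) ∅ (by simp)
  have h3 := arI_thB D τ _ (mul_mem (h1 0) (h1 1))
  rw [map_mul, h2, h2] at h3
  exact h3

theorem isAlg (c : Qb) : IsAlgebraic ℚ (c : ℂ) :=
  (mem_algebraicClosure_iff).1 c.2

theorem ArI.const (c : Qb) : ArI 𝒰 (algebraMap Qb (GB 𝒰) c) := by
  obtain ⟨M, _, _, _, τ, D, z, -, -, h3⟩ := common (𝒰 := 𝒰) (ι := Fin 0) (fun i => 0)
    (fun i => i.elim0) {(c : ℂ)} (by
      intro a ha
      rw [Finset.mem_singleton.1 ha]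
      exact isAlg c)
  obtain ⟨c', hc'⟩ := h3 _ (Finset.mem_singleton_self _)
  have h4 := arI_thB D τ _ (cg_mem_TIR D 𝒰 c')
  rw [thB_const, hc'] at h4
  exact h4

/-- the algebra of integral germs -/
def AI (𝒰 : Ultrafilter ℕ) : Subalgebra Qb (GB 𝒰) where
  carrier := {x | ArI 𝒰 x}
  mul_mem' := fun h1 h2 => ArI.mul h1 h2
  add_mem' := fun h1 h2 => ArI.add h1 h2
  algebraMap_mem' := ArI.const

theorem mem_AI (x : GB 𝒰) : x ∈ AI 𝒰 ↔ ArI 𝒰 x := Iff.rfl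

/-- the group of units of the ring of integral germs -/
def WB (𝒰 : Ultrafilter ℕ) : Subgroup (GB 𝒰)ˣ where
  carrier := {u | (u : GB 𝒰) ∈ AI 𝒰 ∧ ((u⁻¹ : (GB 𝒰)ˣ) : GB 𝒰) ∈ AI 𝒰}
  mul_mem' := by
    rintro a b ⟨h1, h2⟩ ⟨h3, h4⟩
    refine ⟨?_, ?_⟩
    · rw [Units.val_mul]
      exact mul_mem h1 h3
    · rw [mul_inv, Units.val_mul]
      exact mul_mem h2 h4
  one_mem' := by
    refine ⟨?_, ?_⟩
    · rw [Units.val_one]
      exact one_mem _
    · rw [inv_one, Units.val_one]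
      exact one_mem _
  inv_mem' := by
    rintro a ⟨h1, h2⟩
    exact ⟨h2, by rwa [inv_inv]⟩

theorem mem_WB (u : (GB 𝒰)ˣ) : u ∈ WB 𝒰 ↔
    (u : GB 𝒰) ∈ AI 𝒰 ∧ ((u⁻¹ : (GB 𝒰)ˣ) : GB 𝒰) ∈ AI 𝒰 := Iff.rfl

/-- units which are pairwise not proportional are linearly independent -/
theorem unitB (m : ℕ) (g : Fin m → (GB 𝒰)ˣ) (hg : ∀ i, g i ∈ WB 𝒰)
    (hne : ∀ i j, i ≠ j → ∀ c : Qb, (g i : GB 𝒰) ≠ algebraMap Qb (GB 𝒰) c * g j)
    (c : Fin m → Qb) (hc : ∑ i, algebraMap Qb (GB 𝒰) (c i) * g i = 0) : c = 0 := by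
  classical
  obtain ⟨M, _, _, _, τ, D, z, h1, h2, h3⟩ := common (ι := Fin m ⊕ Fin m)
    (Sum.elim (fun i => (g i : GB 𝒰)) (fun i => ((g i)⁻¹ : (GB 𝒰)ˣ))) (by
      rintro (i | i)
      · exact (hg i).1
      · exact (hg i).2) (Finset.univ.image fun i => (c i : ℂ)) (by
      intro a ha
      obtain ⟨i, -, rfl⟩ := Finset.mem_image.1 ha
      exact isAlg _)
  have h3' : ∀ i, ∃ c' : M, τ c' = (c i : ℂ) := fun i =>
    h3 _ (Finset.mem_image.2 ⟨i, Finset.mem_univ _, rfl⟩)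
  choose c' hc' using h3'
  have hmul : ∀ i, z (Sum.inl i) * z (Sum.inr i) = 1 := by
    intro i
    apply thB_inj τ
    rw [map_mul, h2, h2, map_one]
    exact Units.mul_inv (g i)
  let g' : Fin m → (BA M 𝒰)ˣ := fun i =>
    ⟨z (Sum.inl i), z (Sum.inr i), hmul i, by rw [mul_comm]; exact hmul i⟩
  have h4 := unitA D 𝒰 m g' (fun i => ⟨h1 _, h1 _⟩) (by
    intro i j hij a ha
    have hQ : IsAlgebraic ℚ (τ a) :=
      ((Algebra.IsIntegral.isIntegral (R := ℚ) a).map (τ.toRatAlgHom : M →ₐ[ℚ] ℂ)).isAlgebraic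
    have h5 := congrArg (thB 𝒰 τ) ha
    rw [map_mul, thB_const] at h5
    have h6 : thB 𝒰 τ (g' i : BA M 𝒰) = g i := h2 (Sum.inl i)
    have h7 : thB 𝒰 τ (g' j : BA M 𝒰) = g j := h2 (Sum.inl j)
    rw [h6, h7] at h5
    exact hne i j hij ⟨τ a, mem_algebraicClosure_iff.2 hQ⟩ h5) c' (by
    apply thB_inj τ
    rw [map_sum, map_zero, ← hc]
    refine Finset.sum_congr rfl fun i _ => ?_
    rw [map_mul, thB_const, hc' i]
    have h6 : thB 𝒰 τ (g' i : BA M 𝒰) = g i := h2 (Sum.inl i)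
    rw [h6]
    rfl)
  funext i
  apply Subtype.ext
  rw [← hc' i, congrFun h4 i]
  exact map_zero τ

/-- germs which are algebraic over the constants are constant -/
theorem tfB (g : GB 𝒰) (m : ℕ) (hm : 0 < m) (c : Qb) (h : g ^ m = algebraMap Qb (GB 𝒰) c) :
    ∃ c : Qb, g = algebraMap Qb (GB 𝒰) c := by
  have h1 : IsIntegral Qb g := by
    refine ⟨Polynomial.X ^ m - Polynomial.C c, Polynomial.monic_X_pow_sub_C c hm.ne', ?_⟩
    rw [Polynomial.eval₂_sub, Polynomial.eval₂_X_pow, Polynomial.eval₂_C, h, sub_self]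
  obtain ⟨d, hd⟩ := minpoly.mem_range_of_degree_eq_one Qb g
    (IsAlgClosed.degree_eq_one_of_irreducible Qb (minpoly.irreducible h1))
  exact ⟨d, hd.symm⟩

end Pool.Agent.H21bl.CC
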