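import Mathlib
import Pool.Agent.H21bl.CC.Key

/-!
Change of constants, and divisibility of Laurent polynomials.
-/

set_option autoImplicit false

open Finset Filter

namespace Pool.Agent.H21bl.CC

section map

variable {k k' : Type} [Field k] [Field k'] {r : ℕ}

/-- change of constants -/
noncomputable def mapL (j : k →+* k') : La k r →+* La k' r := AddMonoidAlgebra.mapRingHom _ j

theorem coeff_mapL (j : k →+* k') (p : La k r) (b : Fin r → ℤ) :
    (mapL j p).coeff b = j (p.coeff b) := AddMonoidAlgebra.coeff_mapRingHom _ _ _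

theorem La_ext {p q : La k r} (h : ∀ b, p.coeff b = q.coeff b) : p = q :=
  AddMonoidAlgebra.ext (Finsupp.ext h)

theorem mapL_inj (j : k →+* k') : Function.Injective (mapL j : La k r →+* La k' r) := by
  intro p q h
  refine La_ext fun b => j.injective ?_
  rw [← coeff_mapL, ← coeff_mapL, h]

theorem supp_mapL (j : k →+* k') (p : La k r) :
    (mapL j p).coeff.support = p.coeff.support := by
  ext b
  rw [Finsupp.mem_support_iff, Finsupp.mem_support_iff, coeff_mapL, Ne, Ne,
    map_eq_zero_iff j j.injective]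

theorem mapL_single (j : k →+* k') (b : Fin r → ℤ) (c : k) :
    mapL j (AddMonoidAlgebra.single b c) = AddMonoidAlgebra.single b (j c) := by
  classical
  refine La_ext fun b' => ?_
  rw [coeff_mapL, AddMonoidAlgebra.coeff_single, AddMonoidAlgebra.coeff_single,
    Finsupp.single_apply, Finsupp.single_apply]
  split_ifs
  · rfl
  · exact map_zero j

theorem mapL_restr (j : k →+* k') (p : La k r) (S : Finset (Fin r → ℤ)) :
    mapL j (restr p S) = restr (mapL j p) S := by
  classical
  refine La_ext fun b => ?_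
  rw [coeff_mapL, coeff_restr, coeff_restr, coeff_mapL]
  split_ifs
  · rfl
  · exact map_zero j

theorem exists_lift (j : k →+* k') (p : La k' r) (h : ∀ b ∈ p.coeff.support, ∃ c, j c = p.coeff b) :
    ∃ p' : La k r, mapL j p' = p := by
  classical
  have h' : ∀ b : Fin r → ℤ, ∃ c, b ∈ p.coeff.support → j c = p.coeff b := by
    intro b
    by_cases hb : b ∈ p.coeff.support
    · obtain ⟨c, hc⟩ := h b hb
      exact ⟨c, fun _ => hc⟩
    · exact ⟨0, fun h => absurd h hb⟩
  choose c hc using h'
  refine ⟨∑ b ∈ p.coeff.support, AddMonoidAlgebra.single b (c b), ?_⟩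
  rw [map_sum]
  conv_rhs => rw [sum_single p]
  refine Finset.sum_congr rfl fun b hb => ?_
  rw [mapL_single, hc b hb]

variable {R R' : Type} [CommRing R] [CommRing R'] [Algebra k R] [Algebra k' R']

theorem ev_mapL (j : k →+* k') (Θ : R →+* R')
    (hΘ : ∀ c, Θ (algebraMap k R c) = algebraMap k' R' (j c)) (s : Fin r → Rˣ) (s' : Fin r → R'ˣ)
    (hs : ∀ i, Θ (s i) = s' i) (p : La k r) : Θ (ev s p) = ev s' (mapL j p) := by
  have hmo : ∀ b : Fin r → ℤ, Θ (mo s b : R) = (mo s' b : R') := by
    intro b
    have h1 : ∀ i, Units.map (Θ : R →* R') (s i) = s' i := fun i => Units.ext (hs i)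
    have h2 : Units.map (Θ : R →* R') (mo s b) = mo s' b := by
      unfold mo
      rw [map_prod]
      exact Finset.prod_congr rfl fun i _ => by rw [map_zpow, h1]
    rw [← h2]
    rfl
  rw [ev_apply, ev_apply, map_sum, supp_mapL]
  refine Finset.sum_congr rfl fun b _ => ?_
  rw [Algebra.smul_def, Algebra.smul_def, map_mul, hΘ, hmo, coeff_mapL]

end map

section dvd

variable {k : Type} [Field k] {r : ℕ}

/-- polynomials as Laurent polynomials -/
noncomputable def io : MvPolynomial (Fin r) k →ₐ[k] La k r :=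
  MvPolynomial.aeval fun j => AddMonoidAlgebra.single (Pi.single j 1 : Fin r → ℤ) (1 : k)

theorem single_pow' (b : Fin r → ℤ) (n : ℕ) :
    (AddMonoidAlgebra.single b (1 : k) : La k r) ^ n = AddMonoidAlgebra.single (n • b) 1 := by
  rw [AddMonoidAlgebra.single_pow, one_pow]

theorem single_prod {ι : Type} (s : Finset ι) (b : ι → Fin r → ℤ) :
    ∏ i ∈ s, (AddMonoidAlgebra.single (b i) (1 : k) : La k r) =
      AddMonoidAlgebra.single (∑ i ∈ s, b i) 1 := by
  classical
  induction s using Finset.induction_on with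
  | empty => rw [Finset.prod_empty, Finset.sum_empty]; rfl
  | insert i s hi ih =>
    rw [Finset.prod_insert hi, Finset.sum_insert hi, ih, AddMonoidAlgebra.single_mul_single, one_mul]

theorem io_monomial (b : Fin r →₀ ℕ) (c : k) :
    io (MvPolynomial.monomial b c) = AddMonoidAlgebra.single (fun j => (b j : ℤ)) c := by
  classical
  unfold io
  rw [MvPolynomial.aeval_monomial, Finsupp.prod_fintype _ _ (fun i => pow_zero _)]
  simp only [single_pow']
  rw [single_prod, ← Algebra.smul_def, AddMonoidAlgebra.smul_single, smul_eq_mul, mul_one]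
  congr 1
  funext j
  rw [Finset.sum_apply, Finset.sum_eq_single j]
  · rw [Pi.smul_apply, Pi.single_eq_same]
    simp
  · intro i _ hi
    rw [Pi.smul_apply, Pi.single_eq_of_ne (Ne.symm hi), smul_zero]
  · intro h
    exact absurd (Finset.mem_univ _) h

theorem coeff_io (p : MvPolynomial (Fin r) k) (b : Fin r →₀ ℕ) :
    (io p).coeff (fun j => (b j : ℤ)) = p.coeff b := by
  classical
  induction p using MvPolynomial.induction_on' with
  | monomial u a =>
    rw [io_monomial, AddMonoidAlgebra.coeff_single, Finsupp.single_apply, MvPolynomial.coeff_monomial]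
    by_cases h : u = b
    · rw [if_pos h, if_pos (by rw [h])]
    · rw [if_neg h, if_neg]
      intro h'
      apply h
      ext j
      exact_mod_cast congrFun h' j
  | add p q hp hq =>
    rw [map_add, AddMonoidAlgebra.coeff_add, Finsupp.add_apply, hp, hq, MvPolynomial.coeff_add]

theorem io_inj : Function.Injective (io : MvPolynomial (Fin r) k →ₐ[k] La k r) := by
  intro p q h
  ext b
  rw [← coeff_io, ← coeff_io, h]

theorem exists_io (p : La k r) (hp : ∀ b ∈ p.coeff.support, ∀ j, 0 ≤ b j) :
    ∃ q : MvPolynomial (Fin r) k, io q = p := by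
  classical
  refine ⟨∑ b ∈ p.coeff.support,
    MvPolynomial.monomial (Finsupp.equivFunOnFinite.symm fun j => (b j).toNat) (p.coeff b), ?_⟩
  rw [map_sum]
  conv_rhs => rw [sum_single p]
  refine Finset.sum_congr rfl fun b hb => ?_
  rw [io_monomial]
  congr 1
  funext j
  exact Int.toNat_of_nonneg (hp b hb j)

theorem supp_mul_single (p : La k r) (a b : Fin r → ℤ)
    (hb : b ∈ (p * AddMonoidAlgebra.single a 1).coeff.support) :
    ∃ c ∈ p.coeff.support, b = c + a := by
  classical
  have h1 := AddMonoidAlgebra.support_coeff_mul_subset p (AddMonoidAlgebra.single a (1 : k)) hb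
  obtain ⟨c, hc, d, hd, rfl⟩ := Finset.mem_add.1 h1
  rw [AddMonoidAlgebra.coeff_single] at hd
  have h2 := Finsupp.support_single_subset hd
  exact ⟨c, hc, by rw [Finset.mem_singleton.1 h2]⟩

theorem dvd_of_pow_dvd (e : ℕ) (he : 0 < e) (p q F : La k r) (h : q ^ e * F = p ^ e) : q ∣ p := by
  classical
  obtain ⟨K, hK⟩ := exists_bound (p.coeff.support ∪ q.coeff.support ∪ F.coeff.support)
  let a : Fin r → ℤ := fun _ => (K : ℤ)
  let m : La k r := AddMonoidAlgebra.single a 1
  have hm : IsUnit m := by
    refine IsUnit.of_mul_eq_one (AddMonoidAlgebra.single (-a) 1) ?_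
    rw [AddMonoidAlgebra.single_mul_single, add_neg_cancel, one_mul]
    rfl
  have hio : ∀ f : La k r, f.coeff.support ⊆ p.coeff.support ∪ q.coeff.support ∪ F.coeff.support →
      ∃ g : MvPolynomial (Fin r) k, io g = f * m := by
    intro f hf
    refine exists_io _ fun b hb j => ?_
    obtain ⟨c, hc, rfl⟩ := supp_mul_single f a b hb
    have h1 := (abs_le.1 (hK c (hf hc) j)).1
    rw [Pi.add_apply]
    show 0 ≤ c j + (K : ℤ)
    omega
  obtain ⟨p1, hp1⟩ := hio p (by
    intro b hb
    exact Finset.mem_union_left _ (Finset.mem_union_left _ hb))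
  obtain ⟨q1, hq1⟩ := hio q (by
    intro b hb
    exact Finset.mem_union_left _ (Finset.mem_union_right _ hb))
  obtain ⟨F1, hF1⟩ := hio F (by
    intro b hb
    exact Finset.mem_union_right _ hb)
  obtain ⟨m1, hm1⟩ : ∃ g : MvPolynomial (Fin r) k, io g = m := by
    refine exists_io _ fun b hb j => ?_
    rw [AddMonoidAlgebra.coeff_single] at hb
    have h2 := Finset.mem_singleton.1 (Finsupp.support_single_subset hb)
    rw [h2]
    exact Int.natCast_nonneg K
  have h1 : q1 ^ e * (F1 * m1 ^ (e - 1)) = (p1 * m1) ^ e := by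
    apply io_inj
    rw [map_mul, map_pow, map_mul, map_pow, map_pow, map_mul, hq1, hF1, hm1, hp1, mul_pow, mul_pow,
      mul_pow, ← h]
    have h2 : m ^ e = m * m ^ (e - 1) := by
      rw [← pow_succ']
      congr 1
      omega
    rw [h2]
    ring
  have h2 : q1 ∣ p1 * m1 := by
    rw [← IsIntegrallyClosed.pow_dvd_pow_iff he.ne']
    exact ⟨_, h1.symm⟩
  obtain ⟨c, hc⟩ := h2
  have h3 : p * m * m = q * m * io c := by
    rw [← hp1, ← hq1]
    conv_lhs => rw [← hm1]
    rw [← map_mul, hc, map_mul]
  rw [← hm.dvd_mul_right]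
  refine ⟨io c, ?_⟩
  apply hm.mul_left_injective
  show p * m * m = q * io c * m
  rw [h3]
  ring

end dvd

end Pool.Agent.H21bl.CC
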