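import Mathlib
import Pool.Agent.H21bl.CC.Lift
import Pool.Agent.H21bl.CC.Germ

/-!
Roots of Laurent polynomials in units: germs of integral points.
-/

set_option autoImplicit false
set_option linter.unusedSectionVars false

open Finset Filter

namespace Pool.Agent.H21bl.CC

open NumberField IsDedekindDomain
open Pool.Agent.N754.LT Pool.Agent.Y742.SF Pool.Agent.Y742.AR
open scoped NumberField

variable {𝒰 : Ultrafilter ℕ} {r : ℕ}

theorem mo_sub {R : Type} [CommRing R] (s : Fin r → Rˣ) (b c : Fin r → ℤ) :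
    mo s (b - c) = mo s b * (mo s c)⁻¹ := by
  rw [eq_mul_inv_iff_mul_eq, ← mo_add, sub_add_cancel]

theorem mo_mem (s : Fin r → (GB 𝒰)ˣ) (hs : ∀ j, s j ∈ WB 𝒰) (b : Fin r → ℤ) :
    mo s b ∈ WB 𝒰 := Subgroup.prod_mem _ fun j _ => Subgroup.zpow_mem _ (hs j) _

theorem evB_inj (s : Fin r → (GB 𝒰)ˣ) (hs : ∀ j, s j ∈ WB 𝒰)
    (hsne : ∀ b : Fin r → ℤ, b ≠ 0 → ∀ c : Qb, (mo s b : GB 𝒰) ≠ algebraMap Qb (GB 𝒰) c)
    (p : La Qb r) (hp : ev s p = 0) : p = 0 := by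
  classical
  let T := p.coeff.support
  let E := T.equivFin
  have h1 := unitB (𝒰 := 𝒰) T.card (fun i => mo s (E.symm i).1) (fun i => mo_mem s hs _) (by
    intro i j hij c hc
    have h2 : (E.symm i).1 - (E.symm j).1 ≠ 0 := by
      intro h0
      apply hij
      apply E.symm.injective
      exact Subtype.ext (sub_eq_zero.1 h0)
    apply hsne _ h2 c
    rw [mo_sub, Units.val_mul]
    rw [hc, mul_assoc, Units.mul_inv, mul_one]) (fun i => p.coeff (E.symm i).1) (by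
    rw [← hp, ev_apply]
    rw [← Finset.sum_coe_sort p.coeff.support (fun b => p.coeff b • (mo s b : GB 𝒰))]
    rw [← E.symm.sum_comp (fun b : T => p.coeff b.1 • (mo s b.1 : GB 𝒰))]
    refine Finset.sum_congr rfl fun i _ => ?_
    rw [Algebra.smul_def])
  refine La_ext fun b => ?_
  by_contra hb
  have hb' : b ∈ T := Finsupp.mem_support_iff.2 hb
  have h2 := congrFun h1 (E ⟨b, hb'⟩)
  simp only [Equiv.symm_apply_apply, Pi.zero_apply] at h2
  exact hb h2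

/-- number fields in the field of algebraic numbers -/
noncomputable def toQ {M : Type} [Field M] [NumberField M] (τ : M →+* ℂ) : M →+* Qb :=
  τ.codRestrict (algebraicClosure ℚ ℂ) fun c => mem_algebraicClosure_iff.2
    ((Algebra.IsIntegral.isIntegral (R := ℚ) c).map (τ.toRatAlgHom : M →ₐ[ℚ] ℂ)).isAlgebraic

theorem toQ_coe {M : Type} [Field M] [NumberField M] (τ : M →+* ℂ) (c : M) :
    ((toQ τ c : Qb) : ℂ) = τ c := rfl

theorem not_hind (hr : 0 < r) (s : Fin r → (GB 𝒰)ˣ) (hs : ∀ j, s j ∈ WB 𝒰)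
    (hsne : ∀ b : Fin r → ℤ, b ≠ 0 → ∀ c : Qb, (mo s b : GB 𝒰) ≠ algebraMap Qb (GB 𝒰) c)
    (F : La Qb r) (y : GB 𝒰) (hy : y ∈ AI 𝒰) (e : ℕ) (he : 0 < e) (hyF : y ^ e = ev s F)
    (μ : Fin r → ℝ) (hface : ∀ θ : Fin r → ℝ, θ ≠ 0 → ∑ j, μ j * θ j ≤ 0 →
      ∃ P : La Qb r, P ^ e = restr F (face F.coeff.support θ)) :
    ¬ ∀ p q : La Qb r, ev s q * y = ev s p → q = 0 := by
  classical
  intro hind
  set T := F.coeff.support with hT
  have hP : ∀ S : Finset (Fin r → ℤ), ∃ P : La Qb r,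
      (∃ θ : Fin r → ℝ, θ ≠ 0 ∧ ∑ j, μ j * θ j ≤ 0 ∧ S = face T θ) → P ^ e = restr F S := by
    intro S
    by_cases h : ∃ θ : Fin r → ℝ, θ ≠ 0 ∧ ∑ j, μ j * θ j ≤ 0 ∧ S = face T θ
    · obtain ⟨θ, hθ, hμ, rfl⟩ := h
      obtain ⟨P, hP⟩ := hface θ hθ hμ
      exact ⟨P, fun _ => hP⟩
    · exact ⟨0, fun h' => absurd h' h⟩
  choose P hP using hP
  -- the constants
  obtain ⟨ξ, hξ⟩ : ∃ ξ : ℂ, IsPrimitiveRoot ξ e := ⟨_, Complex.isPrimitiveRoot_exp e he.ne'⟩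
  let Cs : Finset ℂ := insert ξ ((T.image fun b => (F.coeff b : ℂ)) ∪
    T.powerset.biUnion fun S => (P S).coeff.support.image fun b => ((P S).coeff b : ℂ))
  have hCs : ∀ a ∈ Cs, IsAlgebraic ℚ a := by
    intro a ha
    rcases Finset.mem_insert.1 ha with rfl | ha
    · refine ⟨Polynomial.X ^ e - 1, ?_, by simp [hξ.pow_eq_one]⟩
      have := Polynomial.monic_X_pow_sub_C (1 : ℚ) he.ne'
      rw [map_one] at this
      exact this.ne_zero
    rcases Finset.mem_union.1 ha with ha | ha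
    · obtain ⟨b, -, rfl⟩ := Finset.mem_image.1 ha
      exact isAlg _
    · obtain ⟨S, -, ha⟩ := Finset.mem_biUnion.1 ha
      obtain ⟨b, -, rfl⟩ := Finset.mem_image.1 ha
      exact isAlg _
  obtain ⟨M, _, _, _, τ, D, z, h1, h2, h3⟩ := common (ι := Fin r ⊕ Fin r ⊕ Unit)
    (Sum.elim (fun j => (s j : GB 𝒰)) (Sum.elim (fun j => ((s j)⁻¹ : (GB 𝒰)ˣ)) fun _ => y)) (by
      rintro (j | j | j)
      · exact (hs j).1
      · exact (hs j).2
      · exact hy) Cs hCs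
  have hmul : ∀ j, z (Sum.inl j) * z (Sum.inr (Sum.inl j)) = 1 := by
    intro j
    apply thB_inj τ
    rw [map_mul, h2, h2, map_one]
    exact Units.mul_inv (s j)
  let w : Fin r → (BA M 𝒰)ˣ := fun j =>
    ⟨z (Sum.inl j), z (Sum.inr (Sum.inl j)), hmul j, by rw [mul_comm]; exact hmul j⟩
  have hw1 : ∀ j, (w j : BA M 𝒰) ∈ TIR D 𝒰 := fun j => h1 _
  have hw2 : ∀ j, (((w j)⁻¹ : (BA M 𝒰)ˣ) : BA M 𝒰) ∈ TIR D 𝒰 := fun j => h1 _
  have hws : ∀ j, thB 𝒰 τ (w j : BA M 𝒰) = s j := fun j => h2 (Sum.inl j)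
  let y0 : BA M 𝒰 := z (Sum.inr (Sum.inr ()))
  have hy0 : thB 𝒰 τ y0 = y := h2 (Sum.inr (Sum.inr ()))
  have hy0T : y0 ∈ TIR D 𝒰 := h1 _
  -- the lifts
  obtain ⟨F', hF'⟩ := exists_lift (toQ τ) F (fun b hb => by
    obtain ⟨c, hc⟩ := h3 (F.coeff b : ℂ) (Finset.mem_insert_of_mem (Finset.mem_union_left _
      (Finset.mem_image.2 ⟨b, hb, rfl⟩)))
    exact ⟨c, Subtype.ext hc⟩)
  have hPl : ∀ S ∈ T.powerset, ∃ P' : La M r, mapL (toQ τ) P' = P S := by
    intro S hS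
    refine exists_lift (toQ τ) (P S) fun b hb => ?_
    obtain ⟨c, hc⟩ := h3 ((P S).coeff b : ℂ) (Finset.mem_insert_of_mem (Finset.mem_union_right _
      (Finset.mem_biUnion.2 ⟨S, hS, Finset.mem_image.2 ⟨b, hb, rfl⟩⟩)))
    exact ⟨c, Subtype.ext hc⟩
  obtain ⟨ξ', hξ'⟩ := h3 ξ (Finset.mem_insert_self _ _)
  have hξM : IsPrimitiveRoot ξ' e := by
    rw [← hξ'] at hξ
    exact hξ.of_map_of_injective τ.injective
  -- the scale
  let rp : BA M 𝒰 → ℕ → M := fun x => rep (K := M) (𝒰 := 𝒰) x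
  let sc : (((M ≃ₐ[ℚ] M) ⊕ Fin D.s) → ℕ → ℝ) := fun v t =>
    ∑ j, |Real.log (D.av v (rp (w j : BA M 𝒰) t))|
  have hs0 : ∀ v t, 0 ≤ sc v t := fun v t => Finset.sum_nonneg fun _ _ => abs_nonneg _
  let N : ℕ → ℝ := fun t => 1 + ∑ v, sc v t
  have hN : ∀ t, 1 ≤ N t := fun t => by
    have : 0 ≤ ∑ v, sc v t := Finset.sum_nonneg fun _ _ => hs0 _ _
    simp only [N]
    linarith
  have hsN : ∀ v t, sc v t ≤ N t := by
    intro v t
    have h1 : sc v t ≤ ∑ v, sc v t :=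
      Finset.single_le_sum (f := fun v => sc v t) (fun _ _ => hs0 _ _) (Finset.mem_univ v)
    simp only [N]
    linarith
  have hwN : ∀ v t j, |Real.log (D.av v (rp (w j : BA M 𝒰) t))| ≤ N t := by
    intro v t j
    refine le_trans ?_ (hsN v t)
    exact Finset.single_le_sum (f := fun j => |Real.log (D.av v (rp (w j : BA M 𝒰) t))|)
        (fun _ _ => abs_nonneg _) (Finset.mem_univ j)
  have hNt : Tendsto N (𝒰 : Filter ℕ) atTop := by
    refine tendsto_of_unbdd N ?_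
    rintro ⟨C, hC⟩
    let j0 : Fin r := ⟨0, hr⟩
    obtain ⟨c, hc⟩ := const_of_bdd (D := D) (𝒰 := 𝒰) (w j0 : BA M 𝒰) (hw1 j0)
      (Real.exp C) (by
        filter_upwards [hC, Pool.Agent.Y742.AR.rep_ne (K := M) (𝒰 := 𝒰) (w j0 : BA M 𝒰)
          (Units.ne_zero _)] with t h1 h2 v
        rw [← Real.log_le_iff_le_exp (D.av_pos v _ h2)]
        exact ((le_abs_self _).trans (hwN v t j0)).trans h1)
    refine hsne (Pi.single j0 1) ?_ (toQ τ c) ?_
    · intro h0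
      have h4 := congrFun h0 j0
      rw [Pi.single_eq_same] at h4
      exact one_ne_zero h4
    · have h4 : mo s (Pi.single j0 1) = s j0 := by
        unfold mo
        rw [Finset.prod_eq_single j0]
        · rw [Pi.single_eq_same, zpow_one]
        · intro i _ hi
          rw [Pi.single_eq_of_ne hi, zpow_zero]
        · intro h
          exact absurd (Finset.mem_univ _) h
      have h5 : (w j0 : BA M 𝒰) = algebraMap M (BA M 𝒰) c := hc
      rw [h4, ← hws j0, h5, thB_const]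
      rfl
  -- the elements of the ring
  have hwB : ∀ j, Bd D N 𝒰 (rp (w j : BA M 𝒰)) := by
    intro j
    refine ⟨1, zero_le_one, ?_⟩
    filter_upwards [Pool.Agent.Y742.AR.rep_ne (K := M) (𝒰 := 𝒰) (w j : BA M 𝒰)
      (Units.ne_zero _)] with t h2 v
    rw [one_mul, ← Real.log_le_iff_le_exp (D.av_pos v _ h2)]
    exact (le_abs_self _).trans (hwN v t j)
  have hwB' : ∀ j, Bd D N 𝒰 (rp ((w j)⁻¹ : (BA M 𝒰)ˣ)) := by
    intro j
    refine ⟨1, zero_le_one, ?_⟩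
    rw [Units.val_inv_eq_inv_val]
    filter_upwards [Pool.Agent.Y742.AR.rep_ne (K := M) (𝒰 := 𝒰) (w j : BA M 𝒰)
      (Units.ne_zero _), Pool.Agent.Y742.AR.rep_inv (K := M) (𝒰 := 𝒰) (w j : BA M 𝒰)
      (Units.ne_zero _)] with t h2 h3 v
    have h4 : rp ((w j : BA M 𝒰)⁻¹) t = (rp (w j : BA M 𝒰) t)⁻¹ := h3
    rw [h4, one_mul, ← Real.log_le_iff_le_exp (D.av_pos v _ (inv_ne_zero h2)), av_inv _ _ h2]
    exact (neg_le_abs _).trans (hwN v t j)
  let wR : Fin r → (RA D 𝒰 N hN)ˣ := fun j =>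
    { val := mkR (w j : BA M 𝒰) (hw1 j) (hwB j)
      inv := mkR (((w j)⁻¹ : (BA M 𝒰)ˣ) : BA M 𝒰) (hw2 j) (hwB' j)
      val_inv := vl_inj (Units.mul_inv (w j))
      inv_val := vl_inj (Units.inv_mul (w j)) }
  let Θ : RA D 𝒰 N hN →+* GB 𝒰 := (thB 𝒰 τ).comp (incA D 𝒰 N hN : RA D 𝒰 N hN →+* BA M 𝒰)
  have hΘv : ∀ x, Θ x = thB 𝒰 τ (vl D 𝒰 N hN x) := fun x => rfl
  have hΘinj : Function.Injective Θ := fun a b h => vl_inj (thB_inj τ h)
  have hΘc : ∀ c, Θ (algebraMap M (RA D 𝒰 N hN) c) = algebraMap Qb (GB 𝒰) (toQ τ c) := by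
    intro c
    rw [hΘv, vl_const]
    exact thB_const τ c
  have hΘw : ∀ j, Θ (wR j) = s j := fun j => hws j
  have hΘev : ∀ p : La M r, Θ (ev wR p) = ev s (mapL (toQ τ) p) := fun p =>
    ev_mapL (toQ τ) Θ hΘc wR s hΘw p
  have hvF : vl D 𝒰 N hN (ev wR F') = y0 ^ e := by
    apply thB_inj τ
    rw [← hΘv, hΘev, hF', map_pow, hy0, hyF]
  have hpow : ∀ k : ℕ, ∀ᶠ t in (𝒰 : Filter ℕ),
      rep (K := M) (𝒰 := 𝒰) (y0 ^ k) t = rep (K := M) (𝒰 := 𝒰) y0 t ^ k := by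
    intro k
    induction k with
    | zero =>
      filter_upwards [Pool.Agent.Y742.AR.rep_one (K := M) (𝒰 := 𝒰)] with t h
      rw [pow_zero, pow_zero]
      exact h
    | succ k ih =>
      filter_upwards [ih, Pool.Agent.Y742.AR.rep_mul (K := M) (𝒰 := 𝒰) (y0 ^ k) y0] with t h1 h2
      rw [pow_succ, pow_succ, ← h1]
      exact h2
  have hyB : Bd D N 𝒰 (rp y0) := by
    obtain ⟨C, hC0, hC⟩ := ((mem_R0 hN _).1 (vl_mem (ev wR F'))).2
    refine ⟨C, hC0, ?_⟩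
    filter_upwards [hC, hpow e] with t h4 h5 v
    have h6 := h4 v
    rw [hvF, h5] at h6
    have h7 : ∀ (x : M) (k : ℕ), D.av v (x ^ k) = D.av v x ^ k := by
      intro x k
      induction k with
      | zero => rw [pow_zero, pow_zero, D.av_one]
      | succ k ih => rw [pow_succ, pow_succ, D.av_mul, ih]
    rw [h7] at h6
    have h8 : 0 ≤ C * N t := mul_nonneg hC0 (by linarith [hN t])
    rcases le_total (D.av v (rp y0 t)) 1 with h9 | h9
    · exact h9.trans (Real.one_le_exp h8)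
    · exact (le_self_pow₀ h9 he.ne').trans h6
  let yR : RA D 𝒰 N hN := mkR y0 hy0T hyB
  have hΘy : Θ yR = y := hy0
  have hsupp : F'.coeff.support = T := by rw [hT, ← hF', supp_mapL]
  have hkey := key (DcA (D := D) (hN := hN) hNt) wR F' yR e he (by
    apply hΘinj
    rw [map_pow, hΘy, hΘev, hF', hyF]) hξM μ (by
    intro θ hθ hμ
    rw [hsupp]
    obtain ⟨P', hP'⟩ := hPl (face T θ) (Finset.mem_powerset.2 (face_sub T θ))
    refine ⟨P', ?_⟩
    apply mapL_inj (toQ τ)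
    rw [map_pow, mapL_restr, hP', hF']
    exact hP _ ⟨θ, hθ, hμ, rfl⟩) (by
    intro p q hpq
    apply mapL_inj (toQ τ)
    rw [map_zero]
    refine hind (mapL (toQ τ) p) (mapL (toQ τ) q) ?_
    rw [← hΘev, ← hΘev, ← hpq, map_mul, hΘy])
  -- the contradiction
  have hr' : (0 : ℝ) < r := by exact_mod_cast hr
  have h4 : ∀ᶠ t in (𝒰 : Filter ℕ), ∑ v, ‖LV (DcA (D := D) (hN := hN) hNt) wR (v, t)‖ ≤
      (1 / (2 * r)) * N t := hkey (1 / (2 * r)) (by positivity)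
  obtain ⟨t, h5, h6⟩ := (h4.and (hNt.eventually_ge_atTop 3)).exists
  have h7 : ∀ v, sc v t ≤ r * ‖LV (DcA (D := D) (hN := hN) hNt) wR (v, t)‖ := by
    intro v
    have h8 : sc v t ≤ ∑ _j : Fin r, ‖LV (DcA (D := D) (hN := hN) hNt) wR (v, t)‖ := by
      refine Finset.sum_le_sum fun j _ => ?_
      exact norm_le_pi_norm (LV (DcA (D := D) (hN := hN) hNt) wR (v, t)) j
    rw [Finset.sum_const, Finset.card_univ, Fintype.card_fin, nsmul_eq_mul] at h8
    exact h8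
  have h8 : ∑ v, sc v t ≤ r * ∑ v, ‖LV (DcA (D := D) (hN := hN) hNt) wR (v, t)‖ := by
    rw [Finset.mul_sum]
    exact Finset.sum_le_sum fun v _ => h7 v
  have h9 : N t = 1 + ∑ v, sc v t := rfl
  have h10 : r * (1 / (2 * r) * N t) = N t / 2 := by
    field_simp
  have h11 := mul_le_mul_of_nonneg_left h5 hr'.le
  linarith

/-- **Roots of Laurent polynomials in independent units are Laurent polynomials**, when the
faces in a half space of directions are powers. -/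
theorem keyB (hr : 0 < r) (s : Fin r → (GB 𝒰)ˣ) (hs : ∀ j, s j ∈ WB 𝒰)
    (hsne : ∀ b : Fin r → ℤ, b ≠ 0 → ∀ c : Qb, (mo s b : GB 𝒰) ≠ algebraMap Qb (GB 𝒰) c)
    (F : La Qb r) (y : GB 𝒰) (hy : y ∈ AI 𝒰) (e : ℕ) (he : 0 < e) (hyF : y ^ e = ev s F)
    (μ : Fin r → ℝ) (hface : ∀ θ : Fin r → ℝ, θ ≠ 0 → ∑ j, μ j * θ j ≤ 0 →
      ∃ P : La Qb r, P ^ e = restr F (face F.coeff.support θ)) :
    ∃ P : La Qb r, y = ev s P := by
  have h1 := not_hind hr s hs hsne F y hy e he hyF μ hface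
  push Not at h1
  obtain ⟨p, q, h1, hq⟩ := h1
  have hinj := evB_inj s hs hsne
  have hinj' : Function.Injective (ev s : La Qb r →ₐ[Qb] GB 𝒰) :=
    (injective_iff_map_eq_zero _).2 hinj
  have h2 : q ^ e * F = p ^ e := by
    apply hinj'
    rw [map_mul, map_pow, map_pow, ← h1, mul_pow, hyF]
  obtain ⟨P, hP⟩ := dvd_of_pow_dvd e he p q F h2
  refine ⟨P, ?_⟩
  have h3 : ev s q ≠ 0 := fun h => hq (hinj q h)
  apply mul_left_cancel₀ h3
  rw [h1, hP, map_mul]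

end Pool.Agent.H21bl.CC
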