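import Mathlib
import Pool.Agent.H21bl.CC.Germ

/-!
Roots of germs of units.
-/

set_option autoImplicit false
set_option linter.unusedSectionVars false

open Finset Filter

namespace Pool.Agent.H21bl.CC

open NumberField IsDedekindDomain
open Pool.Agent.N754.LT Pool.Agent.Y742.SF Pool.Agent.Y742.AR
open scoped NumberField

/-- number fields in the field of algebraic numbers -/
noncomputable def toQ' {M : Type} [Field M] [NumberField M] (τ : M →+* ℂ) : M →+* Qb :=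
  τ.codRestrict (algebraicClosure ℚ ℂ) fun c => mem_algebraicClosure_iff.2
    ((Algebra.IsIntegral.isIntegral (R := ℚ) c).map (τ.toRatAlgHom : M →ₐ[ℚ] ℂ)).isAlgebraic

section sunits

variable (M : Type) [Field M] [NumberField M] (S : Set (HeightOneSpectrum (𝓞 M)))

/-- the exponents of an `S`-unit -/
noncomputable def ordS : Additive (S.unit M) →+ (S → ℤ) where
  toFun x v := Multiplicative.toAdd (v.1.valuationOfNeZero ((Additive.toMul x : S.unit M) : Mˣ))
  map_zero' := by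
    funext v
    simp
  map_add' x y := by
    funext v
    simp

theorem sunit_fg (hS : S.Finite) : Module.Finite ℤ (Additive (S.unit M)) := by
  classical
  have := hS.to_subtype
  let f := (ordS M S).toIntLinearMap
  let g0 : (𝓞 M)ˣ →* S.unit M :=
    (Units.map (algebraMap (𝓞 M) M : 𝓞 M →* M)).codRestrict (S.unit M) (fun x v _ => by
      have h1 := v.valuationOfNeZero_eq (Units.map (algebraMap (𝓞 M) M : 𝓞 M →* M) x)
      rw [HeightOneSpectrum.valuation_of_unit_eq] at h1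
      exact h1.symm)
  let g := (MonoidHom.toAdditive g0).toIntLinearMap
  rw [Module.finite_def]
  refine Submodule.fg_of_fg_map_of_fg_inf_ker f (IsNoetherian.noetherian _) ?_
  have h1 : (⊤ : Submodule ℤ (Additive (S.unit M))) ⊓ LinearMap.ker f = Submodule.map g ⊤ := by
    apply le_antisymm
    · rintro x ⟨-, hx⟩
      have hx' : ∀ v : S, Multiplicative.toAdd
          (v.1.valuationOfNeZero ((Additive.toMul x : S.unit M) : Mˣ)) = 0 :=
        fun v => congrFun hx v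
      obtain ⟨y, hy⟩ : ∃ y : S.unit M, y = Additive.toMul x := ⟨_, rfl⟩
      have hval : ∀ v : HeightOneSpectrum (𝓞 M), v.valuation M ((y : Mˣ) : M) = 1 := by
        intro v
        by_cases hv : v ∈ S
        · have h2 := hx' ⟨v, hv⟩
          have h3 : v.valuationOfNeZero (y : Mˣ) = 1 := by
            rw [hy]
            exact h2
          rw [← v.valuationOfNeZero_eq, h3]
          rfl
        · exact S.unit_valuation_eq_one M y hv
      have hval' : ∀ v : HeightOneSpectrum (𝓞 M), v.valuation M (((y : Mˣ)⁻¹ : Mˣ) : M) = 1 := by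
        intro v
        rw [Units.val_inv_eq_inv_val, map_inv₀, hval v, inv_one]
      obtain ⟨a, ha⟩ := mem_int ((y : Mˣ) : M) fun v => (fv_le_one_iff v _).2 (hval v).le
      obtain ⟨b, hb⟩ := mem_int (((y : Mˣ)⁻¹ : Mˣ) : M) fun v => (fv_le_one_iff v _).2 (hval' v).le
      have hab : a * b = 1 := by
        apply RingOfIntegers.coe_injective
        rw [map_mul, map_one]
        show (a : M) * (b : M) = 1
        rw [ha, hb, Units.mul_inv]
      refine ⟨Additive.ofMul ⟨a, b, hab, by rw [mul_comm]; exact hab⟩, trivial, ?_⟩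
      apply Additive.toMul.injective
      rw [← hy]
      apply Subtype.ext
      apply Units.ext
      exact ha
    · rintro _ ⟨x, -, rfl⟩
      refine ⟨trivial, ?_⟩
      funext v
      show Multiplicative.toAdd (v.1.valuationOfNeZero
        (Units.map (algebraMap (𝓞 M) M : 𝓞 M →* M) (Additive.toMul x))) = 0
      rw [HeightOneSpectrum.valuation_of_unit_eq]
      rfl
  rw [h1]
  exact Submodule.FG.map g Module.Finite.fg_top

/-- `S`-units modulo powers -/
theorem sunit_root (hS : S.Finite) (E : ℕ) (hE : 0 < E) :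
    ∃ C : Finset Mˣ, ∀ x ∈ S.unit M, ∃ c ∈ C, ∃ v ∈ S.unit M, x = c * v ^ E := by
  classical
  have := sunit_fg M S hS
  obtain ⟨n, s, hs⟩ := Module.Finite.exists_fin (R := ℤ) (M := Additive (S.unit M))
  let cmb : (Fin n → ℤ) → S.unit M := fun a => Additive.toMul (∑ i, a i • s i)
  refine ⟨Finset.univ.image fun a : Fin n → Fin E => ((cmb fun i => ((a i : ℕ) : ℤ) : S.unit M) : Mˣ),
    fun x hx => ?_⟩
  have h1 : Additive.ofMul (⟨x, hx⟩ : S.unit M) ∈ Submodule.span ℤ (Set.range s) := by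
    rw [hs]
    trivial
  obtain ⟨a, ha⟩ := (Submodule.mem_span_range_iff_exists_fun ℤ).1 h1
  have hE' : (0 : ℤ) < E := by exact_mod_cast hE
  refine ⟨_, Finset.mem_image.2 ⟨fun i => ⟨(a i % E).toNat, ?_⟩, Finset.mem_univ _, rfl⟩,
    (cmb fun i => a i / E : S.unit M), (cmb fun i => a i / E).2, ?_⟩
  · have h2 := Int.emod_lt_of_pos (a i) hE'
    have h3 := Int.emod_nonneg (a i) hE'.ne'
    omega
  · have h2 : (⟨x, hx⟩ : S.unit M) = (cmb fun i => a i % E) * (cmb fun i => a i / E) ^ E := by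
      apply Additive.ofMul.injective
      rw [← ha, ofMul_mul, ofMul_pow]
      simp only [cmb, ofMul_toMul]
      have h5 : E • (∑ i, (a i / (E : ℤ)) • s i) = ∑ i, ((E : ℤ) * (a i / (E : ℤ))) • s i := by
        rw [← natCast_zsmul, ← zsmulAddGroupHom_apply, map_sum]
        refine Finset.sum_congr rfl fun i _ => ?_
        rw [zsmulAddGroupHom_apply, ← mul_smul]
      rw [h5, ← Finset.sum_add_distrib]
      refine Finset.sum_congr rfl fun i _ => ?_
      rw [← add_zsmul, Int.emod_add_mul_ediv]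
    have h3 : (fun i => a i % (E : ℤ)) = fun i => (((a i % (E : ℤ)).toNat : ℕ) : ℤ) := by
      funext i
      rw [Int.toNat_of_nonneg (Int.emod_nonneg (a i) hE'.ne')]
    have h4 := congrArg (Subgroup.subtype (S.unit M)) h2
    rw [map_mul, map_pow, h3] at h4
    exact h4

end sunits

variable {𝒰 : Ultrafilter ℕ}

/-- germs of units are powers of germs of units -/
theorem rootB (u : (GB 𝒰)ˣ) (hu : u ∈ WB 𝒰) (E : ℕ) (hE : 0 < E) : ∃ w ∈ WB 𝒰, w ^ E = u := by
  classical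
  obtain ⟨M, _, _, _, τ, D, z, h1, h2, -⟩ := common (ι := Fin 2)
    ![(u : GB 𝒰), ((u⁻¹ : (GB 𝒰)ˣ) : GB 𝒰)] (by
      intro i
      fin_cases i
      · exact hu.1
      · exact hu.2) ∅ (by simp)
  have hz0 : thB 𝒰 τ (z 0) = u := h2 0
  have hz1 : thB 𝒰 τ (z 1) = ((u⁻¹ : (GB 𝒰)ˣ) : GB 𝒰) := h2 1
  have hzz : z 0 * z 1 = 1 := by
    apply thB_inj τ
    rw [map_mul, hz0, hz1, map_one]
    exact Units.mul_inv u
  -- a finite set of primes
  have hS : ∀ i, ∃ S : Set (HeightOneSpectrum (𝓞 M)), S.Finite ∧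
      ∀ᶠ t in (𝒰 : Filter ℕ), ∀ w, w ∉ S → fv w (rep (K := M) (𝒰 := 𝒰) (z i) t) ≤ 1 := by
    intro i
    obtain ⟨c, hc, h⟩ := (mem_TIR D 𝒰 (z i)).1 (h1 i)
    have hcM : (c : M) ≠ 0 := RingOfIntegers.coe_ne_zero_iff.2 hc
    refine ⟨Set.range D.P ∪ HeightOneSpectrum.Support (𝓞 M) ((c : M)⁻¹),
      (Set.finite_range _).union (HeightOneSpectrum.Support.finite _ _), ?_⟩
    filter_upwards [h] with t ht w hw
    have h1 : w ∉ Set.range D.P := fun h => hw (Or.inl h)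
    have h2 : w ∉ HeightOneSpectrum.Support (𝓞 M) ((c : M)⁻¹) := fun h => hw (Or.inr h)
    have h3 := ht w (fun v hv => h1 ⟨v, hv.symm⟩)
    have h5 : 1 ≤ fv w (c : M) := by
      have h6 : ¬ (1 < w.valuation M ((c : M)⁻¹)) := h2
      have h7 := (fv_le_one_iff w _).2 (not_lt.1 h6)
      have h8 : fv w ((c : M)⁻¹) * fv w (c : M) = 1 := by
        rw [← fv_mul, inv_mul_cancel₀ hcM, fv_one]
      have h9 := fv_pos w _ hcM
      nlinarith
    rw [fv_mul] at h3
    have h7 := fv_nonneg w (rep (K := M) (𝒰 := 𝒰) (z i) t)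
    nlinarith
  choose S hSf hSi using hS
  let S0 : Set (HeightOneSpectrum (𝓞 M)) := S 0 ∪ S 1
  have hS0 : S0.Finite := (hSf 0).union (hSf 1)
  obtain ⟨C, hC⟩ := sunit_root M S0 hS0 E hE
  have hgood : ∀ᶠ t in (𝒰 : Filter ℕ), ∃ x ∈ S0.unit M,
      (x : M) = rep (K := M) (𝒰 := 𝒰) (z 0) t := by
    have h3 : ∀ᶠ t in (𝒰 : Filter ℕ), rep (K := M) (𝒰 := 𝒰) (z 0) t *
        rep (K := M) (𝒰 := 𝒰) (z 1) t = 1 := by
      have h4 := Pool.Agent.Y742.AR.rep_mul (K := M) (𝒰 := 𝒰) (z 0) (z 1)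
      have h4' : ∀ᶠ t in (𝒰 : Filter ℕ), rep (K := M) (𝒰 := 𝒰) (z 0 * z 1 : BA M 𝒰) t =
        rep (K := M) (𝒰 := 𝒰) (z 0) t * rep (K := M) (𝒰 := 𝒰) (z 1) t := h4
      rw [hzz] at h4'
      have h5 : ∀ᶠ t in (𝒰 : Filter ℕ), rep (K := M) (𝒰 := 𝒰) (1 : BA M 𝒰) t = 1 :=
        Pool.Agent.Y742.AR.rep_one (K := M) (𝒰 := 𝒰)
      filter_upwards [h4', h5] with t h6 h7
      rw [← h6, h7]
    filter_upwards [h3, hSi 0, hSi 1] with t h4 h5 h6
    refine ⟨⟨_, _, h4, by rw [mul_comm]; exact h4⟩, ?_, rfl⟩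
    intro w hw
    have h7 := h5 w (fun h => hw (Or.inl h))
    have h8 := h6 w (fun h => hw (Or.inr h))
    have h9 := (fv_le_one_iff w _).1 h7
    have h10 := (fv_le_one_iff w _).1 h8
    apply le_antisymm h9
    by_contra hcon
    push Not at hcon
    have h11 : w.valuation M (rep (K := M) (𝒰 := 𝒰) (z 0) t) *
        w.valuation M (rep (K := M) (𝒰 := 𝒰) (z 1) t) = 1 := by
      rw [← map_mul, h4, map_one]
    have h12 := mul_lt_one_of_lt_of_le hcon h10
    exact h12.ne h11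
  have hsel : ∀ t : ℕ, ∃ (c : C) (v : Mˣ), v ∈ S0.unit M ∧
      ((∃ x ∈ S0.unit M, (x : M) = rep (K := M) (𝒰 := 𝒰) (z 0) t) →
        rep (K := M) (𝒰 := 𝒰) (z 0) t = (c.1 : M) * (v : M) ^ E) := by
    intro t
    by_cases h : ∃ x ∈ S0.unit M, (x : M) = rep (K := M) (𝒰 := 𝒰) (z 0) t
    · obtain ⟨x, hx, hxt⟩ := h
      obtain ⟨c, hc, v, hv, hxv⟩ := hC x hx
      refine ⟨⟨c, hc⟩, v, hv, fun _ => ?_⟩
      rw [← hxt, hxv, Units.val_mul, Units.val_pow_eq_pow_val]
    · obtain ⟨c, hc, -⟩ := hC 1 (Subgroup.one_mem _)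
      exact ⟨⟨c, hc⟩, 1, Subgroup.one_mem _, fun h' => absurd h' h⟩
  choose c v hv hcv using hsel
  obtain ⟨c0, hc0⟩ := eventually_const (𝒰 := 𝒰) c
  obtain ⟨γ, hγ⟩ := IsAlgClosed.exists_pow_nat_eq (toQ' τ (c0.1 : M)) hE
  have hγ0 : γ ≠ 0 := by
    rintro rfl
    rw [zero_pow hE.ne'] at hγ
    have h3 : (toQ' τ (c0.1 : M)) ≠ 0 := (map_ne_zero _).2 (Units.ne_zero _)
    exact h3 hγ.symm
  have hA : ∀ f : ℕ → Mˣ, (∀ t, f t ∈ S0.unit M) → (gb 𝒰 fun t => τ (f t)) ∈ AI 𝒰 := by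
    intro f hf
    refine ⟨M, inferInstance, inferInstance, τ, S0, hS0, fun t => f t, fun t => ?_, rfl⟩
    intro w hw
    exact (hf t w hw).le
  let w0 : (GB 𝒰)ˣ :=
    { val := gb 𝒰 fun t => τ (v t)
      inv := gb 𝒰 fun t => τ ((v t)⁻¹ : Mˣ)
      val_inv := by
        rw [← map_mul, ← map_one (gb 𝒰)]
        congr 1
        funext t
        show τ (v t) * τ ((v t)⁻¹ : Mˣ) = 1
        rw [← map_mul, Units.mul_inv, map_one]
      inv_val := by
        rw [← map_mul, ← map_one (gb 𝒰)]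
        congr 1
        funext t
        show τ ((v t)⁻¹ : Mˣ) * τ (v t) = 1
        rw [← map_mul, Units.inv_mul, map_one] }
  have hw0 : w0 ∈ WB 𝒰 := ⟨hA v hv, hA (fun t => (v t)⁻¹) fun t => Subgroup.inv_mem _ (hv t)⟩
  let k0 : (GB 𝒰)ˣ := Units.map (algebraMap Qb (GB 𝒰) : Qb →* GB 𝒰) (Units.mk0 γ hγ0)
  have hk0 : k0 ∈ WB 𝒰 := by
    constructor
    · exact (AI 𝒰).algebraMap_mem γ
    · have h3 : ((k0⁻¹ : (GB 𝒰)ˣ) : GB 𝒰) = algebraMap Qb (GB 𝒰) γ⁻¹ := by
        rw [Units.val_inv_eq_inv_val]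
        show (algebraMap Qb (GB 𝒰) γ)⁻¹ = _
        rw [map_inv₀]
      rw [h3]
      exact (AI 𝒰).algebraMap_mem _
  refine ⟨k0 * w0, mul_mem hk0 hw0, ?_⟩
  apply Units.ext
  rw [mul_pow, Units.val_mul, Units.val_pow_eq_pow_val, Units.val_pow_eq_pow_val]
  have h3 : (k0 : GB 𝒰) ^ E = gb 𝒰 fun _ => τ (c0.1 : M) := by
    show (algebraMap Qb (GB 𝒰) γ) ^ E = _
    rw [← map_pow, hγ]
    rfl
  have h4 : (w0 : GB 𝒰) ^ E = gb 𝒰 fun t => τ (v t) ^ E := by
    show (gb 𝒰 fun t => τ (v t)) ^ E = _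
    rw [← map_pow]
    rfl
  rw [h3, h4, ← map_mul, ← hz0, thB_apply, gb_eq]
  filter_upwards [hc0, hgood] with t h5 h6
  have h7 := hcv t h6
  rw [h5] at h7
  show τ (c0.1 : M) * τ (v t) ^ E = _
  rw [h7, map_mul, map_pow]

end Pool.Agent.H21bl.CC
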