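import Mathlib
import Pool.Agent.H21bl.CC.KeyB
import Pool.Agent.H21bl.CC.RootS
import Pool.Agent.N754.LT.Grp

/-!
Bases of groups of germs of units, and the algebra spanned by the germs of units.
-/

set_option autoImplicit false
set_option linter.unusedSectionVars false

open Finset Filter

namespace Pool.Agent.H21bl.CC

open Pool.Agent.N754.LT

variable {𝒰 : Ultrafilter ℕ}

/-- constants -/
def CB (𝒰 : Ultrafilter ℕ) : Subgroup (WB 𝒰) where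
  carrier := {g | ∃ c : Qb, ((g : (GB 𝒰)ˣ) : GB 𝒰) = algebraMap Qb (GB 𝒰) c}
  mul_mem' := by
    rintro a b ⟨c, hc⟩ ⟨d, hd⟩
    refine ⟨c * d, ?_⟩
    rw [map_mul, ← hc, ← hd]
    rfl
  one_mem' := ⟨1, by rw [map_one]; rfl⟩
  inv_mem' := by
    rintro a ⟨c, hc⟩
    refine ⟨c⁻¹, ?_⟩
    rw [map_inv₀, ← hc]
    exact Units.val_inv_eq_inv_val _

theorem mem_CB (g : WB 𝒰) : g ∈ CB 𝒰 ↔
    ∃ c : Qb, ((g : (GB 𝒰)ˣ) : GB 𝒰) = algebraMap Qb (GB 𝒰) c := Iff.rfl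

theorem basisB {ι : Type} [Finite ι] (u : ι → (GB 𝒰)ˣ) (hu : ∀ i, u i ∈ WB 𝒰) :
    ∃ (r : ℕ) (w : Fin r → (GB 𝒰)ˣ) (a : ι → Fin r → ℤ) (c : ι → Qb), (∀ j, w j ∈ WB 𝒰) ∧
      (∀ i, (u i : GB 𝒰) = algebraMap Qb (GB 𝒰) (c i) * (mo w (a i) : GB 𝒰)) ∧
      (∀ b : Fin r → ℤ, b ≠ 0 → ∀ c : Qb, (mo w b : GB 𝒰) ≠ algebraMap Qb (GB 𝒰) c) ∧
      (∀ j, Pi.single j 1 ∈ Submodule.span ℤ (Set.range a)) := by
  obtain ⟨r, w, a, c, h1, h2, h3, h4⟩ := exists_basis (CB 𝒰) (by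
    rintro g n hn ⟨c, hc⟩
    exact tfB _ n hn c (by
      rw [← hc]
      simp)) (fun i => (⟨u i, hu i⟩ : WB 𝒰))
  have hmo : ∀ b : Fin r → ℤ, ((∏ j, w j ^ b j : WB 𝒰) : (GB 𝒰)ˣ) =
      mo (fun j => ((w j : WB 𝒰) : (GB 𝒰)ˣ)) b := by
    intro b
    unfold mo
    exact map_prod (Subgroup.subtype (WB 𝒰)) _ _
  choose c' hc' using fun i => (mem_CB (c i)).1 (h1 i)
  refine ⟨r, fun j => (w j : (GB 𝒰)ˣ), a, c', fun j => (w j).2, fun i => ?_, fun b hb c hc => ?_, h4⟩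
  · rw [← hc', ← hmo, ← Units.val_mul]
    have h5 := congrArg (fun g : WB 𝒰 => ((g : (GB 𝒰)ˣ) : GB 𝒰)) (h2 i)
    exact h5
  · apply hb
    apply h3
    rw [mem_CB]
    exact ⟨c, by rw [hmo]; exact hc⟩

/-- the algebra spanned by the germs of units -/
noncomputable def SW (𝒰 : Ultrafilter ℕ) : Subalgebra Qb (GB 𝒰) :=
  Algebra.adjoin Qb {x | ∃ u ∈ WB 𝒰, (u : GB 𝒰) = x}

theorem unit_mem_SW (u : (GB 𝒰)ˣ) (hu : u ∈ WB 𝒰) : (u : GB 𝒰) ∈ SW 𝒰 :=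
  Algebra.subset_adjoin ⟨u, hu, rfl⟩

theorem ev_mem_SW {r : ℕ} (w : Fin r → (GB 𝒰)ˣ) (hw : ∀ j, w j ∈ WB 𝒰) (p : La Qb r) :
    ev w p ∈ SW 𝒰 := by
  rw [ev_apply]
  exact sum_mem fun b _ => (SW 𝒰).smul_mem (unit_mem_SW _ (mo_mem w hw b)) _

theorem sw_sum {x : GB 𝒰} (hx : x ∈ SW 𝒰) : ∃ (m : ℕ) (g : Fin m → (GB 𝒰)ˣ) (c : Fin m → Qb),
    (∀ i, g i ∈ WB 𝒰) ∧ x = ∑ i, c i • (g i : GB 𝒰) := by
  classical
  have h1 : x ∈ Submodule.span Qb {x | ∃ u ∈ WB 𝒰, (u : GB 𝒰) = x} := by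
    have h2 : x ∈ Subalgebra.toSubmodule (SW 𝒰) := hx
    unfold SW at h2
    rw [Algebra.adjoin_eq_span] at h2
    have h3 : ((Submonoid.closure {x | ∃ u ∈ WB 𝒰, (u : GB 𝒰) = x} : Submonoid (GB 𝒰)) :
        Set (GB 𝒰)) = {x | ∃ u ∈ WB 𝒰, (u : GB 𝒰) = x} := by
      apply le_antisymm
      · have h4 : Submonoid.closure {x | ∃ u ∈ WB 𝒰, (u : GB 𝒰) = x} ≤
            Submonoid.map (Units.coeHom (GB 𝒰)) (WB 𝒰).toSubmonoid := by
          rw [Submonoid.closure_le]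
          rintro _ ⟨u, hu, rfl⟩
          exact ⟨u, hu, rfl⟩
        rintro y hy
        obtain ⟨u, hu, rfl⟩ := h4 hy
        exact ⟨u, hu, rfl⟩
      · exact Submonoid.subset_closure
    rw [h3] at h2
    exact h2
  obtain ⟨m, c, g, hg⟩ := Submodule.mem_span_set'.1 h1
  choose g' hg' hg'' using fun i => (g i).2
  refine ⟨m, g', c, hg', ?_⟩
  rw [← hg]
  exact Finset.sum_congr rfl fun i _ => by rw [hg'']

/-- finitely many elements are Laurent polynomials in independent units -/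
theorem sw_rep {ι : Type} [Finite ι] (x : ι → GB 𝒰) (hx : ∀ i, x i ∈ SW 𝒰) :
    ∃ (r : ℕ) (w : Fin r → (GB 𝒰)ˣ) (P : ι → La Qb r), (∀ j, w j ∈ WB 𝒰) ∧
      (∀ b : Fin r → ℤ, b ≠ 0 → ∀ c : Qb, (mo w b : GB 𝒰) ≠ algebraMap Qb (GB 𝒰) c) ∧
      ∀ i, x i = ev w (P i) := by
  classical
  choose m g c hg hx using fun i => sw_sum (hx i)
  obtain ⟨r, w, a, d, h1, h2, h3, -⟩ := basisB (ι := Σ i, Fin (m i)) (fun p => g p.1 p.2)
    (fun p => hg p.1 p.2)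
  refine ⟨r, w, fun i => ∑ j, AddMonoidAlgebra.single (a ⟨i, j⟩) (c i j * d ⟨i, j⟩), h1, h3,
    fun i => ?_⟩
  rw [hx i, map_sum]
  refine Finset.sum_congr rfl fun j _ => ?_
  rw [ev_single, h2 ⟨i, j⟩, Algebra.smul_def, Algebra.smul_def, map_mul]
  ring

/-- vectors which are pairwise dependent and span have length at most one -/
theorem rank_le {ι : Type} {r : ℕ} (a : ι → Fin r → ℤ)
    (hspan : ∀ j, Pi.single j 1 ∈ Submodule.span ℤ (Set.range a))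
    (hdep : ∀ i i', ∃ m m' : ℤ, (m ≠ 0 ∨ m' ≠ 0) ∧ m • a i + m' • a i' = 0) : r ≤ 1 := by
  classical
  by_contra hr
  push Not at hr
  let j0 : Fin r := ⟨0, by omega⟩
  let j1 : Fin r := ⟨1, hr⟩
  have hj : j0 ≠ j1 := fun h => by
    have := congrArg Fin.val h
    simp [j0, j1] at this
  have h0 : ∃ i, a i ≠ 0 := by
    by_contra hcon
    push Not at hcon
    have h1 : Submodule.span ℤ (Set.range a) ≤ ⊥ := by
      rw [Submodule.span_le]
      rintro _ ⟨i, rfl⟩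
      exact hcon i
    have h2 := congrFun ((Submodule.mem_bot ℤ).1 (h1 (hspan j0))) j0
    rw [Pi.single_eq_same] at h2
    exact one_ne_zero h2
  obtain ⟨i0, hi0⟩ := h0
  have hprop : ∀ i, ∀ j j', a i0 j * a i j' = a i0 j' * a i j := by
    intro i j j'
    obtain ⟨m, m', hm, h⟩ := hdep i0 i
    have hm' : m' ≠ 0 := by
      rintro rfl
      rw [zero_smul, add_zero] at h
      rcases smul_eq_zero.1 h with h1 | h1
      · exact hm.elim (fun h => h h1) fun h => h rfl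
      · exact hi0 h1
    have e1 := congrFun h j
    have e2 := congrFun h j'
    simp only [Pi.add_apply, Pi.smul_apply, smul_eq_mul, Pi.zero_apply] at e1 e2
    apply mul_left_cancel₀ hm'
    linear_combination (a i0 j) * e2 - (a i0 j') * e1
  have hall : ∀ x ∈ Submodule.span ℤ (Set.range a), ∀ j j', a i0 j * x j' = a i0 j' * x j := by
    intro x hx j j'
    refine Submodule.span_induction ?_ ?_ ?_ ?_ hx
    · rintro _ ⟨i, rfl⟩
      exact hprop i j j'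
    · simp
    · intro x y _ _ h1 h2
      rw [Pi.add_apply, Pi.add_apply, mul_add, mul_add, h1, h2]
    · intro c x _ h1
      rw [Pi.smul_apply, Pi.smul_apply, smul_eq_mul, smul_eq_mul]
      linear_combination c * h1
  apply hi0
  funext j
  show a i0 j = 0
  by_cases hjj : j = j0
  · have h1 := hall _ (hspan j1) j j1
    rw [Pi.single_eq_same, Pi.single_eq_of_ne (by rw [hjj]; exact hj), mul_one, mul_zero] at h1
    exact h1
  · have h1 := hall _ (hspan j0) j j0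
    rw [Pi.single_eq_same, Pi.single_eq_of_ne hjj, mul_one, mul_zero] at h1
    exact h1

end Pool.Agent.H21bl.CC
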