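import Mathlib
import Pool.Agent.H21bl.CC.Rank
import Pool.Agent.H21bl.CC.Form

/-!
Roots of polynomials in two units.
-/

set_option autoImplicit false
set_option linter.unusedSectionVars false

open Finset Filter

namespace Pool.Agent.H21bl.CC

open Pool.Agent.N754.LT

theorem dep1 (c v v' : Fin 2 → ℤ) (hc : c ≠ 0) :
    ∃ m m' n : ℤ, (m ≠ 0 ∨ m' ≠ 0) ∧ m • v + m' • v' = n • c := by
  obtain ⟨i, hi⟩ := Function.ne_iff.1 hc
  rw [Pi.zero_apply] at hi
  by_cases hD : c 0 * v 1 - c 1 * v 0 = 0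
  · refine ⟨c i, 0, v i, Or.inl hi, ?_⟩
    funext j
    rw [Pi.add_apply, Pi.smul_apply, Pi.smul_apply, Pi.smul_apply, smul_eq_mul, smul_eq_mul,
      smul_eq_mul]
    fin_cases i <;> fin_cases j <;> simp only [Fin.zero_eta, Fin.mk_one, Fin.isValue] <;>
      linarith
  · refine ⟨c i * (c 0 * v' 1 - c 1 * v' 0), -(c i * (c 0 * v 1 - c 1 * v 0)),
      (c 0 * v' 1 - c 1 * v' 0) * v i - (c 0 * v 1 - c 1 * v 0) * v' i, Or.inr ?_, ?_⟩
    · exact neg_ne_zero.2 (mul_ne_zero hi hD)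
    · funext j
      rw [Pi.add_apply, Pi.smul_apply, Pi.smul_apply, Pi.smul_apply, smul_eq_mul, smul_eq_mul,
        smul_eq_mul]
      fin_cases i <;> fin_cases j <;> simp only [Fin.zero_eta, Fin.mk_one, Fin.isValue] <;>
        ring

theorem dep2 (θ : Fin 2 → ℝ) (v v' : Fin 2 → ℤ) (hθ : θ ≠ 0) (h : ∑ j, θ j * v j = 0)
    (h' : ∑ j, θ j * v' j = 0) :
    ∃ m m' : ℤ, (m ≠ 0 ∨ m' ≠ 0) ∧ m • v + m' • v' = 0 := by
  rw [Fin.sum_univ_two] at h h'
  have hdet : v 0 * v' 1 = v 1 * v' 0 := by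
    have h1 : ((v 0 * v' 1 : ℤ) : ℝ) = ((v 1 * v' 0 : ℤ) : ℝ) := by
      push_cast
      obtain ⟨i, hi⟩ := Function.ne_iff.1 hθ
      rw [Pi.zero_apply] at hi
      fin_cases i
      · apply mul_left_cancel₀ hi
        simp only [Fin.zero_eta, Fin.isValue]
        linear_combination (v' 1 : ℝ) * h - (v 1 : ℝ) * h'
      · apply mul_left_cancel₀ hi
        simp only [Fin.mk_one, Fin.isValue]
        linear_combination (v 0 : ℝ) * h' - (v' 0 : ℝ) * h
    exact_mod_cast h1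
  by_cases hv : v = 0
  · exact ⟨1, 0, Or.inl one_ne_zero, by rw [hv, smul_zero, zero_smul, add_zero]⟩
  · obtain ⟨i, hi⟩ := Function.ne_iff.1 hv
    rw [Pi.zero_apply] at hi
    refine ⟨-v' i, v i, Or.inr hi, ?_⟩
    funext j
    rw [Pi.add_apply, Pi.smul_apply, Pi.smul_apply, smul_eq_mul, smul_eq_mul, Pi.zero_apply]
    fin_cases i <;> fin_cases j <;> simp only [Fin.zero_eta, Fin.mk_one, Fin.isValue] <;>
      linarith

variable {𝒰 : Ultrafilter ℕ}

theorem mo_zsmul {R : Type} [CommRing R] {r : ℕ} (s : Fin r → Rˣ) (n : ℤ) (b : Fin r → ℤ) :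
    mo s (n • b) = mo s b ^ n := by
  unfold mo
  rw [← Finset.prod_zpow]
  refine Finset.prod_congr rfl fun j _ => ?_
  rw [Pi.smul_apply, smul_eq_mul, mul_comm, zpow_mul]

theorem dep (ρ : Fin 2 → (GB 𝒰)ˣ) (H : MvPolynomial (Fin 2) Qb)
    (hor : (∃ c : Fin 2 → ℤ, c ≠ 0 ∧ ∃ d : Qb, (mo ρ c : GB 𝒰) = algebraMap Qb (GB 𝒰) d) ∨
      ∃ θ : Fin 2 → ℝ, θ ≠ 0 ∧ initialForm θ H = H) (b0 b b' : Fin 2 →₀ ℕ) (hb0 : b0 ∈ H.support)
    (hb : b ∈ H.support) (hb' : b' ∈ H.support) :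
    ∃ m m' : ℤ, (m ≠ 0 ∨ m' ≠ 0) ∧ ∃ d : Qb,
      (mo ρ (m • (ex 1 b - ex 1 b0) + m' • (ex 1 b' - ex 1 b0)) : GB 𝒰) =
        algebraMap Qb (GB 𝒰) d := by
  classical
  rcases hor with ⟨c, hc, d, hd⟩ | ⟨θ, hθ, hH⟩
  · obtain ⟨m, m', n, hm, h⟩ := dep1 c (ex 1 b - ex 1 b0) (ex 1 b' - ex 1 b0) hc
    refine ⟨m, m', hm, d ^ n, ?_⟩
    rw [h, mo_zsmul, Units.val_zpow_eq_zpow_val, hd, map_zpow₀]
  · have h1 : ∀ b ∈ H.support, IsTop θ H b := by
      intro b hb
      by_contra hcon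
      have h2 := coeff_initialForm θ H b
      rw [if_neg hcon, hH] at h2
      exact (MvPolynomial.mem_support_iff.1 hb) h2
    have h2 : ∀ b ∈ H.support, ∑ j, θ j * ((ex 1 b - ex 1 b0) j : ℝ) = 0 := by
      intro b hb
      have h3 := (h1 b hb).2 b0 hb0
      have h4 := (h1 b0 hb0).2 b hb
      have h5 : ∑ j, θ j * ((ex 1 b - ex 1 b0) j : ℝ) = ∑ j, θ j * b j - ∑ j, θ j * b0 j := by
        rw [← Finset.sum_sub_distrib]
        refine Finset.sum_congr rfl fun j _ => ?_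
        rw [Pi.sub_apply]
        simp only [ex]
        push_cast
        ring
      rw [h5]
      linarith
    obtain ⟨m, m', hm, h⟩ := dep2 θ (ex 1 b - ex 1 b0) (ex 1 b' - ex 1 b0) hθ (h2 b hb) (h2 b' hb')
    refine ⟨m, m', hm, 1, ?_⟩
    rw [h, mo_zero, Units.val_one, map_one]

/-- one variable: the faces are monomials -/
theorem face_one (e : ℕ) (he : 0 < e) (F : La Qb 1)
    (hF : ∀ b ∈ F.coeff.support, ∃ a : Fin 1 → ℤ, b = e • a) (θ : Fin 1 → ℝ) (hθ : θ ≠ 0) :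
    ∃ P : La Qb 1, P ^ e = restr F (face F.coeff.support θ) := by
  classical
  have hθ0 : θ 0 ≠ 0 := by
    intro h
    apply hθ
    funext j
    rw [Subsingleton.elim j 0]
    exact h
  rcases (face F.coeff.support θ).eq_empty_or_nonempty with h | ⟨b, hb⟩
  · refine ⟨0, ?_⟩
    rw [h, zero_pow he.ne']
    unfold restr
    rw [Finset.sum_empty]
  · have h1 : face F.coeff.support θ = {b} := by
      apply Finset.eq_singleton_iff_unique_mem.2 ⟨hb, fun b' hb' => ?_⟩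
      have h2 := (mem_face.1 hb).2 b' (mem_face.1 hb').1
      have h3 := (mem_face.1 hb').2 b (mem_face.1 hb).1
      have h4 := le_antisymm h2 h3
      unfold dt at h4
      rw [Fin.sum_univ_one, Fin.sum_univ_one] at h4
      have h5 := mul_right_cancel₀ hθ0 h4
      funext j
      rw [Subsingleton.elim j 0]
      exact_mod_cast h5
    obtain ⟨a, ha⟩ := hF b (mem_face.1 hb).1
    obtain ⟨c, hc⟩ := IsAlgClosed.exists_pow_nat_eq (F.coeff b) he
    refine ⟨AddMonoidAlgebra.single a c, ?_⟩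
    rw [h1, AddMonoidAlgebra.single_pow, hc, ← ha]
    unfold restr
    rw [Finset.sum_singleton]

/-- **Roots of polynomials in two units are in the algebra spanned by the units.** -/
theorem coordB (H : MvPolynomial (Fin 2) Qb) (e : ℕ) (he : 0 < e) (μ : Fin 2 → ℝ)
    (hH : ∀ θ : Fin 2 → ℝ, ∑ j, μ j * θ j ≤ 0 → initialForm θ H = H ∨
      ∃ (b : Fin 2 →₀ ℕ) (c : Qb) (P : MvPolynomial (Fin 2) Qb),
        initialForm θ H = MvPolynomial.monomial b c * P ^ e)
    (A B C : (GB 𝒰)ˣ) (hA : A ∈ WB 𝒰) (hB : B ∈ WB 𝒰) (hC : C ∈ WB 𝒰) (y : GB 𝒰) (hy : y ∈ AI 𝒰)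
    (h : y ^ e = (A : GB 𝒰) * MvPolynomial.aeval ![(B : GB 𝒰), (C : GB 𝒰)] H) : y ∈ SW 𝒰 := by
  classical
  obtain ⟨ν, hν, rfl⟩ := rootB A hA e he
  obtain ⟨β, hβ, rfl⟩ := rootB B hB e he
  obtain ⟨γ, hγ, rfl⟩ := rootB C hC e he
  let ρ : Fin 2 → (GB 𝒰)ˣ := ![β, γ]
  have hρ : ∀ j, ρ j ∈ WB 𝒰 := by
    intro j
    fin_cases j
    · exact hβ
    · exact hγ
  have hevρ : (ev ρ).comp (le (k := Qb) e) =
      MvPolynomial.aeval ![((β ^ e : (GB 𝒰)ˣ) : GB 𝒰), ((γ ^ e : (GB 𝒰)ˣ) : GB 𝒰)] := by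
    apply MvPolynomial.algHom_ext
    intro j
    rw [AlgHom.comp_apply, MvPolynomial.aeval_X]
    unfold le
    rw [MvPolynomial.aeval_X, ev_single, one_smul]
    have h1 : mo ρ (Pi.single j (e : ℤ)) = ρ j ^ e := by
      unfold mo
      rw [Finset.prod_eq_single j]
      · rw [Pi.single_eq_same, zpow_natCast]
      · intro i _ hi
        rw [Pi.single_eq_of_ne hi, zpow_zero]
      · intro h
        exact absurd (Finset.mem_univ _) h
    rw [h1]
    fin_cases j <;> rfl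
  -- divide by `ν`
  let y1 : GB 𝒰 := ((ν⁻¹ : (GB 𝒰)ˣ) : GB 𝒰) * y
  have hy1 : y1 ∈ AI 𝒰 := mul_mem hν.2 hy
  have hy1e : y1 ^ e = ev ρ (le e H) := by
    have h1 : ev ρ (le e H) = ((ev ρ).comp (le (k := Qb) e)) H := rfl
    rw [h1, hevρ]
    simp only [y1]
    rw [mul_pow, h, ← mul_assoc, ← Units.val_pow_eq_pow_val, ← Units.val_mul, inv_pow,
      inv_mul_cancel, Units.val_one, one_mul]
  have hfin : y1 ∈ SW 𝒰 → y ∈ SW 𝒰 := by
    intro h1
    have h2 : y = (ν : GB 𝒰) * y1 := by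
      simp only [y1]
      rw [← mul_assoc, Units.mul_inv, one_mul]
    rw [h2]
    exact mul_mem (unit_mem_SW ν hν) h1
  apply hfin
  by_cases hor : (∃ c : Fin 2 → ℤ, c ≠ 0 ∧ ∃ d : Qb, (mo ρ c : GB 𝒰) = algebraMap Qb (GB 𝒰) d) ∨
      ∃ θ : Fin 2 → ℝ, θ ≠ 0 ∧ initialForm θ H = H
  · -- rank at most one
    by_cases hH0 : H = 0
    · rw [hH0, map_zero, map_zero] at hy1e
      rw [pow_eq_zero_iff he.ne'] at hy1e
      rw [hy1e]
      exact zero_mem _
    obtain ⟨b0, hb0⟩ := MvPolynomial.support_nonempty.2 hH0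
    obtain ⟨r, w, a, c, hw, huw, hwne, hspan⟩ := basisB (ι := H.support)
      (fun b => mo ρ (ex 1 b.1 - ex 1 b0)) (fun b => mo_mem ρ hρ _)
    have hr : r ≤ 1 := by
      refine rank_le a hspan fun b b' => ?_
      obtain ⟨m, m', hm, d, hd⟩ := dep ρ H hor b0 b.1 b'.1 hb0 b.2 b'.2
      refine ⟨m, m', hm, ?_⟩
      by_contra hne
      have hcb : ∀ b, c b ≠ 0 := by
        intro b hb
        have h1 := huw b
        rw [hb, map_zero, zero_mul] at h1
        exact Units.ne_zero _ h1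
      refine hwne _ hne (d * (c b ^ m)⁻¹ * (c b' ^ m')⁻¹) ?_
      rw [mo_add, mo_zsmul, mo_zsmul, Units.val_mul, Units.val_zpow_eq_zpow_val,
        Units.val_zpow_eq_zpow_val, huw, huw] at hd
      rw [mo_add, mo_zsmul, mo_zsmul, Units.val_mul, Units.val_zpow_eq_zpow_val,
        Units.val_zpow_eq_zpow_val, map_mul, map_mul, ← hd, map_inv₀, map_inv₀, map_zpow₀,
        map_zpow₀, mul_zpow, mul_zpow]
      have h1 : (algebraMap Qb (GB 𝒰)) (c b) ^ m ≠ 0 :=
        zpow_ne_zero _ ((map_ne_zero _).2 (hcb b))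
      have h2 : (algebraMap Qb (GB 𝒰)) (c b') ^ m' ≠ 0 :=
        zpow_ne_zero _ ((map_ne_zero _).2 (hcb b'))
      field_simp
    let y2 : GB 𝒰 := (((mo ρ (ex 1 b0))⁻¹ : (GB 𝒰)ˣ) : GB 𝒰) * y1
    have hmo : mo ρ (ex 1 b0) ∈ WB 𝒰 := mo_mem ρ hρ _
    have hy2 : y2 ∈ AI 𝒰 := mul_mem hmo.2 hy1
    let F : La Qb r := ∑ b : H.support, AddMonoidAlgebra.single (e • a b) (H.coeff b.1 * c b ^ e)
    have hy2e : y2 ^ e = ev w F := by
      simp only [y2, F]
      rw [mul_pow, hy1e, le_eq, map_sum, map_sum, Finset.mul_sum, ← Finset.sum_coe_sort]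
      refine Finset.sum_congr rfl fun b _ => ?_
      rw [ev_single, ev_single, Algebra.smul_def, Algebra.smul_def, map_mul, map_pow]
      have h1 : mo ρ (ex e b.1) = mo ρ (ex 1 b0) ^ e * mo ρ (ex 1 b.1 - ex 1 b0) ^ e := by
        rw [← mul_pow, ← mo_add, add_sub_cancel, ← zpow_natCast, ← mo_zsmul]
        congr 1
        funext j
        simp only [ex, Pi.smul_apply, smul_eq_mul]
        push_cast
        ring
      have h2 : mo w (e • a b) = mo w (a b) ^ e := by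
        rw [← zpow_natCast, ← mo_zsmul]
        congr 1
      rw [h1, h2, Units.val_mul, Units.val_pow_eq_pow_val, Units.val_pow_eq_pow_val, huw, mul_pow,
        Units.val_pow_eq_pow_val]
      have h3 : (((mo ρ (ex 1 b0))⁻¹ : (GB 𝒰)ˣ) : GB 𝒰) ^ e * (mo ρ (ex 1 b0) : GB 𝒰) ^ e = 1 := by
        rw [← mul_pow, Units.inv_mul, one_pow]
      linear_combination ((algebraMap Qb (GB 𝒰)) (MvPolynomial.coeff (b.1) H) *
        ((algebraMap Qb (GB 𝒰)) (c b) ^ e * (mo w (a b) : GB 𝒰) ^ e)) * h3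
    have hsupp : ∀ b ∈ F.coeff.support, ∃ a' : Fin r → ℤ, b = e • a' := by
      intro b hb
      by_contra hcon
      push Not at hcon
      rw [Finsupp.mem_support_iff] at hb
      apply hb
      simp only [F]
      rw [AddMonoidAlgebra.coeff_sum, Finsupp.finsetSum_apply]
      simp only [AddMonoidAlgebra.coeff_single, Finsupp.single_apply]
      refine Finset.sum_eq_zero fun b' _ => ?_
      rw [if_neg fun h => hcon (a b') h.symm]
    have hfin2 : y2 ∈ SW 𝒰 → y1 ∈ SW 𝒰 := by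
      intro h1
      have h2 : y1 = (mo ρ (ex 1 b0) : GB 𝒰) * y2 := by
        simp only [y2]
        rw [← mul_assoc, Units.mul_inv, one_mul]
      rw [h2]
      exact mul_mem (unit_mem_SW _ hmo) h1
    apply hfin2
    rcases Nat.eq_zero_or_pos r with hr0 | hr0
    · subst hr0
      obtain ⟨d, hd⟩ := tfB y2 e he (∑ b ∈ F.coeff.support, F.coeff b) (by
        rw [hy2e, ev_apply, map_sum]
        refine Finset.sum_congr rfl fun b _ => ?_
        rw [Algebra.smul_def]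
        have h1 : mo w b = 1 := by
          unfold mo
          exact Finset.prod_of_isEmpty _
        rw [h1, Units.val_one, mul_one])
      rw [hd]
      exact (SW 𝒰).algebraMap_mem d
    · have hr1 : r = 1 := by omega
      subst hr1
      obtain ⟨P, hP⟩ := keyB hr0 w hw hwne F y2 hy2 e he hy2e 0
        (fun θ hθ _ => face_one e he F hsupp θ hθ)
      rw [hP]
      exact ev_mem_SW w hw P
  · push Not at hor
    obtain ⟨h1, h2⟩ := hor
    obtain ⟨P, hP⟩ := keyB (r := 2) two_pos ρ hρ (fun b hb c hc => h1 b hb c hc) (le e H) y1 hy1 e he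
      hy1e μ (by
        intro θ hθ hμ
        rw [face_le he]
        rcases hH θ hμ with h3 | ⟨b, c, P, h3⟩
        · exact absurd h3 (h2 θ hθ)
        · obtain ⟨c', hc'⟩ := IsAlgClosed.exists_pow_nat_eq c he
          refine ⟨AddMonoidAlgebra.single (ex 1 b) c' * le e P, ?_⟩
          rw [h3, map_mul, map_pow, le_monomial, mul_pow, AddMonoidAlgebra.single_pow, hc']
          congr 2
          funext j
          simp [ex, Pi.smul_apply])
    rw [hP]
    exact ev_mem_SW ρ hρ P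

end Pool.Agent.H21bl.CC
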