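import Mathlib
import Pool.Agent.H21bl.CC.Coord

/-!
Points of tori and one-parameter families.
-/

set_option autoImplicit false
set_option linter.unusedSectionVars false

open Finset Filter

namespace Pool.Agent.H21bl.CC

open Pool.Agent.N754.LT
open Pool.Agent.H159R3.Exp (Laur)

/-- one-parameter groups in general position -/
theorem exists_lam {r : ℕ} (T : Finset (Fin r → ℤ)) (hT : ∀ d ∈ T, d ≠ 0) :
    ∃ l : Fin r → ℤ, ∀ d ∈ T, ∑ j, l j * d j ≠ 0 := by
  classical
  induction T using Finset.induction_on with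
  | empty => exact ⟨0, fun d hd => absurd hd (Finset.notMem_empty d)⟩
  | insert d T hd ih =>
    obtain ⟨l, hl⟩ := ih fun d hd => hT d (Finset.mem_insert_of_mem hd)
    by_cases h0 : ∑ j, l j * d j = 0
    · obtain ⟨i, hi⟩ := Function.ne_iff.1 (hT d (Finset.mem_insert_self _ _))
      rw [Pi.zero_apply] at hi
      let N : ℤ := ∑ t ∈ T, |t i| + 1
      have hN : ∀ t ∈ T, |t i| < N := by
        intro t ht
        have h1 : |t i| ≤ ∑ t ∈ T, |t i| :=
          Finset.single_le_sum (f := fun t : Fin r → ℤ => |t i|) (fun _ _ => abs_nonneg _) ht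
        simp only [N]
        omega
      have hsum : ∀ t : Fin r → ℤ, ∑ j, (N * l j + (Pi.single i 1 : Fin r → ℤ) j) * t j =
          N * (∑ j, l j * t j) + t i := by
        intro t
        have h1 : ∀ j, (N * l j + (Pi.single i 1 : Fin r → ℤ) j) * t j =
            N * (l j * t j) + (Pi.single i 1 : Fin r → ℤ) j * t j := fun j => by ring
        simp only [h1]
        rw [Finset.sum_add_distrib, Finset.mul_sum]
        congr 1
        rw [Finset.sum_eq_single i]
        · rw [Pi.single_eq_same, one_mul]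
        · intro j _ hj
          rw [Pi.single_eq_of_ne hj, zero_mul]
        · intro h
          exact absurd (Finset.mem_univ _) h
      refine ⟨fun j => N * l j + (Pi.single i 1 : Fin r → ℤ) j, fun t ht => ?_⟩
      rw [hsum]
      rcases Finset.mem_insert.1 ht with rfl | ht
      · rw [h0, mul_zero, zero_add]
        exact hi
      · have h1 := hl t ht
        have h2 := hN t ht
        have h3 : 1 ≤ |∑ j, l j * t j| := Int.one_le_abs h1
        intro h4
        have h5 : N * (∑ j, l j * t j) = -t i := by linarith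
        have h6 := congrArg abs h5
        rw [abs_mul, abs_neg] at h6
        have h7 : 0 < N := lt_of_le_of_lt (abs_nonneg _) h2
        rw [abs_of_pos h7] at h6
        nlinarith
    · refine ⟨l, fun t ht => ?_⟩
      rcases Finset.mem_insert.1 ht with rfl | ht
      · exact h0
      · exact hl t ht

/-- Laurent polynomials are not constant -/
theorem laurent_ne {ι : Type} (S : Finset ι) (c : ι → ℂ) (m : ι → ℤ)
    (hinj : ∀ b ∈ S, ∀ b' ∈ S, m b = m b' → b = b') (b1 : ι) (hb1 : b1 ∈ S) (hc : c b1 ≠ 0)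
    (hm : m b1 ≠ 0) (C : ℂ) : ∃ z : ℂ, z ≠ 0 ∧ ∑ b ∈ S, c b * z ^ m b ≠ C := by
  classical
  by_contra hcon
  push Not at hcon
  obtain ⟨N, hN⟩ : ∃ N : ℕ, ∀ b ∈ S, 0 ≤ m b + N := by
    refine ⟨∑ b ∈ S, (m b).natAbs, fun b hb => ?_⟩
    have h1 : (m b).natAbs ≤ ∑ b ∈ S, (m b).natAbs :=
      Finset.single_le_sum (f := fun b => (m b).natAbs) (fun _ _ => Nat.zero_le _) hb
    omega
  let Q : Polynomial ℂ := ∑ b ∈ S, Polynomial.C (c b) * Polynomial.X ^ (m b + N).toNat -
    Polynomial.C C * Polynomial.X ^ N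
  have hQ : Q = 0 := by
    by_contra hQ
    have h1 : ∀ z : ℂ, z ≠ 0 → Q.eval z = 0 := by
      intro z hz
      simp only [Q, Polynomial.eval_sub, Polynomial.eval_finsetSum, Polynomial.eval_mul,
        Polynomial.eval_C, Polynomial.eval_pow, Polynomial.eval_X]
      rw [← hcon z hz, Finset.sum_mul, sub_eq_zero]
      refine Finset.sum_congr rfl fun b hb => ?_
      rw [mul_assoc]
      congr 1
      rw [← zpow_natCast z (m b + N).toNat, Int.toNat_of_nonneg (hN b hb), zpow_add₀ hz,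
        zpow_natCast]
    have h2 : Set.Finite {z : ℂ | Q.eval z = 0} := by
      refine (Q.roots.toFinset.finite_toSet).subset fun z hz => ?_
      rw [Finset.mem_coe, Multiset.mem_toFinset, Polynomial.mem_roots hQ]
      exact hz
    have h3 : Set.Infinite {z : ℂ | z ≠ 0} := by
      have h4 : {z : ℂ | z ≠ 0} = {0}ᶜ := rfl
      rw [h4]
      exact (Set.finite_singleton (0 : ℂ)).infinite_compl
    exact h3 (h2.subset fun z hz => h1 z hz)
  have h1 : Q.coeff (m b1 + N).toNat = c b1 := by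
    simp only [Q, Polynomial.coeff_sub, Polynomial.finsetSum_coeff, Polynomial.coeff_C_mul,
      Polynomial.coeff_X_pow]
    rw [Finset.sum_eq_single b1]
    · rw [if_pos rfl, if_neg, mul_one, mul_zero, sub_zero]
      have := hN b1 hb1
      omega
    · intro b hb hbb
      rw [if_neg, mul_zero]
      intro h2
      apply hbb
      apply hinj b hb b1 hb1
      have h3 := hN b hb
      have h4 := hN b1 hb1
      omega
    · intro h
      exact absurd hb1 h
  rw [hQ, Polynomial.coeff_zero] at h1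
  exact hc h1.symm

variable {𝒰 : Ultrafilter ℕ}

/-- representatives of germs of units -/
theorem unit_rep (w : (GB 𝒰)ˣ) :
    ∃ f : ℕ → ℂˣ, ((w : (GB 𝒰)ˣ) : GB 𝒰) = gb 𝒰 fun t => (f t : ℂ) := by
  classical
  obtain ⟨f, hf⟩ := gb_surj (w : GB 𝒰)
  obtain ⟨g, hg⟩ := gb_surj ((w⁻¹ : (GB 𝒰)ˣ) : GB 𝒰)
  have h1 : gb 𝒰 (f * g) = gb 𝒰 1 := by
    rw [map_mul, hf, hg, map_one, Units.mul_inv]
  have h2 := (gb_eq _ _).1 h1
  refine ⟨fun t => if h : f t = 0 then 1 else Units.mk0 (f t) h, ?_⟩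
  rw [← hf, gb_eq]
  filter_upwards [h2] with t ht
  have h3 : f t ≠ 0 := by
    intro h0
    rw [Pi.mul_apply, h0, zero_mul, Pi.one_apply] at ht
    exact zero_ne_one ht
  rw [dif_neg h3]
  rfl

/-- the germ of the values -/
theorem ev_rep {r : ℕ} (w : Fin r → (GB 𝒰)ˣ) (f : Fin r → ℕ → ℂˣ)
    (hf : ∀ j, (w j : GB 𝒰) = gb 𝒰 fun t => (f j t : ℂ)) (p : La Qb r) :
    ev w p = gb 𝒰 fun t => ev (fun j => f j t) p := by
  have hmo : ∀ b : Fin r → ℤ, (mo w b : GB 𝒰) = gb 𝒰 fun t => (mo (fun j => f j t) b : ℂ) := by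
    intro b
    let W : Fin r → (ℕ → ℂ)ˣ := fun j =>
      ⟨fun t => (f j t : ℂ), fun t => ((f j t)⁻¹ : ℂˣ), by
        funext t
        exact Units.mul_inv _, by
        funext t
        exact Units.inv_mul _⟩
    have h1 : ∀ j, Units.map ((gb 𝒰 : (ℕ → ℂ) →+* GB 𝒰) : (ℕ → ℂ) →* GB 𝒰) (W j) = w j := fun j =>
      Units.ext (hf j).symm
    have h2 : Units.map ((gb 𝒰 : (ℕ → ℂ) →+* GB 𝒰) : (ℕ → ℂ) →* GB 𝒰) (mo W b) = mo w b := by
      unfold mo
      rw [map_prod]
      exact Finset.prod_congr rfl fun i _ => by rw [map_zpow, h1]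
    have h3 : ∀ t, ((mo W b : (ℕ → ℂ)ˣ) : ℕ → ℂ) t = (mo (fun j => f j t) b : ℂ) := by
      intro t
      have h4 : ∀ j, Units.map ((Pi.evalRingHom (fun _ : ℕ => ℂ) t : (ℕ → ℂ) →+* ℂ) :
          (ℕ → ℂ) →* ℂ) (W j) = f j t := fun j => Units.ext rfl
      have h5 : Units.map ((Pi.evalRingHom (fun _ : ℕ => ℂ) t : (ℕ → ℂ) →+* ℂ) :
          (ℕ → ℂ) →* ℂ) (mo W b) = mo (fun j => f j t) b := by
        unfold mo
        rw [map_prod]
        exact Finset.prod_congr rfl fun i _ => by rw [map_zpow, h4]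
      exact congrArg Units.val h5
    have h4 : (mo w b : GB 𝒰) = gb 𝒰 ((mo W b : (ℕ → ℂ)ˣ) : ℕ → ℂ) :=
      (congrArg Units.val h2).symm
    rw [h4]
    congr 1
    funext t
    exact h3 t
  have h1 : (fun t => ev (fun j => f j t) p) = ∑ b ∈ p.coeff.support,
      (fun _ => ((p.coeff b : Qb) : ℂ)) * (fun t => (mo (fun j => f j t) b : ℂ)) := by
    funext t
    rw [ev_apply, Finset.sum_apply]
    refine Finset.sum_congr rfl fun b _ => ?_
    rw [Algebra.smul_def]
    rfl
  rw [h1, map_sum, ev_apply]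
  refine Finset.sum_congr rfl fun b _ => ?_
  rw [map_mul, Algebra.smul_def, hmo]
  rfl

/-- the curve through a point of the torus -/
theorem torus_curve {r n : ℕ} (P : Fin n → La Qb r) (x : Fin r → ℂˣ)
    (hnc : ∃ i, ∃ b ∈ (P i).coeff.support, b ≠ 0) :
    ∃ v : ℂ → Fin n → ℂ, (∀ j, Laur fun z => v z j) ∧
      (∀ z, z ≠ 0 → ∃ x' : Fin r → ℂˣ, ∀ i, v z i = ev x' (P i)) ∧
      (v 1 = fun i => ev x (P i)) ∧ ∃ z, z ≠ 0 ∧ v z ≠ v 1 := by
  classical
  obtain ⟨i0, b1, hb1, hb10⟩ := hnc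
  let S := (P i0).coeff.support
  obtain ⟨l, hl⟩ := exists_lam ((insert b1 ((S ×ˢ S).image fun p => p.1 - p.2)).erase 0)
    (fun d hd => (Finset.mem_erase.1 hd).1)
  let xz : ℂˣ → Fin r → ℂˣ := fun z j => x j * z ^ l j
  let v : ℂ → Fin n → ℂ := fun z i =>
    if h : z = 0 then 0 else ev (xz (Units.mk0 z h)) (P i)
  have hmo : ∀ (z : ℂˣ) (b : Fin r → ℤ), mo (xz z) b = mo x b * z ^ (∑ j, l j * b j) := by
    intro z b
    unfold mo
    simp only [xz, mul_zpow, Finset.prod_mul_distrib]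
    congr 1
    rw [Finset.prod_congr rfl fun j _ => (zpow_mul z (l j) (b j)).symm]
    have hz : ∀ (s : Finset (Fin r)) (a : Fin r → ℤ), ∏ j ∈ s, z ^ a j = z ^ (∑ j ∈ s, a j) := by
      intro s a
      induction s using Finset.induction_on with
      | empty => simp
      | insert i s hi ih => rw [Finset.prod_insert hi, Finset.sum_insert hi, zpow_add, ih]
    exact hz _ _
  have hv : ∀ (z : ℂ) (hz : z ≠ 0) (i : Fin n), v z i =
      ∑ b ∈ (P i).coeff.support, ((((P i).coeff b : Qb) : ℂ) * (mo x b : ℂ)) *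
        z ^ (∑ j, l j * b j) := by
    intro z hz i
    simp only [v]
    rw [dif_neg hz, ev_apply]
    refine Finset.sum_congr rfl fun b _ => ?_
    rw [hmo, Algebra.smul_def, Units.val_mul, Units.val_zpow_eq_zpow_val, Units.val_mk0, mul_assoc]
    rfl
  refine ⟨v, fun i => ?_, fun z hz => ⟨xz (Units.mk0 z hz), fun i => ?_⟩, ?_, ?_⟩
  · have h1 : Laur fun z : ℂ => ∑ b ∈ (P i).coeff.support,
        ((((P i).coeff b : Qb) : ℂ) * (mo x b : ℂ)) * z ^ (∑ j, l j * b j) := by
      have h2 : ∀ s : Finset (Fin r → ℤ), Laur fun z : ℂ => ∑ b ∈ s,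
        ((((P i).coeff b : Qb) : ℂ) * (mo x b : ℂ)) * z ^ (∑ j, l j * b j) := by
        intro s
        induction s using Finset.induction_on with
        | empty => simpa using Laur.const (0 : ℂ)
        | insert b s hb ih =>
          simp only [Finset.sum_insert hb]
          exact ((Laur.const _).mul (Laur.zpow _)).add ih
      exact h2 _
    obtain ⟨M, Q, h2⟩ := h1
    refine ⟨M, Q, fun t ht => ?_⟩
    rw [← h2 t ht]
    show v t i * t ^ M = _
    rw [hv t ht i]
  · simp only [v]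
    rw [dif_neg hz]
  · funext i
    rw [hv 1 one_ne_zero, ev_apply]
    refine Finset.sum_congr rfl fun b _ => ?_
    rw [one_zpow, mul_one, Algebra.smul_def]
    rfl
  · obtain ⟨z, hz, hne⟩ := laurent_ne S (fun b => (((P i0).coeff b : Qb) : ℂ) * (mo x b : ℂ))
      (fun b => ∑ j, l j * b j) (by
        intro b hb b' hb' hbb
        by_contra hne
        refine hl (b - b') ?_ ?_
        · exact Finset.mem_erase.2 ⟨sub_ne_zero.2 hne, Finset.mem_insert_of_mem
            (Finset.mem_image.2 ⟨(b, b'), Finset.mem_product.2 ⟨hb, hb'⟩, rfl⟩)⟩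
        · have h1 : ∀ j, l j * (b - b') j = l j * b j - l j * b' j := fun j => by
            rw [Pi.sub_apply]
            ring
          simp only [h1]
          rw [Finset.sum_sub_distrib, sub_eq_zero]
          exact hbb) b1 hb1 (mul_ne_zero (by
          have h1 := Finsupp.mem_support_iff.1 hb1
          exact fun h => h1 (Subtype.ext h)) (Units.ne_zero _))
      (hl b1 (Finset.mem_erase.2 ⟨hb10, Finset.mem_insert_self _ _⟩)) (v 1 i0)
    refine ⟨z, hz, fun h => hne ?_⟩
    rw [← congrFun h i0, hv z hz i0]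

end Pool.Agent.H21bl.CC
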