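import Mathlib
import Pool.Agent.H21bl.CC.Pts
import Pool.Agent.H21bl.RE.Main

/-!
The theorem for varieties whose coordinate functions are made of roots of polynomials in units.
-/

set_option autoImplicit false
set_option linter.unusedSectionVars false

open Finset Filter

namespace Pool.Agent.H21bl.CC

open NumberField IsDedekindDomain
open Pool.Agent.N754.LT
open Pool.Agent.H159R3.Exp (Laur FinitelyManyIntegral intPoints)
open Pool.Agent.W235.RM (EntireCurvesIn GmCurvesIn)
open Pool.Agent.H21bl.RE (RadFun RadCurvesIn RadType rad_of_gm)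
open scoped NumberField

variable {K : Type} [Field K] {n : ℕ} {ι κ : Type}

/-- There is a vector `μ` such that for every weight `θ` with `μ · θ ≤ 0`, the initial form of `H`
is `H` itself, or it is the product of a monomial and the `e`-th power of a polynomial, over an
algebraic closure of `K`. -/
def SplitEdges (e : ℕ) (H : MvPolynomial (Fin 2) K) : Prop :=
  ∃ μ : Fin 2 → ℝ, ∀ θ : Fin 2 → ℝ, ∑ j, μ j * θ j ≤ 0 → initialForm θ H = H ∨
    ∃ (b : Fin 2 →₀ ℕ) (c : AlgebraicClosure K) (P : MvPolynomial (Fin 2) (AlgebraicClosure K)),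
      MvPolynomial.map (algebraMap K (AlgebraicClosure K)) (initialForm θ H) =
        MvPolynomial.monomial b c * P ^ e

/-- `f ^ e = A * H(B, C)` on `V(ℂ)`, where `A`, `B` and `C` have no zeros on `V(ℂ)` and the edges of
`H` are split. -/
def CyclicRoot (σ : K →+* ℂ) (F : ι → MvPolynomial (Fin n) (𝓞 K)) (f : MvPolynomial (Fin n) K) :
    Prop :=
  ∃ (e : ℕ) (A B C : MvPolynomial (Fin n) K) (H : MvPolynomial (Fin 2) K), 0 < e ∧
    UnitOn σ F A ∧ UnitOn σ F B ∧ UnitOn σ F C ∧ SplitEdges e H ∧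
    ∀ z : Fin n → ℂ, (∀ i, MvPolynomial.eval₂ (σ.comp (algebraMap (𝓞 K) K)) z (F i) = 0) →
      MvPolynomial.eval₂ σ z f ^ e = MvPolynomial.eval₂ σ z A *
        MvPolynomial.eval₂ σ ![MvPolynomial.eval₂ σ z B, MvPolynomial.eval₂ σ z C] H

/-- a Nullstellensatz -/
theorem unit_cert' [NumberField K] (σ : K →+* ℂ) (F : ι → MvPolynomial (Fin n) K)
    (f : MvPolynomial (Fin n) K)
    (h : ∀ z : Fin n → ℂ, (∀ l, MvPolynomial.eval₂ σ z (F l) = 0) → MvPolynomial.eval₂ σ z f ≠ 0) :
    ∃ B : MvPolynomial (Fin n) K, B * f - 1 ∈ Ideal.span (Set.range F) := by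
  classical
  by_contra hcon
  push Not at hcon
  let I : Ideal (MvPolynomial (Fin n) K) := Ideal.span (Set.range F) ⊔ Ideal.span {f}
  have hI : I ≠ ⊤ := by
    intro hI
    have h1 : (1 : MvPolynomial (Fin n) K) ∈ I := by rw [hI]; trivial
    obtain ⟨y, hy, z, hz, hyz⟩ := Submodule.mem_sup.1 h1
    obtain ⟨B, hB⟩ := Ideal.mem_span_singleton'.1 hz
    apply hcon B
    have h2 : B * f - 1 = -y := by
      rw [hB, ← hyz]
      ring
    rw [h2]
    exact neg_mem hy
  obtain ⟨m, hm, hIm⟩ := Ideal.exists_le_maximal I hI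
  let k : Type := MvPolynomial (Fin n) K ⧸ m
  let : Field k := Ideal.Quotient.field m
  have hfin : Module.Finite K k := finite_of_finite_type_of_isJacobsonRing K k
  let : Algebra K ℂ := σ.toAlgebra
  let τ : k →ₐ[K] ℂ := IsAlgClosed.lift
  let z : Fin n → ℂ := fun j => τ (Ideal.Quotient.mk m (MvPolynomial.X j))
  have hz : ∀ P : MvPolynomial (Fin n) K, MvPolynomial.eval₂ σ z P = τ (Ideal.Quotient.mk m P) := by
    intro P
    have h1 : (MvPolynomial.aeval z : MvPolynomial (Fin n) K →ₐ[K] ℂ) =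
        τ.comp (Ideal.Quotient.mkₐ K m) := by
      ext j
      rw [MvPolynomial.aeval_X]
      rfl
    exact DFunLike.congr_fun h1 P
  refine h z (fun l => ?_) ?_
  · rw [hz]
    have h1 : F l ∈ m := hIm (Submodule.mem_sup_left (Ideal.subset_span ⟨l, rfl⟩))
    rw [Ideal.Quotient.eq_zero_iff_mem.2 h1, map_zero]
  · have h1 : f ∈ m := hIm (Submodule.mem_sup_right (Ideal.subset_span rfl))
    rw [hz, Ideal.Quotient.eq_zero_iff_mem.2 h1, map_zero]

/-- split edges over the algebraic numbers -/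
theorem split_Qb [NumberField K] (σ : K →+* ℂ) (e : ℕ) (H : MvPolynomial (Fin 2) K)
    (hH : SplitEdges e H) : ∃ μ : Fin 2 → ℝ, ∀ θ : Fin 2 → ℝ, ∑ j, μ j * θ j ≤ 0 →
    initialForm θ (MvPolynomial.map (toQ σ) H) = MvPolynomial.map (toQ σ) H ∨
      ∃ (b : Fin 2 →₀ ℕ) (c : Qb) (P : MvPolynomial (Fin 2) Qb),
        initialForm θ (MvPolynomial.map (toQ σ) H) = MvPolynomial.monomial b c * P ^ e := by
  obtain ⟨μ, hμ⟩ := hH
  refine ⟨μ, fun θ hθ => ?_⟩
  rw [initialForm_map _ (toQ σ).injective]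
  rcases hμ θ hθ with h | ⟨b, c, P, h⟩
  · left
    rw [h]
  · right
    let : Algebra K Qb := (toQ σ).toAlgebra
    let j : AlgebraicClosure K →ₐ[K] Qb := IsAlgClosed.lift
    refine ⟨b, j c, MvPolynomial.map (j : AlgebraicClosure K →+* Qb) P, ?_⟩
    have h1 := congrArg (MvPolynomial.map (j : AlgebraicClosure K →+* Qb)) h
    rw [MvPolynomial.map_map, map_mul, map_pow, MvPolynomial.map_monomial] at h1
    have h2 : (j : AlgebraicClosure K →+* Qb).comp (algebraMap K (AlgebraicClosure K)) = toQ σ :=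
      RingHom.ext fun x => j.commutes x
    rw [h2] at h1
    exact h1

/-- the arithmetic half -/
theorem integral_of_gmC [NumberField K] (σ : K →+* ℂ)
    (F : ι → MvPolynomial (Fin n) (𝓞 K)) (G : κ → MvPolynomial (Fin n) (𝓞 K))
    (hroot : ∀ i, (MvPolynomial.X i : MvPolynomial (Fin n) K) ∈
      Algebra.adjoin K {f | CyclicRoot σ F f})
    (h : GmCurvesIn σ F G) : FinitelyManyIntegral F G := by
  classical
  intro L _ _ _ S hS
  by_contra hinf
  let x : ℕ → Fin n → L := fun t => (Set.Infinite.natEmbedding _ hinf t : Fin n → L)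
  have hx : ∀ t, x t ∈ intPoints F L S \ intPoints G L S := fun t =>
    (Set.Infinite.natEmbedding _ hinf t).2
  have hxinj : Function.Injective x := fun s t hst =>
    (Set.Infinite.natEmbedding _ hinf).injective (Subtype.ext hst)
  -- the embedding
  let : Algebra K ℂ := σ.toAlgebra
  have halg : Algebra.IsAlgebraic K L := by
    have := NumberField.to_finiteDimensional (K := L)
    have : IsScalarTower ℚ K L := by infer_instance
    have : FiniteDimensional K L := FiniteDimensional.right ℚ K L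
    infer_instance
  let τ : L →ₐ[K] ℂ := IsAlgClosed.lift
  have hτi : Function.Injective τ := (τ : L →+* ℂ).injective
  have hτσ : (τ : L →+* ℂ).comp (algebraMap K L) = σ := RingHom.ext fun c => τ.commutes c
  set φ : 𝓞 K →+* ℂ := σ.comp (algebraMap (𝓞 K) K) with hφ
  have hτφ : (τ : L →+* ℂ).comp ((algebraMap K L).comp (algebraMap (𝓞 K) K)) = φ := by
    rw [← RingHom.comp_assoc, hτσ]
  let X : ℕ → Fin n → ℂ := fun t i => τ (x t i)
  have hevL : ∀ t (P : MvPolynomial (Fin n) (𝓞 K)), MvPolynomial.eval₂ φ (X t) P =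
      τ (MvPolynomial.eval₂ ((algebraMap K L).comp (algebraMap (𝓞 K) K)) (x t) P) := by
    intro t P
    have h1 := MvPolynomial.hom_eval₂ P ((algebraMap K L).comp (algebraMap (𝓞 K) K))
      (τ : L →+* ℂ) (x t)
    rw [hτφ] at h1
    exact h1.symm
  have hXF : ∀ t l, MvPolynomial.eval₂ φ (X t) (F l) = 0 := fun t l => by
    rw [hevL, (hx t).1.2 l, map_zero]
  have hXG : ∀ t, ∃ l, MvPolynomial.eval₂ φ (X t) (G l) ≠ 0 := by
    intro t
    by_contra hcon
    push Not at hcon
    apply (hx t).2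
    refine ⟨(hx t).1.1, fun l => ?_⟩
    have h1 := hcon l
    rw [hevL] at h1
    exact (map_eq_zero_iff τ hτi).1 h1
  -- germs
  obtain ⟨𝒰, h𝒰⟩ : ∃ 𝒰 : Ultrafilter ℕ, 𝒰 = Filter.hyperfilter ℕ := ⟨_, rfl⟩
  let gP : MvPolynomial (Fin n) K →+* GB 𝒰 :=
    (gb 𝒰).comp (RingHom.pi fun t => MvPolynomial.eval₂Hom σ (X t))
  have hgP : ∀ P, gP P = gb 𝒰 fun t => MvPolynomial.eval₂ σ (X t) P := fun P => rfl
  have hgC : ∀ c, gP (MvPolynomial.C c) = algebraMap Qb (GB 𝒰) (toQ σ c) := by
    intro c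
    rw [hgP]
    simp only [MvPolynomial.eval₂_C]
    rfl
  have hgX : ∀ i, gP (MvPolynomial.X i) = gb 𝒰 fun t => X t i := by
    intro i
    rw [hgP]
    simp only [MvPolynomial.eval₂_X]
  have hXA : ∀ i, gP (MvPolynomial.X i) ∈ AI 𝒰 := fun i => by
    rw [hgX]
    exact ⟨L, inferInstance, inferInstance, (τ : L →+* ℂ), S, hS, fun t => x t i,
      fun t => (hx t).1.1 i, rfl⟩
  have hPA : ∀ P, gP P ∈ AI 𝒰 := by
    intro P
    induction P using MvPolynomial.induction_on with
    | C a =>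
      rw [hgC]
      exact (AI 𝒰).algebraMap_mem _
    | add p q hp hq =>
      rw [map_add]
      exact add_mem hp hq
    | mul_X p i hp =>
      rw [map_mul]
      exact mul_mem hp (hXA i)
  have hXFK : ∀ t l, MvPolynomial.eval₂ σ (X t) (MvPolynomial.map (algebraMap (𝓞 K) K) (F l)) = 0 :=
    fun t l => by rw [MvPolynomial.eval₂_map]; exact hXF t l
  have hker : ∀ P ∈ Ideal.span (Set.range fun l => MvPolynomial.map (algebraMap (𝓞 K) K) (F l)),
      gP P = 0 := by
    have h1 : Ideal.span (Set.range fun l => MvPolynomial.map (algebraMap (𝓞 K) K) (F l)) ≤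
        RingHom.ker gP := by
      rw [Ideal.span_le]
      rintro _ ⟨l, rfl⟩
      show gP _ = 0
      rw [hgP, ← map_zero (gb 𝒰)]
      congr 1
      funext t
      exact hXFK t l
    exact fun P hP => h1 hP
  have hunit : ∀ f, UnitOn σ F f → ∃ u ∈ WB 𝒰, (u : GB 𝒰) = gP f := by
    intro f hf
    obtain ⟨B, hB⟩ := unit_cert' σ (fun l => MvPolynomial.map (algebraMap (𝓞 K) K) (F l)) f (by
      intro z hz
      refine hf z fun l => ?_
      have h1 := hz l
      rw [MvPolynomial.eval₂_map] at h1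
      exact h1)
    have h1 : gP B * gP f = 1 := by
      have h2 := hker _ hB
      rw [map_sub, map_mul, map_one, sub_eq_zero] at h2
      exact h2
    exact ⟨⟨gP f, gP B, by rw [mul_comm]; exact h1, h1⟩, ⟨hPA f, hPA B⟩, rfl⟩
  -- roots
  have hcyc : ∀ f, CyclicRoot σ F f → gP f ∈ SW 𝒰 := by
    rintro f ⟨e, A, B, C, H, he, hA, hB, hC, hH, hf⟩
    obtain ⟨a, ha, ha'⟩ := hunit A hA
    obtain ⟨b, hb, hb'⟩ := hunit B hB
    obtain ⟨c, hc, hc'⟩ := hunit C hC
    obtain ⟨μ, hμ⟩ := split_Qb σ e H hH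
    refine coordB (MvPolynomial.map (toQ σ) H) e he μ hμ a b c ha hb hc (gP f) (hPA f) ?_
    have h1 : MvPolynomial.aeval ![(b : GB 𝒰), (c : GB 𝒰)] (MvPolynomial.map (toQ σ) H) =
        gb 𝒰 fun t => MvPolynomial.eval₂ σ ![MvPolynomial.eval₂ σ (X t) B,
          MvPolynomial.eval₂ σ (X t) C] H := by
      have h2 : ∀ Q : MvPolynomial (Fin 2) K,
          MvPolynomial.aeval ![(b : GB 𝒰), (c : GB 𝒰)] (MvPolynomial.map (toQ σ) Q) =
          gb 𝒰 fun t => MvPolynomial.eval₂ σ ![MvPolynomial.eval₂ σ (X t) B,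
            MvPolynomial.eval₂ σ (X t) C] Q := by
        intro Q
        induction Q using MvPolynomial.induction_on with
        | C a =>
          rw [MvPolynomial.map_C, MvPolynomial.aeval_C]
          simp only [MvPolynomial.eval₂_C]
          rfl
        | add p q hp hq =>
          rw [map_add, map_add, hp, hq, ← map_add]
          congr 1
          funext t
          exact (MvPolynomial.eval₂_add _ _).symm
        | mul_X p i hp =>
          rw [map_mul, map_mul, hp, MvPolynomial.map_X, MvPolynomial.aeval_X]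
          have h3 : (![(b : GB 𝒰), (c : GB 𝒰)] : Fin 2 → GB 𝒰) i = gb 𝒰 fun t =>
              (![MvPolynomial.eval₂ σ (X t) B, MvPolynomial.eval₂ σ (X t) C] : Fin 2 → ℂ) i := by
            fin_cases i
            · exact hb'
            · exact hc'
          rw [h3, ← map_mul]
          congr 1
          funext t
          rw [MvPolynomial.eval₂_mul, MvPolynomial.eval₂_X]
          rfl
      exact h2 H
    rw [h1, ha', hgP, hgP, ← map_pow, ← map_mul]
    congr 1
    funext t
    exact hf (X t) (hXF t)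
  have hSW : ∀ f ∈ Algebra.adjoin K {f | CyclicRoot σ F f}, gP f ∈ SW 𝒰 := by
    intro f hf
    induction hf using Algebra.adjoin_induction with
    | mem f hf => exact hcyc f hf
    | algebraMap c =>
      have h1 : algebraMap K (MvPolynomial (Fin n) K) c = MvPolynomial.C c := rfl
      rw [h1, hgC]
      exact (SW 𝒰).algebraMap_mem _
    | add f g _ _ hf hg =>
      rw [map_add]
      exact add_mem hf hg
    | mul f g _ _ hf hg =>
      rw [map_mul]
      exact mul_mem hf hg
  obtain ⟨r, w, P, hw, hwne, hP⟩ := sw_rep (fun i => gP (MvPolynomial.X i)) fun i =>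
    hSW _ (hroot i)
  have hinj := evB_inj w hw hwne
  choose wr hwr using fun j => unit_rep (w j)
  -- the equations
  have hPF : ∀ l, MvPolynomial.eval₂ ((algebraMap Qb (La Qb r)).comp
      ((toQ σ).comp (algebraMap (𝓞 K) K))) P (F l) = 0 := by
    intro l
    apply hinj
    have h1 := MvPolynomial.hom_eval₂ (F l) ((algebraMap Qb (La Qb r)).comp
      ((toQ σ).comp (algebraMap (𝓞 K) K))) ((ev w : La Qb r →ₐ[Qb] GB 𝒰) : La Qb r →+* GB 𝒰) P
    have h2 : ev w (MvPolynomial.eval₂ ((algebraMap Qb (La Qb r)).comp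
      ((toQ σ).comp (algebraMap (𝓞 K) K))) P (F l)) = _ := h1
    rw [h2]
    have h3 := MvPolynomial.hom_eval₂ (MvPolynomial.map (algebraMap (𝓞 K) K) (F l))
      (MvPolynomial.C) gP MvPolynomial.X
    have h4 : MvPolynomial.eval₂ MvPolynomial.C MvPolynomial.X
        (MvPolynomial.map (algebraMap (𝓞 K) K) (F l)) =
        MvPolynomial.map (algebraMap (𝓞 K) K) (F l) := MvPolynomial.eval₂_eta _
    rw [h4, hker _ (Ideal.subset_span ⟨l, rfl⟩), MvPolynomial.eval₂_map] at h3
    rw [h3]
    have h5 : (gP.comp MvPolynomial.C).comp (algebraMap (𝓞 K) K) =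
        ((ev w : La Qb r →ₐ[Qb] GB 𝒰) : La Qb r →+* GB 𝒰).comp ((algebraMap Qb (La Qb r)).comp
      ((toQ σ).comp (algebraMap (𝓞 K) K))) := by
      apply RingHom.ext
      intro c
      show gP (MvPolynomial.C _) = ev w (algebraMap Qb (La Qb r) _)
      rw [hgC, AlgHom.commutes]
    rw [h5]
    congr 1
    funext i
    exact (hP i).symm
  have hnc : ∃ i, ∃ b ∈ (P i).coeff.support, b ≠ 0 := by
    by_contra hcon
    push Not at hcon
    have h1 : ∀ i, gP (MvPolynomial.X i) = algebraMap Qb (GB 𝒰) ((P i).coeff 0) := by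
      intro i
      rw [hP i, ev_apply]
      have h2 : ∀ b ∈ (P i).coeff.support, (P i).coeff b • (mo w b : GB 𝒰) =
          algebraMap Qb (GB 𝒰) ((P i).coeff b) := by
        intro b hb
        rw [hcon i b hb, mo_zero, Algebra.smul_def, Units.val_one, mul_one]
      rw [Finset.sum_congr rfl h2, ← map_sum]
      congr 1
      by_cases h0 : (0 : Fin r → ℤ) ∈ (P i).coeff.support
      · rw [Finset.sum_eq_single 0 (fun b hb hb0 => absurd (hcon i b hb) hb0)
          (fun h => absurd h0 h)]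
      · rw [Finset.sum_eq_zero, Finsupp.notMem_support_iff.1 h0]
        intro b hb
        exact absurd (hcon i b hb ▸ hb) h0
    have h2 : ∀ᶠ t in (𝒰 : Filter ℕ), ∀ i, X t i = (((P i).coeff 0 : Qb) : ℂ) := by
      refine (Filter.eventually_all).2 fun i => ?_
      have h3 := h1 i
      rw [hgX, algGB, gb_eq] at h3
      exact h3
    have h3 : Set.Infinite {t | ∀ i, X t i = (((P i).coeff 0 : Qb) : ℂ)} := by
      intro hfin
      exact (Filter.notMem_hyperfilter_of_finite hfin) (h𝒰 ▸ h2)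
    obtain ⟨s, hs, t, ht, hst⟩ := h3.nontrivial
    refine hst (hxinj (funext fun i => hτi ?_))
    have h4 : X s i = (((P i).coeff 0 : Qb) : ℂ) := hs i
    have h5 : X t i = (((P i).coeff 0 : Qb) : ℂ) := ht i
    exact h4.trans h5.symm
  -- a point
  have hrep : ∀ᶠ t in (𝒰 : Filter ℕ), ∀ i, X t i = ev (fun j => wr j t) (P i) := by
    refine (Filter.eventually_all).2 fun i => ?_
    have h1 := hP i
    rw [hgX, ev_rep w wr hwr, gb_eq] at h1
    exact h1
  have hne : (𝒰 : Filter ℕ).NeBot := 𝒰.neBot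
  obtain ⟨t, ht⟩ := (@Filter.Eventually.exists ℕ _ (𝒰 : Filter ℕ) 𝒰.neBot hrep)
  obtain ⟨v, hv1, hv2, hv3, z, hz, hv4⟩ := torus_curve P (fun j => wr j t) hnc
  obtain ⟨l, hl⟩ := hXG t
  have hv1t : v 1 = X t := by
    rw [hv3]
    funext i
    exact (ht i).symm
  apply hl
  rw [← hv1t]
  refine h v hv1 (fun i s hs => ?_) ⟨z, 1, hz, one_ne_zero, hv4⟩ l 1 one_ne_zero
  obtain ⟨x', hx'⟩ := hv2 s hs
  have h1 := MvPolynomial.hom_eval₂ (F i) ((algebraMap Qb (La Qb r)).comp
      ((toQ σ).comp (algebraMap (𝓞 K) K))) ((ev x' : La Qb r →ₐ[Qb] ℂ) : La Qb r →+* ℂ) P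
  rw [hPF i, map_zero] at h1
  rw [h1]
  have h2 : ((ev x' : La Qb r →ₐ[Qb] ℂ) : La Qb r →+* ℂ).comp ((algebraMap Qb (La Qb r)).comp
      ((toQ σ).comp (algebraMap (𝓞 K) K))) = σ.comp (algebraMap (𝓞 K) K) := by
    apply RingHom.ext
    intro c
    show ev x' (algebraMap Qb (La Qb r) _) = _
    rw [AlgHom.commutes]
    rfl
  rw [h2]
  congr 1
  funext i
  exact hx' i

/-- the analytic half -/
theorem entire_of_gmC (σ : K →+* ℂ)
    (F : ι → MvPolynomial (Fin n) (𝓞 K)) (G : κ → MvPolynomial (Fin n) (𝓞 K))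
    (hroot : ∀ i, (MvPolynomial.X i : MvPolynomial (Fin n) K) ∈
      Algebra.adjoin K {f | CyclicRoot σ F f})
    (h : GmCurvesIn σ F G) : EntireCurvesIn σ F G := by
  classical
  have hrad := rad_of_gm σ F G h
  intro f hf hF hnc z l
  have hP : ∀ P : MvPolynomial (Fin n) K, Differentiable ℂ fun z => MvPolynomial.eval₂ σ (f z) P := by
    intro P
    have h1 : (fun z => MvPolynomial.eval₂ σ (f z) P) =
        fun z => MvPolynomial.eval (f z) (MvPolynomial.map σ P) :=
      funext fun z => by rw [MvPolynomial.eval_map]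
    rw [h1]
    exact Pool.Agent.H159R3.Exp.differentiable_eval hf _
  have hunit : ∀ P, UnitOn σ F P → RadFun fun z => MvPolynomial.eval₂ σ (f z) P := by
    intro P hPu
    obtain ⟨g, hg, hgf⟩ := Pool.Agent.H21bl.entire_log (hP P) fun z => hPu (f z) (hF z)
    have h1 : (fun z => MvPolynomial.eval₂ σ (f z) P) = fun z => Complex.exp (g z) := funext hgf
    rw [h1]
    exact RadFun.exp hg
  have hcyc : ∀ P, CyclicRoot σ F P → RadFun fun z => MvPolynomial.eval₂ σ (f z) P := by
    rintro P ⟨e, A, B, C, H, he, hA, hB, hC, -, hf'⟩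
    have h1 : RadFun fun z => MvPolynomial.eval
        (![MvPolynomial.eval₂ σ (f z) B, MvPolynomial.eval₂ σ (f z) C] : Fin 2 → ℂ)
          (MvPolynomial.map σ H) :=
      Pool.Agent.H21bl.RE.RadFun.eval (x := fun z => (![MvPolynomial.eval₂ σ (f z) B,
        MvPolynomial.eval₂ σ (f z) C] : Fin 2 → ℂ)) (fun j => by
        fin_cases j
        · exact hunit B hB
        · exact hunit C hC) _
    have h2 := (hunit A hA).mul h1
    refine RadFun.root he h2 (fun z => ((hP P).analyticAt z).meromorphicAt) ?_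
    refine Set.Countable.mono (s₂ := ∅) ?_ Set.countable_empty
    intro z hz
    exfalso
    apply hz
    show MvPolynomial.eval₂ σ (f z) P ^ e = MvPolynomial.eval₂ σ (f z) A * MvPolynomial.eval
        (![MvPolynomial.eval₂ σ (f z) B, MvPolynomial.eval₂ σ (f z) C] : Fin 2 → ℂ)
          (MvPolynomial.map σ H)
    rw [MvPolynomial.eval_map]
    exact hf' (f z) (hF z)
  have hall : ∀ P ∈ Algebra.adjoin K {f | CyclicRoot σ F f},
      RadFun fun z => MvPolynomial.eval₂ σ (f z) P := by
    intro P hP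
    induction hP using Algebra.adjoin_induction with
    | mem P hP => exact hcyc P hP
    | algebraMap c =>
      have h1 : (fun z => MvPolynomial.eval₂ σ (f z) (algebraMap K (MvPolynomial (Fin n) K) c)) =
          fun _ => σ c := by
        funext z
        exact MvPolynomial.eval₂_C _ _ _
      rw [h1]
      exact RadFun.const _
    | add P Q _ _ hP hQ =>
      simp only [MvPolynomial.eval₂_add]
      exact hP.add hQ
    | mul P Q _ _ hP hQ =>
      simp only [MvPolynomial.eval₂_mul]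
      exact hP.mul hQ
  refine hrad f ⟨hf, fun z => z, differentiable_id, ⟨0, 1, zero_ne_one⟩, fun j => ?_⟩ hF hnc z l
  have h1 := hall _ (hroot j)
  simp only [MvPolynomial.eval₂_X] at h1
  exact h1

end Pool.Agent.H21bl.CC
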