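import Mathlib
import Pool.Agent.H21bl.CC.Main

/-!
# Cyclic covers of tori which are split at infinity

`V` is the closed subscheme of affine `n`-space over the ring of integers of a number field `K`
given by the finitely many polynomials `F i`, and `V'` is its closed subscheme given by the `G l`.

A polynomial `f` with coefficients in `K` is a `CyclicRoot` when `f ^ e = A * H(B, C)` on `V(ℂ)` for
some `e ≥ 1`, some polynomials `A`, `B`, `C` without zeros on `V(ℂ)` and some polynomial `H` in two
variables with enough split edges (`SplitEdges`): for some vector `μ` and every real weight `θ` with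
`μ · θ ≤ 0` the initial form of `H` is `H` itself or the product of a monomial and the `e`-th power
of a polynomial, over an algebraic closure of `K`. So the edges of the Newton polygon of `H` whose
outer normals are in the open half plane `μ · θ > 0` are arbitrary. For instance `A`, `B`, `C` and
all polynomials in `B` and `C` are such functions (with `e = 1`), and so are the square roots of
`P(B, C) ^ 2 + R(B, C)` when the exponents of `R` are in the interior of the Newton polygon of
`P ^ 2`, and the square roots of `(1 + B) ^ 2 + C (a + b B) + c C ^ 2` (this is not used).

If the coordinate functions are in the `K`-algebra generated by such functions, conditions (i) and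
(ii) are equivalent, and both mean that every nonconstant Laurent curve in `V(ℂ)` is in `V'(ℂ)`.
-/

set_option autoImplicit false

namespace Pool.Agent.H21bl.CC.Result

open MvPolynomial NumberField
open Pool.Agent.H159R3.Exp (FinitelyManyIntegral)
open Pool.Agent.W235.RM (EntireCurvesIn GmCurvesIn tfae exp_of_entire rec_of_integral)
open Pool.Agent.H21bl.CC (SplitEdges UnitOn CyclicRoot)
open scoped NumberField

/-- **Conditions (i) and (ii) are equivalent for the closed subschemes of affine space whose
functions are polynomials in roots `(A * H(B, C)) ^ (1 / e)`**, where `A`, `B`, `C` have no zeros on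
`V(ℂ)` and the edges of `H` outside a half plane are split, for all closed subschemes `V'`. -/
theorem result {K : Type} [Field K] [NumberField K] (σ : K →+* ℂ) {n : ℕ} {ι κ : Type} [Finite ι]
    (F : ι → MvPolynomial (Fin n) (𝓞 K)) (G : κ → MvPolynomial (Fin n) (𝓞 K))
    (h : ∀ i, (X i : MvPolynomial (Fin n) K) ∈ Algebra.adjoin K {f | CyclicRoot σ F f}) :
    List.TFAE [EntireCurvesIn σ F G, FinitelyManyIntegral F G, GmCurvesIn σ F G] := by
  have ht := tfae σ F G
  tfae_have 1 → 3 := fun h1 => (ht.out 0 1).1 (exp_of_entire σ F G h1)
  tfae_have 3 → 1 := Pool.Agent.H21bl.CC.entire_of_gmC σ F G h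
  tfae_have 3 → 2 := Pool.Agent.H21bl.CC.integral_of_gmC σ F G h
  tfae_have 2 → 3 := fun h2 => (ht.out 5 1).1 (rec_of_integral F G h2)
  tfae_finish

end Pool.Agent.H21bl.CC.Result
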